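import Pool.Agent.helper23.HV.BasicA

/-!
# After a visit to `|z| ≤ √k` (module HV-Near)

As HU/Start.lean (proved there), with `q` in place of `5`. `z (t+1) = a - z t ^2 + b z (t-1)` (for `t = 0` use the
periodicity `per`, `per1` and `eqn n`), so `|z (t+1) - 2| ≤ 101/100 k`; `u i = |z (t+i) + 2|`, `i ≥ 2`:
`u 2 ≤ 5 k`, `u (i+1) ≤ (4 + u i) u i + 4 k/1000`. Claim `(q - 4) u i ≤ q^i k`.
Product: `3 (q - 4) P m ≥ 2 ^ m (3 (q - 4) - 2 q ^ m k)`.
-/

namespace Pool.Agent.helper23.HV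

open Pool.Agent.helper23.HS Finset

theorem h28_bz {p l q k a b : ℝ} {n0 n : ℕ} {z : ℕ → ℝ} (ht : Thin p l q k n0 a b n z) (j : ℕ) :
    |b * z j| ≤ k / 1000 * (21 / 10) := by
  have hk := ht.par.num.k0
  have hk2 : k ≤ 1 := ht.par.num.k1.trans (by norm_num)
  have hb := bound ht.par ht.orb j
  rw [abs_mul, abs_of_pos ht.par.b0]
  have : |z j| ≤ 21 / 10 := by linarith
  exact mul_le_mul ht.par.b1 this (abs_nonneg _) (by positivity)

theorem h28_prev {p l q k a b : ℝ} {n0 n : ℕ} {z : ℕ → ℝ} (ht : Thin p l q k n0 a b n z) (t : ℕ) :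
    |z (t + 1) - 2| ≤ z t ^ 2 + 31 / 10000 * k := by
  have hk := ht.par.num.k0
  have ha := abs_le.1 ht.par.ha
  have h0 : ∃ m, z (t + 1) + z t ^ 2 - b * z m = a := by
    rcases t with _ | s
    · refine ⟨n, ?_⟩
      have h1 := ht.orb.eqn n
      rw [ht.orb.per, ht.orb.per1] at h1
      exact h1
    · exact ⟨s, ht.orb.eqn s⟩
  obtain ⟨m, hm⟩ := h0
  have hb := abs_le.1 (h28_bz ht m)
  have hz : 0 ≤ z t ^ 2 := sq_nonneg _
  rw [abs_le]
  constructor <;> linarith [hb.1, hb.2, ha.1, ha.2]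

theorem h28_one {p l q k a b : ℝ} {n0 n : ℕ} {z : ℕ → ℝ} (ht : Thin p l q k n0 a b n z) {t : ℕ}
    (hs : |z t| ≤ Real.sqrt k) : |z (t + 1) - 2| ≤ 101 / 100 * k := by
  have hk := ht.par.num.k0
  have h1 := h28_prev ht t
  have h2 : z t ^ 2 ≤ k := by
    rw [← sq_abs (z t)]
    calc |z t| ^ 2 ≤ (Real.sqrt k) ^ 2 := pow_le_pow_left₀ (abs_nonneg _) hs 2
      _ = k := Real.sq_sqrt hk.le
  linarith

theorem h28_two {p l q k a b : ℝ} {n0 n : ℕ} {z : ℕ → ℝ} (ht : Thin p l q k n0 a b n z) {t : ℕ}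
    (hs : |z t| ≤ Real.sqrt k) : |z (t + 2) + 2| ≤ 5 * k := by
  have hk := ht.par.num.k0
  have hk1 : k ≤ 1 := ht.par.num.k1.trans (by norm_num)
  have h1 := ht.orb.eqn t
  have hz1 := h28_one ht hs
  have ha := ht.par.ha
  have hsq : z (t + 2) + 2 = (a - 2) - (z (t + 1) - 2) * (z (t + 1) + 2) + b * z t := by
    linear_combination h1
  have hz := abs_le.1 (bound ht.par ht.orb (t + 1))
  have hp : |z (t + 1) + 2| ≤ 401 / 100 := by
    rw [abs_le]
    constructor <;> linarith [hz.1, hz.2]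
  have hm : |(z (t + 1) - 2) * (z (t + 1) + 2)| ≤ 101 / 100 * k * (401 / 100) := by
    rw [abs_mul]
    exact mul_le_mul hz1 hp (abs_nonneg _) (by positivity)
  have hbz := h28_bz ht t
  rw [hsq]
  have h4 := abs_add_le ((a - 2) - (z (t + 1) - 2) * (z (t + 1) + 2)) (b * z t)
  have h5 := abs_sub (a - 2) ((z (t + 1) - 2) * (z (t + 1) + 2))
  linarith

theorem h28_small {p l q k : ℝ} {n0 : ℕ} (h : Num p l q k n0) {i : ℕ} (hi : i ≤ n0) :
    2 * q ^ i * k ≤ (q - 4) ^ 2 := by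
  have h1 : q ^ i ≤ q ^ n0 := pow_le_pow_right₀ (by linarith [h.q0]) hi
  have h2 := h.n1
  have hk := h.k0
  nlinarith [mul_le_mul_of_nonneg_right h1 hk.le]

theorem h28_near {p l q k a b : ℝ} {n0 n : ℕ} {z : ℕ → ℝ} (ht : Thin p l q k n0 a b n z) {t : ℕ}
    (hs : |z t| ≤ Real.sqrt k) (j : ℕ) (hj : j + 2 ≤ n0) :
    (q - 4) * |z (t + (j + 2)) + 2| ≤ q ^ (j + 2) * k := by
  have hk := ht.par.num.k0
  have hk1 : k ≤ 1 := ht.par.num.k1.trans (by norm_num)
  have hq0 := ht.par.num.q0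
  have hq1 := ht.par.num.q1
  induction j with
  | zero =>
    have h1 := h28_two ht hs
    have h2 : (16 : ℝ) ≤ q ^ (0 + 2) := by
      norm_num
      nlinarith
    have h3 : 16 * k ≤ q ^ (0 + 2) * k := mul_le_mul_of_nonneg_right h2 hk.le
    have h4 : (q - 4) * |z (t + (0 + 2)) + 2| ≤ 1 / 10 * (5 * k) :=
      mul_le_mul (by linarith) h1 (abs_nonneg _) (by norm_num)
    linarith
  | succ j ih =>
    have ih' := ih (by omega)
    have h1 := ht.orb.eqn (t + (j + 1))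
    have ha := ht.par.ha
    have e1 : t + (j + 1) + 1 = t + (j + 2) := by ring
    have e2 : t + (j + 1) + 2 = t + (j + 1 + 2) := by ring
    rw [e1, e2] at h1
    set y := z (t + (j + 2)) with hy
    have hsq : z (t + (j + 1 + 2)) + 2 =
        (a - 2) - (y + 2) * (y - 2) + b * z (t + (j + 1)) := by
      linear_combination h1
    have hsm : 2 * q ^ (j + 2) * k ≤ (q - 4) ^ 2 := h28_small ht.par.num (by omega)
    have hD : 0 < q - 4 := by linarith
    have hv : |y + 2| ≤ (q - 4) / 2 := by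
      have h3 : (q - 4) * |y + 2| ≤ (q - 4) * ((q - 4) / 2) := by nlinarith
      exact le_of_mul_le_mul_left h3 hD
    have hp : |y - 2| ≤ 4 + (q - 4) / 2 := by
      have h3 := abs_le.1 hv
      rw [abs_le]
      constructor <;> linarith [h3.1, h3.2]
    have hm : |(y + 2) * (y - 2)| ≤ |y + 2| * (4 + (q - 4) / 2) := by
      rw [abs_mul]
      exact mul_le_mul_of_nonneg_left hp (abs_nonneg _)
    have hbz := h28_bz ht (t + (j + 1))
    rw [hsq]
    have h4 := abs_add_le ((a - 2) - (y + 2) * (y - 2)) (b * z (t + (j + 1)))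
    have h5 := abs_sub (a - 2) ((y + 2) * (y - 2))
    have h6 : |(a - 2) - (y + 2) * (y - 2) + b * z (t + (j + 1))| ≤
        |y + 2| * (4 + (q - 4) / 2) + 31 / 10000 * k := by linarith
    have h7 : (q - 4) * |(a - 2) - (y + 2) * (y - 2) + b * z (t + (j + 1))| ≤
        (q - 4) * (|y + 2| * (4 + (q - 4) / 2) + 31 / 10000 * k) :=
      mul_le_mul_of_nonneg_left h6 hD.le
    have h8 : (q - 4) * |y + 2| * (4 + (q - 4) / 2) ≤ q ^ (j + 2) * k * (4 + (q - 4) / 2) :=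
      mul_le_mul_of_nonneg_right ih' (by linarith)
    have h9 : (1 : ℝ) * k ≤ q ^ (j + 2) * k := by
      apply mul_le_mul_of_nonneg_right _ hk.le
      exact one_le_pow₀ (by linarith)
    have h10 : (q - 4) * k ≤ (q - 4) * (q ^ (j + 2) * k) := by
      apply mul_le_mul_of_nonneg_left _ hD.le
      linarith
    have h10' : 0 ≤ (q - 4) * k := by positivity
    have h11 : q ^ (j + 1 + 2) * k = q * (q ^ (j + 2) * k) := by ring
    rw [h11]
    nlinarith

theorem h28_le {p l q k a b : ℝ} {n0 n : ℕ} {z : ℕ → ℝ} (ht : Thin p l q k n0 a b n z) {t : ℕ}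
    (hs : |z t| ≤ Real.sqrt k) (i : ℕ) (hi : i < n0) :
    ∃ u, 0 ≤ u ∧ u ≤ 1 / 20 ∧ (q - 4) * u ≤ q ^ (i + 1) * k ∧ 2 - u ≤ |z (t + (i + 1))| := by
  have hk := ht.par.num.k0
  have hk1 : k ≤ 1 / 100 := ht.par.num.k1.trans (by norm_num)
  have hq0 := ht.par.num.q0
  have hq1 := ht.par.num.q1
  rcases i with _ | j
  · refine ⟨|z (t + 1) - 2|, abs_nonneg _, ?_, ?_, ?_⟩
    · have h1 := h28_one ht hs
      linarith
    · have h1 := h28_one ht hs
      have h4 : (q - 4) * |z (t + 1) - 2| ≤ 1 / 10 * (101 / 100 * k) :=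
        mul_le_mul (by linarith) h1 (abs_nonneg _) (by norm_num)
      have h5 : 4 * k ≤ q * k := mul_le_mul_of_nonneg_right hq0.le hk.le
      simp only [Nat.zero_add, pow_one]
      linarith
    · have h1 := neg_abs_le (z (t + 1) - 2)
      have h2 := le_abs_self (z (t + 1))
      simp only [Nat.zero_add]
      linarith
  · refine ⟨|z (t + (j + 2)) + 2|, abs_nonneg _, ?_, ?_, ?_⟩
    · have h1 := h28_near ht hs j (by omega)
      have hsm : 2 * q ^ (j + 2) * k ≤ (q - 4) ^ 2 := h28_small ht.par.num (by omega)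
      have hD : 0 < q - 4 := by linarith
      have h3 : (q - 4) * |z (t + (j + 2)) + 2| ≤ (q - 4) * ((q - 4) / 2) := by nlinarith
      have h4 := le_of_mul_le_mul_left h3 hD
      linarith
    · exact h28_near ht hs j (by omega)
    · have h1 := le_abs_self (z (t + (j + 2)) + 2)
      have h2 := neg_le_abs (z (t + (j + 1 + 1)))
      have e : z (t + (j + 1 + 1)) = z (t + (j + 2)) := rfl
      rw [e] at h2 ⊢
      linarith

theorem h28_prod {p l q k a b : ℝ} {n0 n : ℕ} {z : ℕ → ℝ} (ht : Thin p l q k n0 a b n z) {t : ℕ}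
    (hs : |z t| ≤ Real.sqrt k) (m : ℕ) (hm : m ≤ n0) :
    2 ^ m * (3 * (q - 4) - 2 * q ^ m * k) ≤
      3 * (q - 4) * ∏ i ∈ range m, |z (t + (i + 1))| := by
  have hk := ht.par.num.k0
  have hq0 := ht.par.num.q0
  have hq1 := ht.par.num.q1
  have hD : 0 < q - 4 := by linarith
  induction m with
  | zero =>
    simp only [pow_zero, range_zero, prod_empty]
    linarith
  | succ m ih =>
    have ih' := ih (by omega)
    obtain ⟨u, hu0, hu1, hu2, hu3⟩ := h28_le ht hs m (by omega)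
    rw [prod_range_succ]
    set P := ∏ i ∈ range m, |z (t + (i + 1))| with hP
    set x := |z (t + (m + 1))| with hx
    have hsm : 2 * q ^ m * k ≤ (q - 4) ^ 2 := h28_small ht.par.num (by omega)
    have hA : 0 ≤ 3 * (q - 4) - 2 * q ^ m * k := by nlinarith
    have hQ : 0 < q ^ m * k := by positivity
    have h2m : (0 : ℝ) < 2 ^ m := by positivity
    have h1 : 2 ^ m * (3 * (q - 4) - 2 * q ^ m * k) * (2 - u) ≤
        2 ^ m * (3 * (q - 4) - 2 * q ^ m * k) * x :=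
      mul_le_mul_of_nonneg_left hu3 (mul_nonneg h2m.le hA)
    have h2 : 2 ^ m * (3 * (q - 4) - 2 * q ^ m * k) * x ≤ 3 * (q - 4) * P * x :=
      mul_le_mul_of_nonneg_right ih' (abs_nonneg _)
    have h3 : 2 * (3 * (q - 4) - 2 * q ^ (m + 1) * k) ≤
        (3 * (q - 4) - 2 * q ^ m * k) * (2 - u) := by
      have e : q ^ (m + 1) * k = q * (q ^ m * k) := by ring
      rw [e] at hu2
      have e2 : 2 * q ^ (m + 1) * k = 2 * (q * (q ^ m * k)) := by ring
      rw [e2]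
      have h4 : 4 * (q ^ m * k) ≤ q * (q ^ m * k) := mul_le_mul_of_nonneg_right hq0.le hQ.le
      have h5 : 0 ≤ q ^ m * k * u := mul_nonneg hQ.le hu0
      nlinarith
    have h4 : 2 ^ m * (2 * (3 * (q - 4) - 2 * q ^ (m + 1) * k)) ≤
        2 ^ m * ((3 * (q - 4) - 2 * q ^ m * k) * (2 - u)) :=
      mul_le_mul_of_nonneg_left h3 h2m.le
    have e3 : (2 : ℝ) ^ (m + 1) * (3 * (q - 4) - 2 * q ^ (m + 1) * k) =
        2 ^ m * (2 * (3 * (q - 4) - 2 * q ^ (m + 1) * k)) := by ring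
    rw [e3]
    have e4 : 3 * (q - 4) * (P * x) = 3 * (q - 4) * P * x := by ring
    rw [e4]
    have e5 : 2 ^ m * ((3 * (q - 4) - 2 * q ^ m * k) * (2 - u)) =
        2 ^ m * (3 * (q - 4) - 2 * q ^ m * k) * (2 - u) := by ring
    linarith

theorem near {p l q k a b : ℝ} {n0 n : ℕ} {z : ℕ → ℝ} (ht : Thin p l q k n0 a b n z) {t : ℕ}
    (hs : |z t| ≤ Real.sqrt k) :
    0 < z (t + 1) ∧ (∀ i, 1 ≤ i → i ≤ n0 → 19 / 10 ≤ |z (t + i)|) ∧
      (∀ i, 2 ≤ i → i ≤ n0 → z (t + i) < 0) ∧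
      2 ^ n0 / 2 ≤ ∏ i ∈ range n0, |z (t + (i + 1))| := by
  have hk := ht.par.num.k0
  have hk1 : k ≤ 1 / 100 := ht.par.num.k1.trans (by norm_num)
  have hq0 := ht.par.num.q0
  have hq1 := ht.par.num.q1
  have hD : 0 < q - 4 := by linarith
  refine ⟨?_, ?_, ?_, ?_⟩
  · have h1 := abs_le.1 (h28_one ht hs)
    linarith [h1.1, h1.2]
  · intro i hi1 hi2
    obtain ⟨j, rfl⟩ : ∃ j, i = j + 1 := ⟨i - 1, by omega⟩
    obtain ⟨u, hu0, hu1, hu2, hu3⟩ := h28_le ht hs j (by omega)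
    linarith
  · intro i hi1 hi2
    obtain ⟨j, rfl⟩ : ∃ j, i = j + 2 := ⟨i - 2, by omega⟩
    have h1 := h28_near ht hs j hi2
    have hsm : 2 * q ^ (j + 2) * k ≤ (q - 4) ^ 2 := h28_small ht.par.num hi2
    have h3 : (q - 4) * |z (t + (j + 2)) + 2| ≤ (q - 4) * ((q - 4) / 2) := by nlinarith
    have h4 := abs_le.1 (le_of_mul_le_mul_left h3 hD)
    linarith [h4.1, h4.2]
  · have h1 := h28_prod ht hs n0 le_rfl
    have hsm : 2 * q ^ n0 * k ≤ (q - 4) ^ 2 := h28_small ht.par.num le_rfl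
    have h2n : (0 : ℝ) < 2 ^ n0 := by positivity
    have h3 : (q - 4) * (3 / 2) ≤ 3 * (q - 4) - 2 * q ^ n0 * k := by nlinarith
    have h4 : 2 ^ n0 * ((q - 4) * (3 / 2)) ≤ 2 ^ n0 * (3 * (q - 4) - 2 * q ^ n0 * k) :=
      mul_le_mul_of_nonneg_left h3 h2n.le
    have h5 : 3 * (q - 4) * (2 ^ n0 / 2) ≤
        3 * (q - 4) * ∏ i ∈ range n0, |z (t + (i + 1))| := by
      have e : 3 * (q - 4) * ((2 : ℝ) ^ n0 / 2) = 2 ^ n0 * ((q - 4) * (3 / 2)) := by ring
      rw [e]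
      linarith
    exact le_of_mul_le_mul_left h5 (by linarith)

theorem n_large {p l q k a b : ℝ} {n0 n : ℕ} {z : ℕ → ℝ} (ht : Thin p l q k n0 a b n z) :
    n0 ≤ n := by
  by_contra hcon
  obtain ⟨hkp, -, -, -, -, h6, -, -⟩ := small_k ht.par.num
  have hs : |z 0| ≤ Real.sqrt k := by
    have h2 := ht.small
    linarith
  have h1 := (near ht hs).2.1 (n + 1) (by omega) (by omega)
  rw [Nat.zero_add, ht.orb.per] at h1
  have hk1 : k ≤ 1 := ht.par.num.k1.trans (by norm_num)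
  have h3 : Real.sqrt k ≤ 1 := Real.sqrt_le_one.2 hk1
  linarith

theorem wt_one {p l q k a b : ℝ} {n0 n : ℕ} {z : ℕ → ℝ} (ht : Thin p l q k n0 a b n z) :
    wt p k (z 1) ≤ k ^ p := by
  obtain ⟨hkp, -, -, -, -, -, h7, -⟩ := small_k ht.par.num
  have hk := ht.par.num.k0
  have hk1 : k ≤ 1 / 100 := ht.par.num.k1.trans (by norm_num)
  have hp0 := ht.par.num.p0
  have h0 : z 0 ^ 2 ≤ k / 1000 := by
    have h5 : z 0 ^ 2 ≤ (2 * k ^ p) ^ 2 := by
      rw [← sq_abs (z 0)]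
      exact pow_le_pow_left₀ (abs_nonneg _) ht.small 2
    linarith
  have h1' := h28_prev ht 0
  rw [Nat.zero_add] at h1'
  have h1'' : |z 1 - 2| ≤ k / 100 := by linarith
  have h1 := abs_le.1 h1''
  unfold wt
  have h2 : (2 + k / 8) ^ 2 - z 1 ^ 2 = (2 + k / 8 - z 1) * (2 + k / 8 + z 1) := by
    ring
  rw [h2]
  have h3 : 2 + k / 8 - z 1 ≤ 135 / 1000 * k := by linarith [h1.1, h1.2]
  have h3' : 0 ≤ 2 + k / 8 - z 1 := by linarith [h1.1, h1.2]
  have h4 : 2 + k / 8 + z 1 ≤ 41 / 10 := by linarith [h1.1, h1.2]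
  have h5 : 0 ≤ 2 + k / 8 + z 1 := by linarith [h1.1, h1.2]
  apply Real.rpow_le_rpow (mul_nonneg h3' h5) _ (by linarith)
  calc (2 + k / 8 - z 1) * (2 + k / 8 + z 1)
      ≤ (135 / 1000 * k) * (41 / 10) := mul_le_mul h3 h4 h5 (by positivity)
    _ ≤ k := by linarith

end Pool.Agent.helper23.HV
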