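import Pool.Agent.helper23.HV.BasicB
import Pool.Agent.helper23.HV.Near
import Pool.Agent.helper23.HT.Comp

/-!
# The adjoint solution, bound (module HV-AdjBound)

As HU/AdjBound.lean (proved there): `G j = |g j| wt (z (j+1))`, `t = k^((1-p)/2)`, for `1 ≤ j ≤ n`
`G j ≤ 1/(l (1 + t/2)) (G (j-1) + (11/1000) t^2 G (j+1))`. `G 0 = w 1 ≤ k^p`, `G (n+1) = w (n+2) = w 1`. Compare with
`U j = k^p ((1/l)^j + (1/50)^(n+1-j))`: `(1 + (11/1000) t^2 / l^2) ≤ 1 + t/2`, `1/50 + 50 (11/1000) t^2 ≤ 1`.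
`|g j| = G j / w (j+1) ≤ (5/2) (...)`.
-/

namespace Pool.Agent.helper23.HV

open Pool.Agent.helper23.HS Finset

theorem adj_bound {p l q k a b : ℝ} {n0 n : ℕ} {z g : ℕ → ℝ} (ht : Thin p l q k n0 a b n z)
    (g0 : g 0 = 1) (g1 : g (n + 1) = 1)
    (hg : ∀ j, j < n → g j + 2 * z (j + 1) * g (j + 1) - b * g (j + 2) = 0) :
    ∀ j, j ≤ n + 1 → |g j| ≤ 5 / 2 * ((1 / l) ^ j + (1 / 50) ^ (n + 1 - j)) := by
  have hpar := ht.par
  have hp := hpar.num
  obtain ⟨hr0, ht0, ht1, _, hkq, _, _, _⟩ := small_k hp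
  obtain ⟨r, hr⟩ : ∃ r : ℝ, r = k ^ p := ⟨_, rfl⟩
  obtain ⟨t, htt⟩ : ∃ t : ℝ, t = k ^ ((1 - p) / 2) := ⟨_, rfl⟩
  have hk0 := hp.k0
  have hb0 := hpar.b0
  have hb1 := hpar.b1
  have hl0 := hp.l0
  have hbd := bound hpar ht.orb
  have hwge : ∀ j, 2 / 5 * r ≤ wt p k (z j) := fun j => by
    rw [hr]
    exact wt_ge hp (hbd j)
  have hwle : ∀ j, wt p k (z j) ≤ 401 / 100 := fun j => wt_le hp (hbd j)
  rw [← hr] at hr0
  rw [← htt] at ht0 ht1
  rw [← hr, ← htt] at hkq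
  have hw0 : ∀ j, 0 ≤ wt p k (z j) := fun j => le_trans (by positivity) (hwge j)
  have hw1 : wt p k (z 1) ≤ r := by
    rw [hr]
    exact wt_one ht
  have hlt0 : 0 < l * (1 + t / 2) := by positivity
  obtain ⟨A, hA⟩ : ∃ A : ℝ, A = 1 / (l * (1 + t / 2)) := ⟨_, rfl⟩
  have hA0 : 0 < A := by
    rw [hA]
    positivity
  have hAl : A * (l * (1 + t / 2)) = 1 := by
    rw [hA]
    exact one_div_mul_cancel hlt0.ne'
  obtain ⟨m0, hm0⟩ : ∃ m0 : ℝ, m0 = 1 / l := ⟨_, rfl⟩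
  have hm00 : 0 < m0 := by
    rw [hm0]
    positivity
  have hm01 : m0 ≤ 1 := by
    rw [hm0, div_le_one (by linarith)]
    exact hl0.le
  have hAm : A * (1 + t / 2) = m0 := by
    rw [hA, hm0]
    field_simp
  have hA1 : A * (1 + t / 2) ≤ 1 := by
    rw [hAm]
    exact hm01
  have hA2 : A ≤ 1 := by nlinarith
  have htt2 : t ^ 2 ≤ 3 / 10 * t := by nlinarith
  -- the recursion
  have hG : ∀ j, j < n → |g (j + 1)| * wt p k (z (j + 1 + 1)) ≤
      A * (|g j| * wt p k (z (j + 1))) +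
        11 / 1000 * t ^ 2 * A * (|g (j + 2)| * wt p k (z (j + 2 + 1))) + 0 := by
    intro j hj
    have h1 : z (j + 2) = a - z (j + 1) ^ 2 + b * z j := by
      have := ht.orb.eqn j
      linarith
    have hout : 2 * k ^ p ≤ |z (j + 1)| := by
      have := ht.orb.out (j + 1) (by omega) (by omega)
      rw [abs_mul, abs_two] at this
      linarith
    have hwk := hw0 (j + 1)
    have h2 : l * (1 + t / 2) * wt p k (z (j + 2)) ≤
        2 * |z (j + 1)| * wt p k (z (j + 1)) := by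
      rw [h1, htt]
      exact wt_step hpar (hbd _) (hbd _) hout
    have h3 : 2 * |z (j + 1)| * |g (j + 1)| ≤ |g j| + b * |g (j + 2)| := by
      have h4 : 2 * z (j + 1) * g (j + 1) = b * g (j + 2) - g j := by
        have := hg j hj
        linarith
      have h5 : |2 * z (j + 1) * g (j + 1)| = 2 * |z (j + 1)| * |g (j + 1)| := by
        rw [abs_mul, abs_mul, abs_two]
      rw [← h5, h4]
      calc |b * g (j + 2) - g j| ≤ |b * g (j + 2)| + |g j| := abs_sub _ _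
        _ = b * |g (j + 2)| + |g j| := by rw [abs_mul, abs_of_pos hb0]
        _ = |g j| + b * |g (j + 2)| := add_comm _ _
    have h6 : l * (1 + t / 2) * (|g (j + 1)| * wt p k (z (j + 2))) ≤
        |g j| * wt p k (z (j + 1)) + b * wt p k (z (j + 1)) * |g (j + 2)| := by
      have h7 := mul_le_mul_of_nonneg_left h2 (abs_nonneg (g (j + 1)))
      have h8 := mul_le_mul_of_nonneg_right h3 hwk
      nlinarith [h7, h8]
    have h9 : b * wt p k (z (j + 1)) ≤ 11 / 1000 * t ^ 2 * wt p k (z (j + 3)) := by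
      have h10 := hwge (j + 3)
      have h11 := hwle (j + 1)
      have h12 : b * wt p k (z (j + 1)) ≤ k / 1000 * (401 / 100) :=
        mul_le_mul hb1 h11 hwk (by positivity)
      have h13 : t ^ 2 * (2 / 5 * r) ≤ t ^ 2 * wt p k (z (j + 3)) :=
        mul_le_mul_of_nonneg_left h10 (by positivity)
      have h19 : 0 ≤ r * t ^ 2 := by positivity
      have h20 : k / 1000 * (401 / 100) = 401 / 100000 * (r * t ^ 2) := by
        rw [← hkq]
        ring
      rw [h20] at h12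
      linarith
    have h15 := mul_le_mul_of_nonneg_right h9 (abs_nonneg (g (j + 2)))
    have h16 : l * (1 + t / 2) * (|g (j + 1)| * wt p k (z (j + 2))) ≤
        |g j| * wt p k (z (j + 1)) + 11 / 1000 * t ^ 2 * (|g (j + 2)| * wt p k (z (j + 3))) := by
      linarith
    have h17 := mul_le_mul_of_nonneg_left h16 hA0.le
    have h18 : A * (l * (1 + t / 2) * (|g (j + 1)| * wt p k (z (j + 2)))) =
        |g (j + 1)| * wt p k (z (j + 2)) := by
      rw [← mul_assoc, hAl, one_mul]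
    rw [h18] at h17
    show |g (j + 1)| * wt p k (z (j + 2)) ≤ A * (|g j| * wt p k (z (j + 1))) +
      11 / 1000 * t ^ 2 * A * (|g (j + 2)| * wt p k (z (j + 3))) + 0
    linarith
  -- the majorant
  have hU : ∀ j, j < n → A * (r * (m0 ^ j + (1 / 50) ^ (n + 1 - j))) +
      11 / 1000 * t ^ 2 * A * (r * (m0 ^ (j + 2) + (1 / 50) ^ (n + 1 - (j + 2)))) + 0 ≤
      r * (m0 ^ (j + 1) + (1 / 50) ^ (n + 1 - (j + 1))) := by
    intro j hj
    obtain ⟨m, hm⟩ : ∃ m, n + 1 - (j + 2) = m := ⟨_, rfl⟩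
    have e1 : n + 1 - (j + 1) = m + 1 := by omega
    have e0 : n + 1 - j = m + 2 := by omega
    rw [hm, e1, e0]
    have hP : 0 < m0 ^ j := by positivity
    have hQ : (0 : ℝ) < (1 / 50) ^ m := by positivity
    have hm02 : m0 ^ 2 ≤ 1 := pow_le_one₀ hm00.le hm01
    have k1 : A * (m0 ^ j * (1 + 11 / 1000 * t ^ 2 * m0 ^ 2)) ≤ m0 ^ j * m0 := by
      have k2 : 1 + 11 / 1000 * t ^ 2 * m0 ^ 2 ≤ 1 + t / 2 := by
        have : t ^ 2 * m0 ^ 2 ≤ t ^ 2 * 1 := mul_le_mul_of_nonneg_left hm02 (by positivity)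
        nlinarith
      calc A * (m0 ^ j * (1 + 11 / 1000 * t ^ 2 * m0 ^ 2))
          ≤ A * (m0 ^ j * (1 + t / 2)) :=
            mul_le_mul_of_nonneg_left (mul_le_mul_of_nonneg_left k2 hP.le) hA0.le
        _ = m0 ^ j * (A * (1 + t / 2)) := by ring
        _ = m0 ^ j * m0 := by rw [hAm]
    have k3 : A * ((1 / 50) ^ m * (1 / 2500 + 11 / 1000 * t ^ 2)) ≤ (1 / 50) ^ m * (1 / 50) := by
      have k4 : 1 / 2500 + 11 / 1000 * t ^ 2 ≤ 1 / 50 := by nlinarith
      calc A * ((1 / 50) ^ m * (1 / 2500 + 11 / 1000 * t ^ 2))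
          ≤ 1 * ((1 / 50) ^ m * (1 / 50)) := by
            apply mul_le_mul hA2 (mul_le_mul_of_nonneg_left k4 hQ.le) (by positivity) zero_le_one
        _ = (1 / 50) ^ m * (1 / 50) := one_mul _
    have key : A * (m0 ^ j + (1 / 50) ^ (m + 2)) +
        11 / 1000 * t ^ 2 * A * (m0 ^ (j + 2) + (1 / 50) ^ m) ≤
        m0 ^ (j + 1) + (1 / 50) ^ (m + 1) := by
      have e2 : A * (m0 ^ j + (1 / 50) ^ (m + 2)) +
          11 / 1000 * t ^ 2 * A * (m0 ^ (j + 2) + (1 / 50) ^ m) =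
          A * (m0 ^ j * (1 + 11 / 1000 * t ^ 2 * m0 ^ 2)) +
            A * ((1 / 50) ^ m * (1 / 2500 + 11 / 1000 * t ^ 2)) := by
        rw [pow_add, pow_add]
        ring
      rw [e2, pow_succ m0 j, pow_succ (1 / 50 : ℝ) m]
      linarith
    have h := mul_le_mul_of_nonneg_left key hr0.le
    linarith
  have hαβ : A + 11 / 1000 * t ^ 2 * A < 1 := by
    have h1 : A * (l * (1 + t / 2)) = 1 := hAl
    have h2 : A * (1 + t / 2) < A * (l * (1 + t / 2)) := by
      apply mul_lt_mul_of_pos_left _ hA0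
      nlinarith
    have h3 : A * (1 + 11 / 1000 * t ^ 2) ≤ A * (1 + t / 2) := by
      apply mul_le_mul_of_nonneg_left _ hA0.le
      nlinarith
    linarith
  have hcmp := Pool.Agent.helper23.HT.compare (n := n)
    (G := fun j => |g j| * wt p k (z (j + 1)))
    (U := fun j => r * (m0 ^ j + (1 / 50) ^ (n + 1 - j)))
    (α := A) (β := 11 / 1000 * t ^ 2 * A) (γ := 0) hA0.le (by positivity) hαβ
    (by
      show |g 0| * wt p k (z (0 + 1)) ≤ r * (m0 ^ 0 + (1 / 50) ^ (n + 1 - 0))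
      rw [g0, abs_one, one_mul, pow_zero]
      have h1 : (0 : ℝ) ≤ r * (1 / 50) ^ (n + 1 - 0) := by positivity
      have h2 : wt p k (z (0 + 1)) ≤ r := hw1
      linarith)
    (by
      show |g (n + 1)| * wt p k (z (n + 1 + 1)) ≤
        r * (m0 ^ (n + 1) + (1 / 50) ^ (n + 1 - (n + 1)))
      have h3 : z (n + 1 + 1) = z 1 := ht.orb.per1
      rw [g1, abs_one, one_mul, Nat.sub_self, pow_zero, h3]
      have h1 : (0 : ℝ) ≤ r * m0 ^ (n + 1) := by positivity
      linarith)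
    hG hU
  intro j hj
  have h1 := hcmp j hj
  have h2 : |g j| * wt p k (z (j + 1)) ≤ r * (m0 ^ j + (1 / 50) ^ (n + 1 - j)) := h1
  have h3 := mul_le_mul_of_nonneg_left (hwge (j + 1)) (abs_nonneg (g j))
  have h5 : |g j| * (2 / 5 * r) ≤ r * (m0 ^ j + (1 / 50) ^ (n + 1 - j)) := h3.trans h2
  rw [← hm0]
  have h6 : r * |g j| ≤ r * (5 / 2 * (m0 ^ j + (1 / 50) ^ (n + 1 - j))) := by linarith
  exact le_of_mul_le_mul_left h6 hr0

end Pool.Agent.helper23.HV
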