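import Pool.Agent.helper23.HV.BasicA
import Pool.Agent.helper23.HV.Near

/-!
# The adjoint solution, sum (module HV-AdjSum)

As HU/AdjSum.lean (proved there): for `1 ≤ j ≤ n0`, `|z j| ≥ 19/10` (`near` with `t = 0`), so
`|g j| ≤ (5/19) (|g (j-1)| + 5 b)`; the sum `A` over `1 ≤ j ≤ n0` satisfies `A ≤ (5/19)(1 + A + 5 b n0)`, so
`A ≤ 36/100` (`b n0 ≤ k n0 ≤ k^p ≤ 1/1000` by `n4`); for `n0 < j ≤ n` the sum is at most
`5/2 (l^(-n0)/(l-1) + 1/49) ≤ 5/2 (1/1000 + 1/49) ≤ 6/100` (`n3`).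
-/

namespace Pool.Agent.helper23.HV

open Pool.Agent.helper23.HS Finset

theorem adj_geo1 {l : ℝ} (hl : 1 < l) (n0 m : ℕ) :
    (∑ x ∈ range m, (1 / l) ^ (n0 + 1 + x)) * (l - 1) ≤ (1 / l) ^ n0 := by
  have hl0 : l ≠ 0 := by linarith
  have h : ∀ m : ℕ, (∑ x ∈ range m, (1 / l) ^ (n0 + 1 + x)) * (l - 1)
      = (1 / l) ^ n0 - (1 / l) ^ (n0 + m) := by
    intro m
    induction m with
    | zero => simp
    | succ m ih =>
      rw [sum_range_succ, add_mul, ih]
      have h1 : (1 / l) ^ (n0 + 1 + m) * l = (1 / l) ^ (n0 + m) := by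
        rw [show n0 + 1 + m = (n0 + m) + 1 by omega, pow_succ, mul_assoc,
          one_div_mul_cancel hl0, mul_one]
      have h2 : (1 / l) ^ (n0 + (m + 1)) = (1 / l) ^ (n0 + 1 + m) := by
        rw [show n0 + (m + 1) = n0 + 1 + m by omega]
      rw [h2, mul_sub, mul_one, h1]
      ring
  rw [h m]
  have h1 : (0 : ℝ) ≤ (1 / l) ^ (n0 + m) := by
    have : 0 < l := by linarith
    positivity
  linarith

theorem adj_geo2 (m : ℕ) : ∑ x ∈ range m, ((1 : ℝ) / 50) ^ (m - x) ≤ 1 / 49 := by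
  induction m with
  | zero => simp
  | succ m ih =>
    have h : ∑ x ∈ range m, ((1 : ℝ) / 50) ^ (m + 1 - x)
        = 1 / 50 * ∑ x ∈ range m, ((1 : ℝ) / 50) ^ (m - x) := by
      rw [mul_sum]
      refine sum_congr rfl fun x hx => ?_
      rw [mem_range] at hx
      rw [show m + 1 - x = (m - x) + 1 by omega, pow_succ]
      ring
    rw [sum_range_succ, h, show m + 1 - m = 1 by omega]
    linarith

theorem adj_sum {p l q k a b : ℝ} {n0 n : ℕ} {z g : ℕ → ℝ} (ht : Thin p l q k n0 a b n z)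
    (g0 : g 0 = 1) (g1 : g (n + 1) = 1)
    (hg : ∀ j, j < n → g j + 2 * z (j + 1) * g (j + 1) - b * g (j + 2) = 0)
    (hb : ∀ j, j ≤ n + 1 → |g j| ≤ 5 / 2 * ((1 / l) ^ j + (1 / 50) ^ (n + 1 - j))) :
    ∑ j ∈ range n, |g (j + 1)| ≤ 1 / 2 := by
  have hn := n_large ht
  obtain ⟨m, rfl⟩ : ∃ m, n = n0 + m := ⟨n - n0, by omega⟩
  have hb0 := ht.par.b0
  have hk0 := ht.par.num.k0
  have hl := ht.par.num.l0
  have hl0 : 0 < l := by linarith
  obtain ⟨kp0, -, -, -, -, hsq, -, -⟩ := small_k ht.par.num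
  have hz0 : |z 0| ≤ Real.sqrt k := by
    have := ht.small
    linarith
  have hnear := (near ht hz0).2.1
  have hkp : k ^ p ≤ 1 / 100 := by
    have h1 : Real.sqrt k ≤ 1 := by
      have h3 := ht.par.num.k1
      have h2 : (1 : ℝ) / 10 ^ 24 ≤ 1 := by norm_num
      rw [Real.sqrt_le_left (by norm_num)]
      linarith
    linarith
  have hbn : b * (n0 : ℝ) ≤ 1 / 100000 := by
    have h1 : (n0 : ℝ) * k ≤ k ^ p := by
      have h2 : ((n0 : ℝ) + 1) * k ^ (1 - p) ≤ 1 := ht.par.num.n4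
      have h3 : k = k ^ (1 - p) * k ^ p := by
        rw [← Real.rpow_add hk0]
        norm_num
      have h4 : 0 < k ^ (1 - p) := Real.rpow_pos_of_pos hk0 _
      have h5 : (n0 : ℝ) * k ^ (1 - p) ≤ 1 := by linarith
      calc (n0 : ℝ) * k = (n0 : ℝ) * k ^ (1 - p) * k ^ p := by rw [mul_assoc, ← h3]
        _ ≤ 1 * k ^ p := mul_le_mul_of_nonneg_right h5 kp0.le
        _ = k ^ p := one_mul _
    have h2 : b * (n0 : ℝ) ≤ k / 1000 * n0 :=
      mul_le_mul_of_nonneg_right ht.par.b1 (Nat.cast_nonneg _)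
    have h3 : k / 1000 * (n0 : ℝ) = (n0 : ℝ) * k / 1000 := by ring
    rw [h3] at h2
    linarith
  have h7 : ∀ j, j ≤ n0 + m + 1 → |g j| ≤ 5 := by
    intro j hj
    have h1 := hb j hj
    have h2 : (1 / l) ^ j ≤ 1 := pow_le_one₀ (by positivity) (by
      rw [div_le_one hl0]; exact hl.le)
    have h3 : ((1 : ℝ) / 50) ^ (n0 + m + 1 - j) ≤ 1 := pow_le_one₀ (by norm_num) (by norm_num)
    linarith
  have hstep : ∀ j, j < n0 → |g (j + 1)| ≤ 5 / 19 * (|g j| + 5 * b) := by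
    intro j hj
    have h1 := hg j (by omega)
    have h2 := hnear (j + 1) (by omega) (by omega)
    rw [zero_add] at h2
    have h3 := h7 (j + 2) (by omega)
    have h4 : 2 * (|z (j + 1)| * |g (j + 1)|) ≤ |g j| + b * |g (j + 2)| := by
      have h5 : 2 * (z (j + 1) * g (j + 1)) = b * g (j + 2) - g j := by linarith
      have h6 : 2 * (|z (j + 1)| * |g (j + 1)|) = |b * g (j + 2) - g j| := by
        rw [← h5, abs_mul, abs_mul, abs_of_pos (by norm_num : (0 : ℝ) < 2)]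
      rw [h6]
      refine (abs_sub _ _).trans ?_
      rw [abs_mul, abs_of_pos hb0]
      linarith
    have h8 : 19 / 10 * |g (j + 1)| ≤ |z (j + 1)| * |g (j + 1)| :=
      mul_le_mul_of_nonneg_right h2 (abs_nonneg _)
    have h9 : b * |g (j + 2)| ≤ b * 5 := mul_le_mul_of_nonneg_left h3 hb0.le
    linarith
  have hA : ∑ j ∈ range n0, |g (j + 1)| ≤ 36 / 100 := by
    have h1 : ∑ j ∈ range n0, |g (j + 1)| ≤ ∑ j ∈ range n0, 5 / 19 * (|g j| + 5 * b) :=
      sum_le_sum fun j hj => hstep j (mem_range.1 hj)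
    have h2 : ∑ j ∈ range n0, 5 / 19 * (|g j| + 5 * b)
        = 5 / 19 * (∑ j ∈ range n0, |g j| + 5 * (b * n0)) := by
      rw [← mul_sum, sum_add_distrib, sum_const, card_range, nsmul_eq_mul]
      ring
    have h3 : ∑ j ∈ range n0, |g j| ≤ 1 + ∑ j ∈ range n0, |g (j + 1)| := by
      have h4 := sum_range_succ' (fun j => |g j|) n0
      have h5 := sum_range_succ (fun j => |g j|) n0
      simp only [g0, abs_one] at h4
      have := abs_nonneg (g n0)
      linarith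
    rw [h2] at h1
    linarith
  have hB : ∑ x ∈ range m, |g (n0 + x + 1)| ≤ 6 / 100 := by
    have h1 : ∑ x ∈ range m, |g (n0 + x + 1)|
        ≤ ∑ x ∈ range m, 5 / 2 * ((1 / l) ^ (n0 + 1 + x) + (1 / 50) ^ (m - x)) := by
      refine sum_le_sum fun x hx => ?_
      rw [mem_range] at hx
      have h2 := hb (n0 + x + 1) (by omega)
      rw [show n0 + m + 1 - (n0 + x + 1) = m - x by omega,
        show n0 + x + 1 = n0 + 1 + x by omega] at h2
      rw [show n0 + x + 1 = n0 + 1 + x by omega]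
      exact h2
    rw [← mul_sum, sum_add_distrib] at h1
    have h2 := adj_geo1 hl n0 m
    have h3 := adj_geo2 m
    have h4 : ∑ x ∈ range m, (1 / l) ^ (n0 + 1 + x) ≤ 1 / 1000 := by
      have h5 := ht.par.num.n3
      have h6 : 0 < l ^ n0 := by positivity
      have h7 : 0 < l - 1 := by linarith
      have h8 : (∑ x ∈ range m, (1 / l) ^ (n0 + 1 + x)) * (l ^ n0 * (l - 1)) ≤ 1 := by
        calc (∑ x ∈ range m, (1 / l) ^ (n0 + 1 + x)) * (l ^ n0 * (l - 1))
            = ((∑ x ∈ range m, (1 / l) ^ (n0 + 1 + x)) * (l - 1)) * l ^ n0 := by ring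
          _ ≤ (1 / l) ^ n0 * l ^ n0 := mul_le_mul_of_nonneg_right h2 h6.le
          _ = 1 := by rw [← mul_pow, one_div_mul_cancel hl0.ne', one_pow]
      have h9 : 0 ≤ ∑ x ∈ range m, (1 / l) ^ (n0 + 1 + x) :=
        sum_nonneg fun x _ => by positivity
      have h10 : (∑ x ∈ range m, (1 / l) ^ (n0 + 1 + x)) * 1000
          ≤ (∑ x ∈ range m, (1 / l) ^ (n0 + 1 + x)) * (l ^ n0 * (l - 1)) :=
        mul_le_mul_of_nonneg_left h5 h9
      linarith
    linarith
  rw [sum_range_add]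
  linarith

end Pool.Agent.helper23.HV
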