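import Pool.Agent.helper23.HV.Defs

/-!
# Bounds (module HV-BasicA)
-/

namespace Pool.Agent.helper23.HV

open Pool.Agent.helper23.HS

theorem h7_pow {p k : ℝ} (hp : 5 / 8 ≤ p) (hk0 : 0 < k) (hk1 : k ≤ 1 / 10 ^ 24) :
    k ^ p ≤ 1 / 1000 * Real.sqrt k := by
  have hk2 : k ≤ 1 := hk1.trans (by norm_num)
  have h1 : k ^ p ≤ k ^ (5 / 8 : ℝ) := Real.rpow_le_rpow_of_exponent_ge hk0 hk2 hp
  have h2 : k ^ (5 / 8 : ℝ) = k ^ (1 / 8 : ℝ) * k ^ (1 / 2 : ℝ) := by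
    rw [← Real.rpow_add hk0]
    norm_num
  have h3 : k ^ (1 / 8 : ℝ) ≤ 1 / 1000 := by
    calc k ^ (1 / 8 : ℝ) ≤ ((1 / 1000 : ℝ) ^ (8 : ℕ)) ^ (1 / 8 : ℝ) :=
          Real.rpow_le_rpow hk0.le (hk1.trans (by norm_num)) (by norm_num)
      _ = 1 / 1000 := by
          rw [← Real.rpow_natCast, ← Real.rpow_mul (by norm_num)]
          norm_num
  rw [Real.sqrt_eq_rpow]
  calc k ^ p ≤ k ^ (5 / 8 : ℝ) := h1
    _ = k ^ (1 / 8 : ℝ) * k ^ (1 / 2 : ℝ) := h2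
    _ ≤ 1 / 1000 * k ^ (1 / 2 : ℝ) :=
        mul_le_mul_of_nonneg_right h3 (Real.rpow_nonneg hk0.le _)

theorem h7_two : (2 : ℝ) ^ (3 / 8 : ℝ) < 13 / 10 := by
  by_contra hcon
  rw [not_lt] at hcon
  have h4 : (13 / 10 : ℝ) ^ (8 : ℕ) ≤ ((2 : ℝ) ^ (3 / 8 : ℝ)) ^ (8 : ℕ) :=
    pow_le_pow_left₀ (by norm_num) hcon _
  have h5 : ((2 : ℝ) ^ (3 / 8 : ℝ)) ^ (8 : ℕ) = (2 : ℝ) ^ (3 : ℕ) := by
    rw [← Real.rpow_natCast, ← Real.rpow_mul (by norm_num), ← Real.rpow_natCast]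
    norm_num
  rw [h5] at h4
  norm_num at h4

theorem small_k {p l q k : ℝ} {n0 : ℕ} (h : Num p l q k n0) :
    0 < k ^ p ∧ 0 < k ^ ((1 - p) / 2) ∧ k ^ ((1 - p) / 2) < 3 / 10 ∧
      k ^ (1 - p) = (k ^ ((1 - p) / 2)) ^ 2 ∧ k = k ^ p * (k ^ ((1 - p) / 2)) ^ 2 ∧
      100 * k ^ p ≤ Real.sqrt k ∧ (2 * k ^ p) ^ 2 ≤ k / 1000 ∧ l < 3 / 2 := by
  have hk0 := h.k0
  have hk1 := h.k1
  have hp0 := h.p0
  have hp1 := h.p1
  have hl0 := h.l0
  have hl1 := h.l1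
  have a1 : 0 < k ^ p := Real.rpow_pos_of_pos hk0 _
  have a2 : 0 < k ^ ((1 - p) / 2) := Real.rpow_pos_of_pos hk0 _
  have a3 : (2 : ℝ) ^ (1 - p) ≤ (2 : ℝ) ^ (3 / 8 : ℝ) :=
    Real.rpow_le_rpow_of_exponent_le (by norm_num) (by linarith)
  have a4 := h7_two
  have a5 : k ^ (1 - p) = (k ^ ((1 - p) / 2)) ^ 2 := by
    rw [← Real.rpow_natCast, ← Real.rpow_mul hk0.le]
    congr 1
    push_cast
    ring
  have a6 : k = k ^ p * (k ^ ((1 - p) / 2)) ^ 2 := by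
    rw [← a5, ← Real.rpow_add hk0]
    have : p + (1 - p) = 1 := by ring
    rw [this, Real.rpow_one]
  have a7 := h7_pow hp0 hk0 hk1
  have a8 : 0 ≤ Real.sqrt k := Real.sqrt_nonneg k
  have a9 : Real.sqrt k * Real.sqrt k = k := Real.mul_self_sqrt hk0.le
  refine ⟨a1, a2, ?_, a5, a6, ?_, ?_, ?_⟩
  · nlinarith
  · linarith
  · calc (2 * k ^ p) ^ 2 ≤ (2 * (1 / 1000 * Real.sqrt k)) ^ 2 :=
          pow_le_pow_left₀ (by positivity) (by linarith) 2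
      _ = 4 / 1000000 * (Real.sqrt k * Real.sqrt k) := by ring
      _ = 4 / 1000000 * k := by rw [a9]
      _ ≤ k / 1000 := by linarith
  · nlinarith

theorem h7_per {a b R : ℝ} {n : ℕ} {z : ℕ → ℝ} (ho : Orb a b R n z) :
    ∀ k, z (k + (n + 1)) = z k ∧ z (k + 1 + (n + 1)) = z (k + 1) := by
  intro k
  induction k with
  | zero =>
    refine ⟨by rw [zero_add]; exact ho.per, ?_⟩
    have : 0 + 1 + (n + 1) = n + 2 := by omega
    rw [this, zero_add]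
    exact ho.per1
  | succ k ih =>
    refine ⟨ih.2, ?_⟩
    have h1 := ho.eqn (k + (n + 1))
    have h2 := ho.eqn k
    have e1 : k + (n + 1) + 2 = k + 1 + 1 + (n + 1) := by omega
    have e2 : k + (n + 1) + 1 = k + 1 + (n + 1) := by omega
    rw [e1, e2, ih.1, ih.2] at h1
    have e3 : k + 1 + 1 = k + 2 := rfl
    rw [e3] at h1 ⊢
    linarith

theorem h7_mod {a b R : ℝ} {n : ℕ} {z : ℕ → ℝ} (ho : Orb a b R n z) :
    ∀ k, z (k % (n + 1)) = z k := by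
  intro k
  induction k using Nat.strong_induction_on with
  | _ k ih =>
    rcases Nat.lt_or_ge k (n + 1) with h | h
    · rw [Nat.mod_eq_of_lt h]
    · have h1 := ih (k - (n + 1)) (by omega)
      have h2 := (h7_per ho (k - (n + 1))).1
      have e1 : k - (n + 1) + (n + 1) = k := by omega
      rw [e1] at h2
      rw [h2, ← h1, Nat.mod_eq_sub_mod h]

theorem bound {p l q k a b R : ℝ} {n0 n : ℕ} {z : ℕ → ℝ} (h : Par p l q k n0 a b)
    (ho : Orb a b R n z) : ∀ j, |z j| ≤ 2 + k / 1000 := by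
  obtain ⟨k0, hk0, hmax⟩ := Finset.exists_max_image (Finset.range (n + 1)) (fun j => |z j|)
    ⟨0, Finset.mem_range.2 (Nat.succ_pos n)⟩
  have hall : ∀ j, |z j| ≤ |z k0| := by
    intro j
    rw [← h7_mod ho j]
    exact hmax _ (Finset.mem_range.2 (Nat.mod_lt _ (Nat.succ_pos n)))
  have hZ : |z k0| ≤ 2 + k / 1000 := by
    by_contra hcon
    rw [not_le] at hcon
    have h1 := (h7_per ho k0).1
    have e1 : k0 + (n + 1) = k0 + n + 1 := by omega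
    rw [e1] at h1
    have h2 := ho.eqn (k0 + n)
    rw [h1] at h2
    have h3 := hall (k0 + n + 2)
    have h4 := hall (k0 + n)
    have h5 := h.ha
    have h6 := h.b0
    have h7 := h.b1
    have hk0' := h.num.k0
    have hk1' := h.num.k1
    set e := k / 1000 with he
    have he0 : 0 ≤ e := by rw [he]; positivity
    have h8 : |z k0| ^ 2 = z k0 ^ 2 := sq_abs _
    have h9 := abs_le.1 h3
    have h10 := abs_le.1 h4
    have h11 := abs_le.1 h5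
    have h12 : b * z (k0 + n) ≤ b * |z k0| := mul_le_mul_of_nonneg_left h10.2 h6.le
    set Z := |z k0| with hZdef
    have h13 : Z ^ 2 ≤ a + Z + b * Z := by
      rw [h8]
      linarith [h9.1]
    have h14 : 0 < (Z - (2 + e)) * (Z + 2 + e - (1 + b)) := by
      apply mul_pos
      · linarith
      · have : e ≤ 1 / 1000 := by
          rw [he]
          have : (1 : ℝ) / 10 ^ 24 ≤ 1 := by norm_num
          linarith
        linarith
    have h15 : 0 ≤ (e - b) * e := mul_nonneg (by linarith) he0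
    nlinarith
  intro j
  exact (hall j).trans hZ

theorem h7_base {p l q k x : ℝ} {n0 : ℕ} (h : Num p l q k n0) (hx : |x| ≤ 2 + k / 1000) :
    49 / 100 * k ≤ (2 + k / 8) ^ 2 - x ^ 2 := by
  have h0 := h.k0
  have h1 := abs_le.1 hx
  have h2 : x ^ 2 ≤ (2 + k / 1000) ^ 2 := sq_le_sq' h1.1 h1.2
  have h3 : 0 ≤ k ^ 2 := sq_nonneg k
  nlinarith

theorem wt_ge {p l q k x : ℝ} {n0 : ℕ} (h : Num p l q k n0) (hx : |x| ≤ 2 + k / 1000) :
    2 / 5 * k ^ p ≤ wt p k x := by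
  have h0 := h.k0
  have hp0 := h.p0
  have hp1 := h.p1
  have hb := h7_base h hx
  unfold wt
  have h1 : (49 / 100 * k) ^ p ≤ ((2 + k / 8) ^ 2 - x ^ 2) ^ p :=
    Real.rpow_le_rpow (by positivity) hb (by linarith)
  refine le_trans ?_ h1
  rw [Real.mul_rpow (by norm_num) h0.le]
  have h2 : (49 / 100 : ℝ) ^ (1 : ℝ) ≤ (49 / 100 : ℝ) ^ p :=
    Real.rpow_le_rpow_of_exponent_ge (by norm_num) (by norm_num) hp1.le
  rw [Real.rpow_one] at h2
  have h4 : 0 ≤ k ^ p := Real.rpow_nonneg h0.le _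
  exact mul_le_mul_of_nonneg_right (by linarith) h4

theorem wt_le {p l q k x : ℝ} {n0 : ℕ} (h : Num p l q k n0) (hx : |x| ≤ 2 + k / 1000) :
    wt p k x ≤ 401 / 100 := by
  have h0 := h.k0
  have hk1 := h.k1
  have hp0 := h.p0
  have hp1 := h.p1
  have hb := h7_base h hx
  have hk2 : k ≤ 1 / 1000 := by
    have : (1 : ℝ) / 10 ^ 24 ≤ 1 / 1000 := by norm_num
    linarith
  unfold wt
  have h1 : ((2 + k / 8) ^ 2 - x ^ 2) ^ p ≤ (401 / 100 : ℝ) ^ p := by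
    apply Real.rpow_le_rpow (by linarith) _ (by linarith)
    have h2 : 0 ≤ x ^ 2 := sq_nonneg x
    nlinarith
  have h2 : (401 / 100 : ℝ) ^ p ≤ (401 / 100 : ℝ) ^ (1 : ℝ) :=
    Real.rpow_le_rpow_of_exponent_le (by norm_num) hp1.le
  rw [Real.rpow_one] at h2
  exact h1.trans h2

theorem wt_mid {p l q k x : ℝ} {n0 : ℕ} (h : Num p l q k n0) (hx : |x| ≤ 19 / 10) :
    39 / 100 ≤ wt p k x := by
  have h0 := h.k0
  have hp0 := h.p0
  have hp1 := h.p1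
  have hx' := abs_le.1 hx
  have h1 : x ^ 2 ≤ (19 / 10) ^ 2 := sq_le_sq' hx'.1 hx'.2
  have h2 : (39 / 100 : ℝ) ≤ (2 + k / 8) ^ 2 - x ^ 2 := by nlinarith
  have h3 : (39 / 100 : ℝ) ^ (1 : ℝ) ≤ (39 / 100 : ℝ) ^ p :=
    Real.rpow_le_rpow_of_exponent_ge (by norm_num) (by norm_num) hp1.le
  rw [Real.rpow_one] at h3
  unfold wt
  exact h3.trans (Real.rpow_le_rpow (by norm_num) h2 (by linarith))

theorem h7_zero {p l q k x : ℝ} {n0 : ℕ} (h : Num p l q k n0) (hx : |x| ≤ 2 * k ^ p) :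
    x ^ 2 ≤ k / 1000 := by
  obtain ⟨a1, -, -, -, -, -, a7, -⟩ := small_k h
  have hx' := abs_le.1 hx
  exact (sq_le_sq' hx'.1 hx'.2).trans a7

theorem wt_zero {p l q k x : ℝ} {n0 : ℕ} (h : Num p l q k n0) (hx : |x| ≤ 2 * k ^ p) :
    2 ≤ wt p k x := by
  have h0 := h.k0
  have hp0 := h.p0
  have h1 := h7_zero h hx
  have h2 : (4 : ℝ) ≤ (2 + k / 8) ^ 2 - x ^ 2 := by nlinarith
  have h3 : (4 : ℝ) ^ (1 / 2 : ℝ) ≤ (4 : ℝ) ^ p :=
    Real.rpow_le_rpow_of_exponent_le (by norm_num) (by linarith)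
  have h4 : (4 : ℝ) ^ (1 / 2 : ℝ) = 2 := by
    rw [show (4 : ℝ) = 2 ^ (2 : ℕ) by norm_num, ← Real.rpow_natCast, ← Real.rpow_mul (by norm_num)]
    norm_num
  rw [h4] at h3
  unfold wt
  exact h3.trans (Real.rpow_le_rpow (by norm_num) h2 (by linarith))

theorem wt_max {p l q k x y : ℝ} {n0 : ℕ} (h : Num p l q k n0) (hx : |x| ≤ 2 * k ^ p)
    (hy : |y| ≤ 2 + k / 1000) : wt p k y ≤ 11 / 10 * wt p k x := by
  have h0 := h.k0
  have hk1 := h.k1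
  have hp0 := h.p0
  have hp1 := h.p1
  have h1 := h7_zero h hx
  have hb := h7_base h hy
  have hk2 : k ≤ 1 / 1000 := by
    have : (1 : ℝ) / 10 ^ 24 ≤ 1 / 1000 := by norm_num
    linarith
  have h2 : 0 ≤ (2 + k / 8) ^ 2 - x ^ 2 := by nlinarith
  have h3 : (2 + k / 8) ^ 2 - y ^ 2 ≤ 11 / 10 * ((2 + k / 8) ^ 2 - x ^ 2) := by
    have : 0 ≤ y ^ 2 := sq_nonneg y
    nlinarith
  have h4 : (11 / 10 : ℝ) ^ p ≤ (11 / 10 : ℝ) ^ (1 : ℝ) :=
    Real.rpow_le_rpow_of_exponent_le (by norm_num) hp1.le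
  rw [Real.rpow_one] at h4
  unfold wt
  have h5 : 0 ≤ 49 / 100 * k := by positivity
  calc ((2 + k / 8) ^ 2 - y ^ 2) ^ p ≤ (11 / 10 * ((2 + k / 8) ^ 2 - x ^ 2)) ^ p :=
        Real.rpow_le_rpow (by linarith) h3 (by linarith)
    _ = (11 / 10) ^ p * ((2 + k / 8) ^ 2 - x ^ 2) ^ p := Real.mul_rpow (by norm_num) h2
    _ ≤ 11 / 10 * ((2 + k / 8) ^ 2 - x ^ 2) ^ p :=
        mul_le_mul_of_nonneg_right h4 (Real.rpow_nonneg h2 _)

end Pool.Agent.helper23.HV
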