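import Pool.Agent.helper23.HV.BasicA

/-!
# The step inequality (module HV-BasicB)

As HU/BasicB.lean (proved there). `t = k^((1-p)/2)`. It suffices that
`l (1 + t/2) (x^2 + 13/100 k)^p ≤ 2 |x|`. By `l1`, `l (1 + t) ≤ 2^(1-p)`, so `l (1 + t/2) (1 + k)^2 ≤ 2^(1-p)`
(`k ≤ t/1000`: `k = k^p t^2`).
`|x| ≥ 1`: `x^2 + 13/100 k ≤ x^2 (1 + k)`, `(x^2 (1+k))^p = |x|^(2p) (1 + k)^p`,
`|x|^(2p-1) ≤ (2 (1 + k))^(2p-1)`, and `2^(1-p) 2^(2p-1) = 2^p ≤ 2`.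
`√k ≤ |x| < 1`: `(x^2 + 13/100 k)^p ≤ (113/100 x^2)^p ≤ 113/100 |x|`. `2 k^p ≤ |x| < √k`:
`(113/100 k)^p ≤ 113/100 k^p ≤ 113/200 |x|`. And `2^(1-p) ≤ 2^(3/8) < 17/10`.
-/

namespace Pool.Agent.helper23.HV

open Pool.Agent.helper23.HS

theorem helper52_sqp {u p : ℝ} (hu : 0 ≤ u) : (u ^ 2) ^ p = u ^ (2 * p) := by
  rw [← Real.rpow_natCast, ← Real.rpow_mul hu]
  norm_num

theorem helper52_t {p l q k : ℝ} {n0 : ℕ} (h : Num p l q k n0) :
    0 < k ^ p ∧ 0 < k ^ ((1 - p) / 2) ∧ k ^ ((1 - p) / 2) < 3 / 10 ∧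
      k ≤ k ^ ((1 - p) / 2) / 1000 := by
  obtain ⟨h1, h2, h3, _, h5, h6, _, _⟩ := small_k h
  have k0 := h.k0
  have k1 := h.k1
  have hs : Real.sqrt k ≤ 1 := by
    rw [← Real.sqrt_one]
    exact Real.sqrt_le_sqrt (k1.trans (by norm_num))
  have hs2 : Real.sqrt k ≤ 1 / 10 := by
    have : Real.sqrt k ≤ Real.sqrt ((1 / 10) ^ 2) :=
      Real.sqrt_le_sqrt (k1.trans (by norm_num))
    rwa [Real.sqrt_sq (by norm_num)] at this
  refine ⟨h1, h2, h3, ?_⟩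
  generalize k ^ ((1 - p) / 2) = t at h2 h3 h5 ⊢
  generalize k ^ p = r at h1 h5 h6
  have hr : r ≤ 1 / 1000 := by linarith
  have h7 : r * t ^ 2 = t * (r * t) := by ring
  have h8 : r * t ≤ 1 / 1000 := by nlinarith
  rw [h5, h7]
  nlinarith

/-- the reduction of the step inequality to an inequality in `|x|` -/
theorem helper52_red {p l q k a b x y : ℝ} {n0 : ℕ} (h : Par p l q k n0 a b)
    (hx : |x| ≤ 2 + k / 1000) (hy : |y| ≤ 2 + k / 1000) :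
    wt p k (a - x ^ 2 + b * y) ≤ (x ^ 2 + 13 / 100 * k) ^ p * wt p k x := by
  have k0 := h.num.k0
  have k1 := h.num.k1
  have k2 : k ≤ 1 / 1000 := k1.trans (by norm_num)
  have hA : |a + b * y - 2| ≤ 4 / 1000 * k := by
    have h1 := abs_le.1 h.ha
    have h2 := abs_le.1 hy
    have h3 := h.b0
    have h4 := h.b1
    have h6 : b * y ≤ b * 3 := mul_le_mul_of_nonneg_left (by linarith) h3.le
    have h7 : b * (-3) ≤ b * y := mul_le_mul_of_nonneg_left (by linarith) h3.le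
    rw [abs_le]
    constructor <;> linarith
  have hA' := abs_le.1 hA
  have hx' := abs_le.1 hx
  have e1 : a - x ^ 2 + b * y = a + b * y - x ^ 2 := by ring
  rw [e1]
  generalize a + b * y = A at hA'
  have hx2 : x ^ 2 ≤ (2 + k / 1000) ^ 2 := sq_le_sq' hx'.1 hx'.2
  have hx3 : (2 + k / 1000) ^ 2 ≤ 4 + 5 / 1000 * k := by nlinarith
  have hx0 : 0 ≤ x ^ 2 := sq_nonneg x
  have hBx : 0 ≤ (2 + k / 8) ^ 2 - x ^ 2 := by nlinarith
  have hX : (A - x ^ 2) ^ 2 ≤ (2 + k / 8) ^ 2 := by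
    apply sq_le_sq' <;> linarith
  have h1 : (2 + k / 8) ^ 2 - (A - x ^ 2) ^ 2 ≤
      (x ^ 2 + 13 / 100 * k) * ((2 + k / 8) ^ 2 - x ^ 2) := by
    have h2 : 0 ≤ 2 + k / 8 - A + x ^ 2 := by linarith
    have h3 : 2 + k / 8 + A - x ^ 2 ≤ (2 + k / 8) ^ 2 - x ^ 2 := by
      have : 0 ≤ (k / 8) ^ 2 := sq_nonneg _
      nlinarith
    have h4 : 2 + k / 8 - A + x ^ 2 ≤ x ^ 2 + 13 / 100 * k := by linarith
    calc (2 + k / 8) ^ 2 - (A - x ^ 2) ^ 2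
        = (2 + k / 8 - A + x ^ 2) * (2 + k / 8 + A - x ^ 2) := by ring
      _ ≤ (2 + k / 8 - A + x ^ 2) * ((2 + k / 8) ^ 2 - x ^ 2) :=
          mul_le_mul_of_nonneg_left h3 h2
      _ ≤ (x ^ 2 + 13 / 100 * k) * ((2 + k / 8) ^ 2 - x ^ 2) :=
          mul_le_mul_of_nonneg_right h4 hBx
  have hp0 : 0 ≤ p := by linarith [h.num.p0]
  unfold wt
  rw [← Real.mul_rpow (by positivity) hBx]
  exact Real.rpow_le_rpow (by linarith) h1 hp0

/-- the case `1 ≤ |x|` -/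
theorem helper52_large {p l k t u : ℝ} (p0 : 5 / 8 ≤ p) (p1 : p < 1) (l0 : 0 < l)
    (l2 : l * (1 + t) ≤ (2 : ℝ) ^ (1 - p)) (q0 : 0 < t) (q1 : t < 3 / 10) (q2 : k ≤ t / 1000)
    (k0 : 0 < k) (hu : 1 ≤ u) (hu2 : u ≤ 2 + k / 1000) :
    l * (1 + t / 2) * (u ^ 2 + 13 / 100 * k) ^ p ≤ 2 * u := by
  have hu0 : 0 < u := by linarith
  have h1 : (u ^ 2 + 13 / 100 * k) ^ p ≤ (u ^ 2 * (1 + k)) ^ p := by
    refine Real.rpow_le_rpow (by positivity) ?_ (by linarith)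
    nlinarith [mul_pos k0 hu0]
  have h2 : (u ^ 2 * (1 + k)) ^ p = u * u ^ (2 * p - 1) * (1 + k) ^ p := by
    rw [Real.mul_rpow (by positivity) (by linarith), helper52_sqp hu0.le]
    congr 1
    rw [← Real.rpow_one_add' hu0.le (by linarith)]
    congr 1
    ring
  have h3 : u ^ (2 * p - 1) ≤ 2 ^ (2 * p - 1) * (1 + k) ^ (2 * p - 1) := by
    rw [← Real.mul_rpow (by norm_num) (by linarith)]
    exact Real.rpow_le_rpow hu0.le (by linarith) (by linarith)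
  have h4 : (1 + k) ^ (2 * p - 1) * (1 + k) ^ p ≤ (1 + k) ^ 2 := by
    rw [← Real.rpow_add (by linarith), ← Real.rpow_natCast]
    exact Real.rpow_le_rpow_of_exponent_le (by linarith) (by push_cast; linarith)
  have h5 : (2 : ℝ) ^ (1 - p) * 2 ^ (2 * p - 1) ≤ 2 := by
    rw [← Real.rpow_add (by norm_num)]
    have h7 : 1 - p + (2 * p - 1) = p := by ring
    rw [h7]
    calc (2 : ℝ) ^ p ≤ 2 ^ (1 : ℝ) :=
          Real.rpow_le_rpow_of_exponent_le (by norm_num) p1.le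
      _ = 2 := Real.rpow_one 2
  have h8 : (1 + t / 2) * (1 + k) ^ 2 ≤ 1 + t := by
    have h9 : (1 + k) ^ 2 ≤ 1 + 3 * k := by nlinarith
    nlinarith
  have h2p : (0 : ℝ) < 2 ^ (2 * p - 1) := Real.rpow_pos_of_pos (by norm_num) _
  have hkp : 0 < (1 + k) ^ p := Real.rpow_pos_of_pos (by linarith) _
  have hup : 0 < u ^ (2 * p - 1) := Real.rpow_pos_of_pos hu0 _
  calc l * (1 + t / 2) * (u ^ 2 + 13 / 100 * k) ^ p
      ≤ l * (1 + t / 2) * (u * u ^ (2 * p - 1) * (1 + k) ^ p) := by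
        rw [← h2]
        exact mul_le_mul_of_nonneg_left h1 (by positivity)
    _ ≤ l * (1 + t / 2) * (u * (2 ^ (2 * p - 1) * (1 + k) ^ (2 * p - 1)) * (1 + k) ^ p) := by
        gcongr
    _ = l * (1 + t / 2) * 2 ^ (2 * p - 1) * u * ((1 + k) ^ (2 * p - 1) * (1 + k) ^ p) := by ring
    _ ≤ l * (1 + t / 2) * 2 ^ (2 * p - 1) * u * (1 + k) ^ 2 := by
        exact mul_le_mul_of_nonneg_left h4 (by positivity)
    _ = l * 2 ^ (2 * p - 1) * u * ((1 + t / 2) * (1 + k) ^ 2) := by ring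
    _ ≤ l * 2 ^ (2 * p - 1) * u * (1 + t) := mul_le_mul_of_nonneg_left h8 (by positivity)
    _ = (l * (1 + t)) * (2 ^ (2 * p - 1) * u) := by ring
    _ ≤ (2 : ℝ) ^ (1 - p) * (2 ^ (2 * p - 1) * u) :=
        mul_le_mul_of_nonneg_right l2 (by positivity)
    _ = ((2 : ℝ) ^ (1 - p) * 2 ^ (2 * p - 1)) * u := by ring
    _ ≤ 2 * u := mul_le_mul_of_nonneg_right h5 hu0.le

/-- the case `|x| ≤ 1` -/
theorem helper52_small {p l k t u : ℝ} (p0 : 5 / 8 ≤ p) (p1 : p < 1) (l0 : 0 < l)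
    (l2 : l * (1 + t) ≤ (2 : ℝ) ^ (1 - p)) (q0 : 0 < t) (k0 : 0 < k)
    (hu : 2 * k ^ p ≤ u) (hu2 : u ≤ 1) :
    l * (1 + t / 2) * (u ^ 2 + 13 / 100 * k) ^ p ≤ 2 * u := by
  have hkp : 0 < k ^ p := Real.rpow_pos_of_pos k0 _
  have hu0 : 0 < u := by linarith
  have h1 : (2 : ℝ) ^ (1 - p) ≤ 17 / 10 := by
    have h6 : (2 : ℝ) ^ (1 - p) ≤ 2 ^ (1 / 2 : ℝ) :=
      Real.rpow_le_rpow_of_exponent_le (by norm_num) (by linarith)
    have h7 : (2 : ℝ) ^ (1 / 2 : ℝ) ≤ 17 / 10 := by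
      rw [← Real.sqrt_eq_rpow]
      rw [Real.sqrt_le_left (by norm_num)]
      norm_num
    linarith
  have h2 : (113 / 100 : ℝ) ^ p ≤ 113 / 100 := by
    calc (113 / 100 : ℝ) ^ p ≤ (113 / 100) ^ (1 : ℝ) :=
          Real.rpow_le_rpow_of_exponent_le (by norm_num) p1.le
      _ = 113 / 100 := Real.rpow_one _
  have h113 : (0 : ℝ) < (113 / 100 : ℝ) ^ p := Real.rpow_pos_of_pos (by norm_num) _
  have h3 : (u ^ 2 + 13 / 100 * k) ^ p ≤ (113 / 100 : ℝ) ^ p * u := by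
    rcases le_total k (u ^ 2) with hk | hk
    · have h4 : (u ^ 2 + 13 / 100 * k) ^ p ≤ (113 / 100 * u ^ 2) ^ p :=
        Real.rpow_le_rpow (by positivity) (by linarith) (by linarith)
      rw [Real.mul_rpow (by norm_num) (by positivity), helper52_sqp hu0.le] at h4
      have h5 : u ^ (2 * p) ≤ u ^ (1 : ℝ) :=
        Real.rpow_le_rpow_of_exponent_ge hu0 hu2 (by linarith)
      rw [Real.rpow_one] at h5
      exact h4.trans (mul_le_mul_of_nonneg_left h5 h113.le)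
    · have h4 : (u ^ 2 + 13 / 100 * k) ^ p ≤ (113 / 100 * k) ^ p :=
        Real.rpow_le_rpow (by positivity) (by linarith) (by linarith)
      rw [Real.mul_rpow (by norm_num) k0.le] at h4
      exact h4.trans (mul_le_mul_of_nonneg_left (by linarith) h113.le)
  have h4 : l * (1 + t / 2) ≤ 17 / 10 := by
    have h5 : l * (1 + t / 2) ≤ l * (1 + t) := mul_le_mul_of_nonneg_left (by linarith) l0.le
    linarith
  calc l * (1 + t / 2) * (u ^ 2 + 13 / 100 * k) ^ p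
      ≤ l * (1 + t / 2) * ((113 / 100 : ℝ) ^ p * u) :=
        mul_le_mul_of_nonneg_left h3 (by positivity)
    _ ≤ 17 / 10 * ((113 / 100 : ℝ) ^ p * u) := mul_le_mul_of_nonneg_right h4 (by positivity)
    _ ≤ 17 / 10 * (113 / 100 * u) := by
        have h5 := mul_le_mul_of_nonneg_right h2 hu0.le
        linarith
    _ ≤ 2 * u := by linarith

theorem wt_step {p l q k a b x y : ℝ} {n0 : ℕ} (h : Par p l q k n0 a b)
    (hx : |x| ≤ 2 + k / 1000) (hy : |y| ≤ 2 + k / 1000) (hr : 2 * k ^ p ≤ |x|) :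
    l * (1 + k ^ ((1 - p) / 2) / 2) * wt p k (a - x ^ 2 + b * y) ≤ 2 * |x| * wt p k x := by
  have h1 := helper52_red h hx hy
  obtain ⟨_, t0, t1, t2⟩ := helper52_t h.num
  have hl1 := h.num.l1
  have hl : 0 < l := by linarith [h.num.l0]
  have h2 : l * (1 + k ^ ((1 - p) / 2) / 2) * (|x| ^ 2 + 13 / 100 * k) ^ p ≤ 2 * |x| := by
    rcases le_total 1 |x| with hc | hc
    · exact helper52_large h.num.p0 h.num.p1 hl hl1 t0 t1 t2 h.num.k0 hc hx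
    · exact helper52_small h.num.p0 h.num.p1 hl hl1 t0 h.num.k0 hr hc
  rw [sq_abs] at h2
  have hw : 0 ≤ wt p k x := by
    unfold wt
    apply Real.rpow_nonneg
    have hx' := abs_le.1 hx
    have hx2 : x ^ 2 ≤ (2 + k / 1000) ^ 2 := sq_le_sq' hx'.1 hx'.2
    have k0 := h.num.k0
    nlinarith
  calc l * (1 + k ^ ((1 - p) / 2) / 2) * wt p k (a - x ^ 2 + b * y)
      ≤ l * (1 + k ^ ((1 - p) / 2) / 2) * ((x ^ 2 + 13 / 100 * k) ^ p * wt p k x) :=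
        mul_le_mul_of_nonneg_left h1 (by positivity)
    _ = l * (1 + k ^ ((1 - p) / 2) / 2) * (x ^ 2 + 13 / 100 * k) ^ p * wt p k x := by ring
    _ ≤ 2 * |x| * wt p k x := mul_le_mul_of_nonneg_right h2 hw

end Pool.Agent.helper23.HV
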