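import Pool.Agent.helper23.HV.BasicA

/-!
# The step inequality for pairs (module HV-BasicC)

As HU/BasicC.lean (proved there). `m = (x + x')/2`, `δ = (x - x')/2`, `P = m^2 + δ^2`, `|δ| ≤ |m|`,
`|δ| + |m| ≤ 2 + k/1000`. It suffices that `l (1 + t/2) (P + 13/100 k)^p ≤ 2 |m|`, `t = k^((1-p)/2)`,
`l (1 + t/2) (1 + k)^2 ≤ 2^(1-p)`.
`|m| ≥ 1`: `P + 13/100 k ≤ m^2 + (2 + k/1000 - |m|)^2 + 13/100 k ≤ 2 |m| (1 + k)` (because
`m^2 + (2 - m)^2 ≤ 2 m` for `1 ≤ m ≤ 2`), so `(...)^p ≤ (2|m|)^p (1 + k)`, and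
`2^(1-p) (2|m|)^p ≤ 2 |m|` (`2 ≤ 2|m|`).
`|m| < 1`: `P ≤ 2 m^2`. If `m^2 ≥ √k`: `P + 13/100 k ≤ 2 m^2 (1 + √k)`, so `(...)^p ≤ 2^p |m|^(2p) (1 + √k) ≤
2^p |m| (1 + √k)`, and `l (1 + t/2)(1 + √k) ≤ 2^(1-p)` since `√k ≤ t/100` (`(1-p)/2 ≤ 3/16 < 1/2` and `k^(1/4) ≤ 10^(-6)`).
If `k ≤ m^2 < √k`: `(P + 13/100 k)^p ≤ (213/100 m^2)^p ≤ 213/100 |m| |m|^(2p-1) ≤ 1/10 |m|`
(`|m|^(2p-1) ≤ (k^(1/4))^(1/4) ≤ 1/30`). If `m^2 < k`: `(213/100 k)^p ≤ 213/100 k^p ≤ 213/200 |m|` and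
`2^(1-p) ≤ 13/10`.
-/

namespace Pool.Agent.helper23.HV

open Pool.Agent.helper23.HS

/-- `l (1 + t/2) Q^p ≤ 2 M`. -/
theorem h96_Q {p l q k u v : ℝ} {n0 : ℕ} (h : Num p l q k n0) (hu : 2 * k ^ p ≤ u)
    (hv : 2 * k ^ p ≤ v) (hu2 : u ≤ 2 + k / 1000) (hv2 : v ≤ 2 + k / 1000) :
    l * (1 + k ^ ((1 - p) / 2) / 2) * ((u ^ 2 + v ^ 2) / 2 + 13 / 100 * k) ^ p
      ≤ 2 * ((u + v) / 2) := by
  obtain ⟨hkp, ht0, ht1, -, hkt, hksq, -, hl⟩ := small_k h
  have hk0 := h.k0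
  have hk1 := h.k1
  have hp0 := h.p0
  have hp1 := h.p1
  have hl0 := h.l0
  have hl1 := h.l1
  have hl01 : 0 < l := by linarith
  set t : ℝ := k ^ ((1 - p) / 2) with htdef
  have hu0 : 0 < u := by linarith
  have hv0 : 0 < v := by linarith
  set M : ℝ := (u + v) / 2 with hM
  have hM0 : 0 < M := by rw [hM]; positivity
  have hMk : 2 * k ^ p ≤ M := by rw [hM]; linarith
  have hp : 0 ≤ p := by linarith
  have hQ0 : 0 ≤ (u ^ 2 + v ^ 2) / 2 + 13 / 100 * k := by positivity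
  have hPM : (u ^ 2 + v ^ 2) / 2 ≤ 2 * M ^ 2 := by
    rw [hM]
    nlinarith [mul_pos hu0 hv0]
  have hsq0 : 0 ≤ Real.sqrt k := Real.sqrt_nonneg k
  have hsqk : Real.sqrt k ≤ 1 / 10 ^ 12 := by
    rw [Real.sqrt_le_iff]
    refine ⟨by norm_num, hk1.trans (by norm_num)⟩
  have hkps : k ^ p ≤ 1 / 10 ^ 14 := by
    have e : (1 : ℝ) / 10 ^ 12 = 100 * (1 / 10 ^ 14) := by norm_num
    rw [e] at hsqk
    linarith
  have hsqt : Real.sqrt k ≤ t / 100 := by
    rw [Real.sqrt_le_iff]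
    refine ⟨by positivity, ?_⟩
    calc k = k ^ p * t ^ 2 := hkt
      _ ≤ 1 / 10 ^ 14 * t ^ 2 := mul_le_mul_of_nonneg_right hkps (by positivity)
      _ ≤ (t / 100) ^ 2 := by nlinarith [sq_nonneg t]
  have hsqsq : Real.sqrt k * Real.sqrt k = k := Real.mul_self_sqrt hk0.le
  have hk_le : k ≤ Real.sqrt k := by
    calc k = Real.sqrt k * Real.sqrt k := hsqsq.symm
      _ ≤ 1 * Real.sqrt k := mul_le_mul_of_nonneg_right (hsqk.trans (by norm_num)) hsq0
      _ = Real.sqrt k := one_mul _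
  have hlt0 : 0 < l * (1 + t / 2) := by positivity
  -- the two multiplicative errors
  have herr : ∀ e : ℝ, 0 ≤ e → e ≤ Real.sqrt k → l * (1 + t / 2) * (1 + e) ≤ (2 : ℝ) ^ (1 - p) := by
    intro e he0 he
    refine le_trans ?_ hl1
    rw [mul_assoc]
    apply mul_le_mul_of_nonneg_left _ hl01.le
    nlinarith
  have h2p : (2 : ℝ) ^ (1 - p) * (2 : ℝ) ^ p = 2 := by
    rw [← Real.rpow_add (by norm_num)]
    simp
  rcases le_total 1 M with h1 | h1
  · -- `M ≥ 1`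
    have hM2 : M ≤ 2 + k / 1000 := by rw [hM]; linarith
    have huv : (2 + k / 1000 - u) * (2 + k / 1000 - v) ≥ 0 :=
      mul_nonneg (by linarith) (by linarith)
    have hMM : (M - 1) * (2 + k / 1000 - M) ≥ 0 := mul_nonneg (by linarith) (by linarith)
    have h3 : (u ^ 2 + v ^ 2) / 2 + 13 / 100 * k ≤ 2 * M * (1 + k) := by
      have e1 : (u ^ 2 + v ^ 2) / 2 = 2 * M ^ 2 - u * v := by rw [hM]; ring
      have e2 : u + v = 2 * M := by rw [hM]; ring
      have e3 : u * v ≥ (2 + k / 1000) * (2 * M) - (2 + k / 1000) ^ 2 := by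
        rw [← e2]
        nlinarith
      have e4 : M ^ 2 ≤ (3 + k / 1000) * M - (2 + k / 1000) := by nlinarith
      have hk2 : k ≤ 1 := hk1.trans (by norm_num)
      have e5 : (2 + k / 1000) ^ 2 - 2 * (2 + k / 1000) ≤ 3 * k / 1000 := by nlinarith
      have e6 : k ≤ M * k := le_mul_of_one_le_left hk0.le h1
      rw [e1]
      nlinarith
    have h4 : ((u ^ 2 + v ^ 2) / 2 + 13 / 100 * k) ^ p ≤ (2 * M) ^ p * (1 + k) := by
      calc ((u ^ 2 + v ^ 2) / 2 + 13 / 100 * k) ^ p ≤ (2 * M * (1 + k)) ^ p :=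
            Real.rpow_le_rpow hQ0 h3 hp
        _ = (2 * M) ^ p * (1 + k) ^ p := Real.mul_rpow (by positivity) (by positivity)
        _ ≤ (2 * M) ^ p * (1 + k) := by
            apply mul_le_mul_of_nonneg_left _ (Real.rpow_nonneg (by positivity) p)
            conv_rhs => rw [← Real.rpow_one (1 + k)]
            exact Real.rpow_le_rpow_of_exponent_le (by linarith) hp1.le
    have h5 : (2 : ℝ) ^ (1 - p) * (2 * M) ^ p ≤ 2 * M := by
      rw [Real.mul_rpow (by norm_num) hM0.le, ← mul_assoc, h2p]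
      apply mul_le_mul_of_nonneg_left _ (by norm_num)
      conv_rhs => rw [← Real.rpow_one M]
      exact Real.rpow_le_rpow_of_exponent_le h1 hp1.le
    calc l * (1 + t / 2) * ((u ^ 2 + v ^ 2) / 2 + 13 / 100 * k) ^ p
        ≤ l * (1 + t / 2) * ((2 * M) ^ p * (1 + k)) := mul_le_mul_of_nonneg_left h4 hlt0.le
      _ = l * (1 + t / 2) * (1 + k) * (2 * M) ^ p := by ring
      _ ≤ (2 : ℝ) ^ (1 - p) * (2 * M) ^ p :=
          mul_le_mul_of_nonneg_right (herr k hk0.le hk_le) (Real.rpow_nonneg (by positivity) p)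
      _ ≤ 2 * M := h5
  · rcases le_total (Real.sqrt k) (M ^ 2) with h2 | h2
    · -- `√k ≤ M^2`
      have h3 : (u ^ 2 + v ^ 2) / 2 + 13 / 100 * k ≤ 2 * M ^ 2 * (1 + Real.sqrt k) := by
        have e1 : k ≤ M ^ 2 * Real.sqrt k := by
          calc k = Real.sqrt k * Real.sqrt k := hsqsq.symm
            _ ≤ M ^ 2 * Real.sqrt k := mul_le_mul_of_nonneg_right h2 hsq0
        nlinarith
      have h4 : ((u ^ 2 + v ^ 2) / 2 + 13 / 100 * k) ^ p ≤ (2 : ℝ) ^ p * M * (1 + Real.sqrt k) := by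
        calc ((u ^ 2 + v ^ 2) / 2 + 13 / 100 * k) ^ p ≤ (2 * M ^ 2 * (1 + Real.sqrt k)) ^ p :=
              Real.rpow_le_rpow hQ0 h3 hp
          _ = (2 : ℝ) ^ p * (M ^ 2) ^ p * (1 + Real.sqrt k) ^ p := by
              rw [Real.mul_rpow (by positivity) (by positivity),
                Real.mul_rpow (by norm_num) (by positivity)]
          _ ≤ (2 : ℝ) ^ p * M * (1 + Real.sqrt k) := by
              have e1 : (M ^ 2) ^ p ≤ M := by
                rw [← Real.rpow_natCast M 2, ← Real.rpow_mul hM0.le]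
                conv_rhs => rw [← Real.rpow_one M]
                refine Real.rpow_le_rpow_of_exponent_ge hM0 h1 ?_
                push_cast
                linarith
              have e2 : (1 + Real.sqrt k) ^ p ≤ 1 + Real.sqrt k := by
                conv_rhs => rw [← Real.rpow_one (1 + Real.sqrt k)]
                exact Real.rpow_le_rpow_of_exponent_le (by linarith) hp1.le
              have e3 : 0 ≤ (2 : ℝ) ^ p := Real.rpow_nonneg (by norm_num) p
              exact mul_le_mul (mul_le_mul_of_nonneg_left e1 e3) e2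
                (Real.rpow_nonneg (by positivity) p) (mul_nonneg e3 hM0.le)
      calc l * (1 + t / 2) * ((u ^ 2 + v ^ 2) / 2 + 13 / 100 * k) ^ p
          ≤ l * (1 + t / 2) * ((2 : ℝ) ^ p * M * (1 + Real.sqrt k)) :=
            mul_le_mul_of_nonneg_left h4 hlt0.le
        _ = l * (1 + t / 2) * (1 + Real.sqrt k) * ((2 : ℝ) ^ p * M) := by ring
        _ ≤ (2 : ℝ) ^ (1 - p) * ((2 : ℝ) ^ p * M) :=
            mul_le_mul_of_nonneg_right (herr _ hsq0 le_rfl)
              (mul_nonneg (Real.rpow_nonneg (by norm_num) p) hM0.le)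
        _ = 2 * M := by rw [← mul_assoc, h2p]
    · have hl2 : l * (1 + t / 2) ≤ 173 / 100 := by nlinarith
      have h213 : (213 / 100 : ℝ) ^ p ≤ 213 / 100 := by
        conv_rhs => rw [← Real.rpow_one (213 / 100 : ℝ)]
        exact Real.rpow_le_rpow_of_exponent_le (by norm_num) hp1.le
      have key : ((u ^ 2 + v ^ 2) / 2 + 13 / 100 * k) ^ p ≤ 213 / 200 * M := by
        rcases le_total k (M ^ 2) with h4 | h4
        · have h3 : (u ^ 2 + v ^ 2) / 2 + 13 / 100 * k ≤ 213 / 100 * M ^ 2 := by linarith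
          have hMs : M ≤ 1 / 10 ^ 6 := by
            have e1 : M ^ 2 ≤ (1 / 10 ^ 6) ^ 2 := h2.trans (hsqk.trans (by norm_num))
            exact le_of_not_gt fun hlt => absurd e1 (not_le.2 (pow_lt_pow_left₀ hlt (by norm_num) (by norm_num)))
          have e2 : M ^ (2 * p - 1) ≤ 1 / 30 := by
            have f1 : M ^ (2 * p - 1) ≤ M ^ (1 / 4 : ℝ) :=
              Real.rpow_le_rpow_of_exponent_ge hM0 h1 (by linarith)
            have f2 : M ^ (1 / 4 : ℝ) ≤ ((1 / 30 : ℝ) ^ 4) ^ (1 / 4 : ℝ) := by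
              apply Real.rpow_le_rpow hM0.le _ (by norm_num)
              exact hMs.trans (by norm_num)
            have f3 : ((1 / 30 : ℝ) ^ 4) ^ (1 / 4 : ℝ) = 1 / 30 := by
              rw [← Real.rpow_natCast (1 / 30 : ℝ) 4, ← Real.rpow_mul (by norm_num)]
              norm_num
            rw [f3] at f2
            exact f1.trans f2
          calc ((u ^ 2 + v ^ 2) / 2 + 13 / 100 * k) ^ p ≤ (213 / 100 * M ^ 2) ^ p :=
                Real.rpow_le_rpow hQ0 h3 hp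
            _ = (213 / 100) ^ p * (M ^ 2) ^ p := Real.mul_rpow (by norm_num) (by positivity)
            _ = (213 / 100) ^ p * (M * M ^ (2 * p - 1)) := by
                congr 1
                rw [← Real.rpow_natCast M 2, ← Real.rpow_mul hM0.le]
                nth_rewrite 2 [← Real.rpow_one M]
                rw [← Real.rpow_add hM0]
                congr 1
                push_cast
                ring
            _ ≤ 213 / 100 * (M * (1 / 30)) := by
                apply mul_le_mul h213 (mul_le_mul_of_nonneg_left e2 hM0.le)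
                  (mul_nonneg hM0.le (Real.rpow_nonneg hM0.le _)) (by norm_num)
            _ ≤ 213 / 200 * M := by nlinarith
        · have h3 : (u ^ 2 + v ^ 2) / 2 + 13 / 100 * k ≤ 213 / 100 * k := by linarith
          calc ((u ^ 2 + v ^ 2) / 2 + 13 / 100 * k) ^ p ≤ (213 / 100 * k) ^ p :=
                Real.rpow_le_rpow hQ0 h3 hp
            _ = (213 / 100) ^ p * k ^ p := Real.mul_rpow (by norm_num) hk0.le
            _ ≤ 213 / 100 * (M / 2) :=
                mul_le_mul h213 (by linarith) hkp.le (by norm_num)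
            _ = 213 / 200 * M := by ring
      calc l * (1 + t / 2) * ((u ^ 2 + v ^ 2) / 2 + 13 / 100 * k) ^ p
          ≤ 173 / 100 * (213 / 200 * M) :=
            mul_le_mul hl2 key (Real.rpow_nonneg hQ0 p) (by norm_num)
        _ ≤ 2 * M := by nlinarith

theorem wt_pair {p l q k a a' b x x' y y' : ℝ} {n0 : ℕ} (h : Par p l q k n0 a b)
    (h' : Par p l q k n0 a' b) (hx : |x| ≤ 2 + k / 1000) (hx' : |x'| ≤ 2 + k / 1000)
    (hy : |y| ≤ 2 + k / 1000) (hy' : |y'| ≤ 2 + k / 1000)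
    (hr : 2 * k ^ p ≤ |x|) (hr' : 2 * k ^ p ≤ |x'|) (hs : 0 < x * x') :
    l * (1 + k ^ ((1 - p) / 2) / 2) *
        wt p k (((a - x ^ 2 + b * y) + (a' - x' ^ 2 + b * y')) / 2)
      ≤ 2 * |(x + x') / 2| * wt p k ((x + x') / 2) := by
  have hk0 := h.num.k0
  have hk1 := h.num.k1
  have hp : 0 ≤ p := by linarith [h.num.p0]
  have hk2 : k ≤ 1 := hk1.trans (by norm_num)
  have hQ := h96_Q h.num hr hr' hx hx'
  have hA : ∀ c z : ℝ, |c - 2| ≤ k / 1000 → |z| ≤ 2 + k / 1000 → |c + b * z - 2| ≤ 4 * k / 1000 := by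
    intro c z hc hz
    have h1 : |b * z| ≤ 3 * k / 1000 := by
      rw [abs_mul, abs_of_pos h.b0]
      calc b * |z| ≤ k / 1000 * (2 + k / 1000) :=
            mul_le_mul h.b1 hz (abs_nonneg _) (by positivity)
        _ ≤ 3 * k / 1000 := by nlinarith
    have h2 := abs_le.1 hc
    have h3 := abs_le.1 h1
    rw [abs_le]
    constructor <;> linarith
  have h1 := abs_le.1 (hA a y h.ha hy)
  have h2 := abs_le.1 (hA a' y' h'.ha hy')
  set A : ℝ := (a + b * y + (a' + b * y')) / 2 with hAdef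
  set P : ℝ := (x ^ 2 + x' ^ 2) / 2 with hP
  set m : ℝ := (x + x') / 2 with hm
  have hX : ((a - x ^ 2 + b * y) + (a' - x' ^ 2 + b * y')) / 2 = A - P := by
    rw [hAdef, hP]
    ring
  have hA1 : A ≤ 2 + 4 * k / 1000 := by rw [hAdef]; linarith
  have hA2 : 2 - 4 * k / 1000 ≤ A := by rw [hAdef]; linarith
  have hP0 : 0 ≤ P := by rw [hP]; positivity
  have hx2 : x ^ 2 ≤ (2 + k / 1000) ^ 2 := by
    rw [← sq_abs x]
    exact pow_le_pow_left₀ (abs_nonneg _) hx 2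
  have hx2' : x' ^ 2 ≤ (2 + k / 1000) ^ 2 := by
    rw [← sq_abs x']
    exact pow_le_pow_left₀ (abs_nonneg _) hx' 2
  have hkk : k ^ 2 ≤ k := by nlinarith
  have hP1 : P ≤ 4 + 5 * k / 1000 := by
    rw [hP]
    nlinarith
  have hPm : m ^ 2 ≤ P := by
    rw [hP, hm]
    nlinarith [sq_nonneg (x - x')]
  have hB : P ≤ (2 + k / 8) ^ 2 := by nlinarith
  have hQ0 : 0 ≤ P + 13 / 100 * k := by positivity
  have hbase0 : 0 ≤ (2 + k / 8) ^ 2 - (A - P) ^ 2 := by
    have e : (2 + k / 8) ^ 2 - (A - P) ^ 2 = (2 + k / 8 - A + P) * (2 + k / 8 + A - P) := by ring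
    rw [e]
    exact mul_nonneg (by linarith) (by linarith)
  have hbase : (2 + k / 8) ^ 2 - (A - P) ^ 2 ≤
      (P + 13 / 100 * k) * ((2 + k / 8) ^ 2 - m ^ 2) := by
    have e : (2 + k / 8) ^ 2 - (A - P) ^ 2 = (2 + k / 8 - A + P) * (2 + k / 8 + A - P) := by ring
    rw [e]
    refine mul_le_mul (by linarith) ?_ (by linarith) hQ0
    nlinarith
  have hm0 : 0 ≤ (2 + k / 8) ^ 2 - m ^ 2 := by linarith
  have hwt : wt p k (A - P) ≤ (P + 13 / 100 * k) ^ p * wt p k m := by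
    unfold wt
    rw [← Real.mul_rpow hQ0 hm0]
    exact Real.rpow_le_rpow hbase0 hbase hp
  have hwm : 0 ≤ wt p k m := Real.rpow_nonneg hm0 p
  have hmM : |m| = (|x| + |x'|) / 2 := by
    have h3 : |x + x'| = |x| + |x'| := by
      rw [abs_add_eq_add_abs_iff]
      rcases lt_or_ge 0 x with h4 | h4
      · left
        exact ⟨h4.le, by nlinarith⟩
      · right
        exact ⟨h4, by nlinarith⟩
    rw [hm, abs_div, h3, abs_of_pos (by norm_num : (0 : ℝ) < 2)]
  have hPP : (|x| ^ 2 + |x'| ^ 2) / 2 = P := by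
    rw [sq_abs, sq_abs]
  rw [hPP, ← hmM] at hQ
  rw [hX]
  have hl0 : 0 ≤ l * (1 + k ^ ((1 - p) / 2) / 2) := by
    have h5 := h.num.l0
    have h6 : 0 < k ^ ((1 - p) / 2) := Real.rpow_pos_of_pos hk0 _
    positivity
  calc l * (1 + k ^ ((1 - p) / 2) / 2) * wt p k (A - P)
      ≤ l * (1 + k ^ ((1 - p) / 2) / 2) * ((P + 13 / 100 * k) ^ p * wt p k m) :=
        mul_le_mul_of_nonneg_left hwt hl0
    _ = l * (1 + k ^ ((1 - p) / 2) / 2) * (P + 13 / 100 * k) ^ p * wt p k m := by ring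
    _ ≤ 2 * |m| * wt p k m := mul_le_mul_of_nonneg_right hQ hwm

end Pool.Agent.helper23.HV
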