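import Pool.Agent.helper23.HV.BasicC
import Pool.Agent.helper23.HV.Near
import Pool.Agent.helper23.HT.Comp

/-!
# The difference of two orbits with the same signs (module HV-Pair)

As HU/Pair.lean. `d j = z' j - z j`, `m j = (z j + z' j)/2`, `w j = wt p k (m j)`, `e = |a' - a|`,
`t = k^((1-p)/2)`: `2 |m (j+1)| |d (j+1)| ≤ |d (j+2)| + b |d j| + e` for `j < n`, by `wt_pair`
`l (1 + t/2) w (j+2) ≤ 2 |m (j+1)| w (j+1)`, so with `D j = |d j| / w j`:
`D (j+1) ≤ 1/(l (1 + t/2)) (D (j+2) + (11/1000) t^2 D j + (5/2) e / k^p)`. Compare with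
`U j = D 0 ((1/l)^(n+1-j) + (1/100)^j) + K e / k^p`, `K = (5/2)/(l-1)`: `1 + (11/1000) t^2 ≤ 1 + t/2`,
`1/100 + 100 (11/1000) t^2 ≤ 1`, `K (1 + (11/1000) t^2) + 5/2 ≤ K l (1 + t/2)`. Finally `|d j| ≤ w j D j` with
`w j ≤ 401/100`, and `w j ≤ 11/10 w 0` (`wt_max`); `(401/100)(5/2) ≤ 11`.
-/

namespace Pool.Agent.helper23.HV

open Pool.Agent.helper23.HS

/-- The one-step inequality for the weighted differences, multiplied by `l (1 + t/2)`. -/
theorem h51_pair_step {p l q κ a a' b : ℝ} {n0 n : ℕ} {z z' : ℕ → ℝ}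
    (ht : Thin p l q κ n0 a b n z) (ht' : Thin p l q κ n0 a' b n z')
    (hs : ∀ k, 1 ≤ k → k ≤ n → 0 < z k * z' k) (k : ℕ) (hk : k < n) :
    l * (1 + κ ^ ((1 - p) / 2) / 2) *
        (|z' (k + 1) - z (k + 1)| / wt p κ ((z (k + 1) + z' (k + 1)) / 2)) ≤
      11 / 1000 * (κ ^ ((1 - p) / 2)) ^ 2 * (|z' k - z k| / wt p κ ((z k + z' k) / 2))
      + |z' (k + 2) - z (k + 2)| / wt p κ ((z (k + 2) + z' (k + 2)) / 2)
      + 5 / 2 * (|a' - a| / κ ^ p) := by
  obtain ⟨hr, htt, -, -, hkR, -, -, -⟩ := small_k ht.par.num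
  have hl := ht.par.num.l0
  have hb := ht.par.b0
  have hb1 := ht.par.b1
  have B := bound ht.par ht.orb
  have B' := bound ht'.par ht'.orb
  have hM : ∀ j, |(z j + z' j) / 2| ≤ 2 + κ / 1000 := by
    intro j
    have h1 := abs_le.mp (B j)
    have h2 := abs_le.mp (B' j)
    rw [abs_le]
    constructor <;> linarith [h1.1, h1.2, h2.1, h2.2]
  have W : ∀ j, 2 / 5 * κ ^ p ≤ wt p κ ((z j + z' j) / 2) := fun j => wt_ge ht.par.num (hM j)
  have W' : ∀ j, wt p κ ((z j + z' j) / 2) ≤ 401 / 100 := fun j => wt_le ht.par.num (hM j)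
  have Wp : ∀ j, 0 < wt p κ ((z j + z' j) / 2) := fun j =>
    lt_of_lt_of_le (mul_pos (by norm_num) hr) (W j)
  have o := ht.orb.out (k + 1) (by omega) (by omega)
  have o' := ht'.orb.out (k + 1) (by omega) (by omega)
  rw [abs_mul, abs_two] at o o'
  have hs1 := hs (k + 1) (by omega) (by omega)
  have P := wt_pair ht.par ht'.par (B (k + 1)) (B' (k + 1)) (B k) (B' k)
    (by linarith) (by linarith) hs1
  have e1 := ht.orb.eqn k
  have e2 := ht'.orb.eqn k
  have hm2 : ((a - z (k + 1) ^ 2 + b * z k) + (a' - z' (k + 1) ^ 2 + b * z' k)) / 2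
      = (z (k + 2) + z' (k + 2)) / 2 := by
    rw [← e1, ← e2]
    ring
  rw [hm2] at P
  have w0 := Wp k
  have w1 := Wp (k + 1)
  have w2 := Wp (k + 2)
  have w0u := W' k
  have w2l := W (k + 2)
  have hid : 2 * ((z (k + 1) + z' (k + 1)) / 2) * (z' (k + 1) - z (k + 1))
      = - (z' (k + 2) - z (k + 2)) + b * (z' k - z k) + (a' - a) := by
    rw [← e1, ← e2]
    ring
  have hineq : 2 * |(z (k + 1) + z' (k + 1)) / 2| * |z' (k + 1) - z (k + 1)|
      ≤ |z' (k + 2) - z (k + 2)| + b * |z' k - z k| + |a' - a| := by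
    have h1 : 2 * |(z (k + 1) + z' (k + 1)) / 2| * |z' (k + 1) - z (k + 1)|
        = |2 * ((z (k + 1) + z' (k + 1)) / 2) * (z' (k + 1) - z (k + 1))| := by
      rw [abs_mul, abs_mul, abs_two]
    rw [h1, hid]
    refine (abs_add_le _ _).trans ?_
    have h2 := abs_add_le (-(z' (k + 2) - z (k + 2))) (b * (z' k - z k))
    rw [abs_neg, abs_mul, abs_of_pos hb] at h2
    linarith
  have hκ := ht.par.num.k0
  generalize hw0 : wt p κ ((z k + z' k) / 2) = W0 at *
  generalize hw1 : wt p κ ((z (k + 1) + z' (k + 1)) / 2) = W1 at *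
  generalize hw2 : wt p κ ((z (k + 2) + z' (k + 2)) / 2) = W2 at *
  generalize |(z (k + 1) + z' (k + 1)) / 2| = M at *
  generalize hT : κ ^ ((1 - p) / 2) = T at *
  generalize hRR : κ ^ p = R at *
  have hT2 : 0 ≤ T ^ 2 := sq_nonneg T
  have hbw : b * W0 ≤ 11 / 1000 * T ^ 2 * W2 := by
    have h3 : b * W0 ≤ κ / 1000 * (401 / 100) := mul_le_mul hb1 w0u w0.le (by linarith)
    have h4 : 2 / 5 * R * T ^ 2 ≤ W2 * T ^ 2 := mul_le_mul_of_nonneg_right w2l hT2
    have h5 : 0 ≤ W2 * T ^ 2 := mul_nonneg w2.le hT2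
    nlinarith
  have hd0 : |z' k - z k| = W0 * (|z' k - z k| / W0) := by field_simp
  have hd1 : |z' (k + 1) - z (k + 1)| = W1 * (|z' (k + 1) - z (k + 1)| / W1) := by field_simp
  have hd2 : |z' (k + 2) - z (k + 2)| = W2 * (|z' (k + 2) - z (k + 2)| / W2) := by field_simp
  have hE : |a' - a| = R * (|a' - a| / R) := by field_simp
  have n0' : 0 ≤ |z' k - z k| / W0 := by positivity
  have n1 : 0 ≤ |z' (k + 1) - z (k + 1)| / W1 := by positivity
  have n2 : 0 ≤ |z' (k + 2) - z (k + 2)| / W2 := by positivity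
  have nE : 0 ≤ |a' - a| / R := by positivity
  rw [hd0, hd1, hd2, hE] at hineq
  generalize |z' k - z k| / W0 = D0 at *
  generalize |z' (k + 1) - z (k + 1)| / W1 = D1 at *
  generalize |z' (k + 2) - z (k + 2)| / W2 = D2 at *
  generalize |a' - a| / R = E at *
  -- multiply by `W2`
  have a1 : l * (1 + T / 2) * W2 * D1 ≤ W2 * D2 + b * (W0 * D0) + R * E := by
    have h1 : l * (1 + T / 2) * W2 * D1 ≤ 2 * M * W1 * D1 := mul_le_mul_of_nonneg_right P n1
    linarith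
  have a2 : b * (W0 * D0) ≤ 11 / 1000 * T ^ 2 * (W2 * D0) := by
    calc b * (W0 * D0) = (b * W0) * D0 := by ring
      _ ≤ (11 / 1000 * T ^ 2 * W2) * D0 := mul_le_mul_of_nonneg_right hbw n0'
      _ = 11 / 1000 * T ^ 2 * (W2 * D0) := by ring
  have a3 : R * E ≤ 5 / 2 * (W2 * E) := by
    have h5 : R ≤ 5 / 2 * W2 := by linarith
    calc R * E ≤ (5 / 2 * W2) * E := mul_le_mul_of_nonneg_right h5 nE
      _ = 5 / 2 * (W2 * E) := by ring
  have a5 : W2 * (l * (1 + T / 2) * D1) ≤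
      W2 * (11 / 1000 * T ^ 2 * D0 + D2 + 5 / 2 * E) := by
    have e : W2 * (11 / 1000 * T ^ 2 * D0 + D2 + 5 / 2 * E) =
        11 / 1000 * T ^ 2 * (W2 * D0) + W2 * D2 + 5 / 2 * (W2 * E) := by ring
    have e' : W2 * (l * (1 + T / 2) * D1) = l * (1 + T / 2) * W2 * D1 := by ring
    rw [e, e']
    linarith
  exact le_of_mul_le_mul_left a5 w2

theorem pair {p l q k a a' b : ℝ} {n0 n : ℕ} {z z' : ℕ → ℝ} (ht : Thin p l q k n0 a b n z)
    (ht' : Thin p l q k n0 a' b n z') (hs : ∀ j, 1 ≤ j → j ≤ n → 0 < z j * z' j) :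
    ∀ j, j < n → |z' (j + 1) - z (j + 1)| ≤
      11 / 10 * |z' 0 - z 0| * ((1 / l) ^ (n - j) + (1 / 100) ^ (j + 1))
        + 11 / (l - 1) * |a' - a| / k ^ p := by
  intro j0 hj0
  obtain ⟨hr, htt, ht3, -, -, -, -, -⟩ := small_k ht.par.num
  have hl := ht.par.num.l0
  have hl0 : 0 < l := by linarith
  have hl1 : 0 < l - 1 := by linarith
  have hstep := fun j hj => h51_pair_step ht ht' hs j hj
  set T : ℝ := k ^ ((1 - p) / 2) with hT
  set D : ℕ → ℝ := fun j => |z' j - z j| / wt p k ((z j + z' j) / 2) with hD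
  set E : ℝ := |a' - a| / k ^ p with hE
  set K : ℝ := 5 / 2 / (l - 1) with hK
  have hK0 : 0 ≤ K := by positivity
  have hKl : K * (l - 1) = 5 / 2 := by rw [hK]; field_simp
  have hE0 : 0 ≤ E := by positivity
  have hKE : 0 ≤ K * E := mul_nonneg hK0 hE0
  have B := bound ht.par ht.orb
  have B' := bound ht'.par ht'.orb
  have hM : ∀ j, |(z j + z' j) / 2| ≤ 2 + k / 1000 := by
    intro j
    have h1 := abs_le.mp (B j)
    have h2 := abs_le.mp (B' j)
    rw [abs_le]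
    constructor <;> linarith [h1.1, h1.2, h2.1, h2.2]
  have Wp : ∀ j, 0 < wt p k ((z j + z' j) / 2) := fun j =>
    lt_of_lt_of_le (mul_pos (by norm_num) hr) (wt_ge ht.par.num (hM j))
  have Dn : ∀ j, 0 ≤ D j := fun j => div_nonneg (abs_nonneg _) (Wp j).le
  have hper : D (n + 1) = D 0 := by
    simp only [hD, ht.orb.per, ht'.orb.per]
  set L : ℝ := l * (1 + T / 2) with hL
  have hLpos : 0 < L := by positivity
  have hLl : l ≤ L := by
    rw [hL]
    nlinarith [mul_pos hl0 htt]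
  have hT2 : T ^ 2 ≤ 9 / 100 := by nlinarith
  have hT2' : T ^ 2 ≤ T := by nlinarith
  have hT0 : 0 ≤ T ^ 2 := sq_nonneg T
  have key := Pool.Agent.helper23.HT.compare (n := n) (G := D)
    (U := fun j => D 0 * ((1 / l) ^ (n + 1 - j) + (1 / 100) ^ j) + K * E)
    (α := 11 / 1000 * T ^ 2 / L) (β := 1 / L) (γ := 5 / 2 * E / L) (by positivity) (by positivity)
    (by
      rw [← add_div, div_lt_one hLpos]
      nlinarith)
    (by
      have h1 : 0 ≤ D 0 * (1 / l : ℝ) ^ (n + 1) := mul_nonneg (Dn 0) (by positivity)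
      simp only [Nat.sub_zero, pow_zero]
      linarith)
    (by
      have h1 : 0 ≤ D 0 * (1 / 100 : ℝ) ^ (n + 1) := mul_nonneg (Dn 0) (by positivity)
      rw [hper]
      simp only [Nat.sub_self, pow_zero]
      linarith)
    (by
      intro j hj
      have h1 := hstep j hj
      have e : 11 / 1000 * T ^ 2 / L * D j + 1 / L * D (j + 2) + 5 / 2 * E / L =
          (11 / 1000 * T ^ 2 * D j + D (j + 2) + 5 / 2 * E) / L := by ring
      rw [e, le_div_iff₀ hLpos]
      calc D (j + 1) * L = L * D (j + 1) := mul_comm _ _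
        _ ≤ _ := h1)
    (by
      intro j hj
      obtain ⟨i, rfl⟩ : ∃ i, n = j + 1 + i := ⟨n - (j + 1), by omega⟩
      have s1 : j + 1 + i + 1 - j = i + 2 := by omega
      have s2 : j + 1 + i + 1 - (j + 2) = i := by omega
      have s3 : j + 1 + i + 1 - (j + 1) = i + 1 := by omega
      simp only [s1, s2, s3]
      have hXi : 0 ≤ (1 / l : ℝ) ^ (i + 2) := by positivity
      have eX1 : (1 / l : ℝ) ^ i = l ^ 2 * (1 / l) ^ (i + 2) := by
        rw [pow_add]
        field_simp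
      have eX2 : (1 / l : ℝ) ^ (i + 1) = l * (1 / l) ^ (i + 2) := by
        rw [pow_succ (1 / l : ℝ) (i + 1)]
        field_simp
      rw [eX1, eX2, pow_succ (1 / 100 : ℝ) (j + 1), pow_succ (1 / 100 : ℝ) j]
      have h1 : 0 ≤ D 0 * (1 / l : ℝ) ^ (i + 2) := mul_nonneg (Dn 0) hXi
      have h2 : 0 ≤ D 0 * (1 / 100 : ℝ) ^ j := mul_nonneg (Dn 0) (by positivity)
      generalize (1 / l : ℝ) ^ (i + 2) = X at *
      generalize (1 / 100 : ℝ) ^ j = Y at *
      have e : 11 / 1000 * T ^ 2 / L * (D 0 * (X + Y) + K * E) +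
          1 / L * (D 0 * (l ^ 2 * X + Y * (1 / 100) * (1 / 100)) + K * E) + 5 / 2 * E / L =
          (11 / 1000 * T ^ 2 * (D 0 * (X + Y) + K * E) +
          (D 0 * (l ^ 2 * X + Y * (1 / 100) * (1 / 100)) + K * E) + 5 / 2 * E) / L := by ring
      rw [e, div_le_iff₀ hLpos]
      have c1 : 11 / 1000 * T ^ 2 * (D 0 * X) + l ^ 2 * (D 0 * X) ≤ l * L * (D 0 * X) := by
        have : 11 / 1000 * T ^ 2 + l ^ 2 ≤ l * L := by
          rw [hL]
          have h5 : T ≤ l * l * T := by nlinarith [mul_pos hl0 hl0]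
          nlinarith
        nlinarith
      have c2 : 11 / 1000 * T ^ 2 * (D 0 * Y) + 1 / 10000 * (D 0 * Y) ≤ 1 / 100 * L * (D 0 * Y) := by
        have : 11 / 1000 * T ^ 2 + 1 / 10000 ≤ 1 / 100 * L := by linarith
        nlinarith
      have c3 : 11 / 1000 * T ^ 2 * (K * E) + K * E + 5 / 2 * E ≤ L * (K * E) := by
        have h5 : 5 / 2 * E = (l - 1) * (K * E) := by rw [← hKl]; ring
        have h6 : 11 / 1000 * T ^ 2 + l ≤ L := by
          rw [hL]
          have : T ≤ l * T := by nlinarith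
          nlinarith
        rw [h5]
        nlinarith
      nlinarith [c1, c2, c3])
    (j0 + 1) (by omega)
  have s4 : n + 1 - (j0 + 1) = n - j0 := by omega
  simp only [s4] at key
  have hm0 : |(z 0 + z' 0) / 2| ≤ 2 * k ^ p := by
    have h1 := abs_le.mp ht.small
    have h2 := abs_le.mp ht'.small
    rw [abs_le]
    constructor <;> linarith [h1.1, h1.2, h2.1, h2.2]
  have hwm := wt_max ht.par.num hm0 (hM (j0 + 1))
  have hwl := wt_le ht.par.num (hM (j0 + 1))
  have hw1p := Wp (j0 + 1)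
  have hD0 : D 0 * wt p k ((z 0 + z' 0) / 2) = |z' 0 - z 0| := by
    simp only [hD]
    exact div_mul_cancel₀ _ (Wp 0).ne'
  have hDk : |z' (j0 + 1) - z (j0 + 1)| = wt p k ((z (j0 + 1) + z' (j0 + 1)) / 2) * D (j0 + 1) := by
    simp only [hD]
    exact (mul_div_cancel₀ _ (Wp (j0 + 1)).ne').symm
  have hQ : (0 : ℝ) ≤ (1 / l) ^ (n - j0) + (1 / 100) ^ (j0 + 1) := by positivity
  have h9 : 11 / (l - 1) * |a' - a| / k ^ p = 11 / (l - 1) * E := by
    rw [hE]
    ring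
  rw [h9, hDk]
  generalize (1 / l : ℝ) ^ (n - j0) + (1 / 100) ^ (j0 + 1) = Q at *
  generalize wt p k ((z (j0 + 1) + z' (j0 + 1)) / 2) = W1 at *
  generalize wt p k ((z 0 + z' 0) / 2) = W0 at *
  have hKE' : 401 / 100 * (K * E) ≤ 11 / (l - 1) * E := by
    have h5 : 11 / (l - 1) = 22 / 5 * K := by rw [hK]; ring
    rw [h5]
    nlinarith
  calc W1 * D (j0 + 1) ≤ W1 * (D 0 * Q + K * E) := mul_le_mul_of_nonneg_left key hw1p.le
    _ = W1 * (D 0 * Q) + W1 * (K * E) := by ring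
    _ ≤ 11 / 10 * W0 * (D 0 * Q) + 401 / 100 * (K * E) :=
        add_le_add (mul_le_mul_of_nonneg_right hwm (mul_nonneg (Dn 0) hQ))
          (mul_le_mul_of_nonneg_right hwl hKE)
    _ ≤ 11 / 10 * W0 * (D 0 * Q) + 11 / (l - 1) * E := by linarith
    _ = 11 / 10 * |z' 0 - z 0| * Q + 11 / (l - 1) * E := by rw [← hD0]; ring

end Pool.Agent.helper23.HV
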