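import Pool.Agent.helper23.HV.Near

/-!
# Token lists of orbits (module HV-ParseA)

parse_len: induction on `w` (generalise `j`).
parse_exists: strong induction on `n + 1 - j`: for `1 ≤ j ≤ n + 1` there is `w` with `Parse k n0 n z j w`. If
`|z j| ≤ √k` then `j + n0 ≤ n`: otherwise `n + 1 = j + i` with `1 ≤ i ≤ n0`, `|z (n+1)| = |z 0| ≤ 2 k^p < 19/10`
contradicts `near`.
parse_signs: induction on `w`: at a token the signs agree (`z j ≠ 0` since `|z j| ≥ 2 k^p` for `1 ≤ j ≤ n`, from
`orb.out`); in the `n0` points after a block `near` gives the signs of both.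
-/

namespace Pool.Agent.helper23.HV

open Pool.Agent.helper23.HS

theorem parse_len {k : ℝ} {n0 n : ℕ} {z : ℕ → ℝ} {j : ℕ} {w : List (Bool × Bool)}
    (h : Parse k n0 n z j w) : j + len n0 w = n + 1 := by
  induction w generalizing j with
  | nil =>
    have h1 : j = n + 1 := h
    simpa [len] using h1
  | cons t w ih =>
    obtain ⟨-, -, -, -, -, h6⟩ := h
    have h7 := ih h6
    unfold len
    rcases hb : t.1 with _ | _
    · rw [hb] at h7
      simp only [Bool.false_eq_true, if_false] at h7 ⊢
      omega
    · rw [hb] at h7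
      simp only [if_true] at h7 ⊢
      omega

theorem h32_small {p l q k a b : ℝ} {n0 n : ℕ} {z : ℕ → ℝ} (ht : Thin p l q k n0 a b n z) :
    |z (n + 1)| < 19 / 10 ∧ ∀ j, 1 ≤ j → j ≤ n → z j ≠ 0 := by
  obtain ⟨h1, -, -, -, -, h6, -, -⟩ := small_k ht.par.num
  have hs : Real.sqrt k ≤ 1 := by
    rw [Real.sqrt_le_iff]
    have := ht.par.num.k1
    constructor
    · norm_num
    · norm_num at this ⊢
      linarith
  constructor
  · rw [ht.orb.per]
    have := ht.small
    linarith
  · intro j hj1 hj2 h0
    have := ht.orb.out j hj1 hj2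
    rw [h0, mul_zero, abs_zero] at this
    linarith

theorem parse_exists {p l q k a b : ℝ} {n0 n : ℕ} {z : ℕ → ℝ} (ht : Thin p l q k n0 a b n z) :
    ∃ w, Parse k n0 n z 1 w := by
  have key : ∀ d j, 1 ≤ j → j ≤ n + 1 → n + 1 - j ≤ d → ∃ w, Parse k n0 n z j w := by
    intro d
    induction d with
    | zero =>
      intro j hj1 hj2 hd
      exact ⟨[], show j = n + 1 by omega⟩
    | succ d ih =>
      intro j hj1 hj2 hd
      rcases Nat.lt_or_ge n j with hj | hj
      · exact ⟨[], show j = n + 1 by omega⟩
      rcases le_total |z j| (Real.sqrt k) with hs | hs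
      · -- block
        have hjn : j + n0 ≤ n := by
          by_contra hcon
          have h1 := (near ht hs).2.1 (n + 1 - j) (by omega) (by omega)
          have e : j + (n + 1 - j) = n + 1 := by omega
          rw [e] at h1
          have h2 := (h32_small ht).1
          linarith
        obtain ⟨w, hw⟩ := ih (j + n0 + 1) (by omega) (by omega) (by omega)
        rcases le_total 0 (z j) with hz | hz
        · exact ⟨(true, true) :: w, hj, fun _ => hz, fun h => absurd h (by simp), fun _ => hs,
            fun h => absurd h (by simp), hw⟩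
        · exact ⟨(true, false) :: w, hj, fun h => absurd h (by simp), fun _ => hz, fun _ => hs,
            fun h => absurd h (by simp), hw⟩
      · obtain ⟨w, hw⟩ := ih (j + 1) (by omega) (by omega) (by omega)
        rcases le_total 0 (z j) with hz | hz
        · exact ⟨(false, true) :: w, hj, fun _ => hz, fun h => absurd h (by simp),
            fun h => absurd h (by simp), fun _ => hs, hw⟩
        · exact ⟨(false, false) :: w, hj, fun h => absurd h (by simp), fun _ => hz,
            fun h => absurd h (by simp), fun _ => hs, hw⟩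
  exact key (n + 1 - 1) 1 le_rfl (by omega) le_rfl

theorem parse_signs {p l q k a a' b : ℝ} {n0 n : ℕ} {z z' : ℕ → ℝ}
    (ht : Thin p l q k n0 a b n z) (ht' : Thin p l q k n0 a' b n z') {w : List (Bool × Bool)}
    (h : Parse k n0 n z 1 w) (h' : Parse k n0 n z' 1 w) :
    ∀ j, 1 ≤ j → j ≤ n → 0 < z j * z' j := by
  have key : ∀ (w : List (Bool × Bool)) (j : ℕ), 1 ≤ j → Parse k n0 n z j w →
      Parse k n0 n z' j w → ∀ i, j ≤ i → i ≤ n → 0 < z i * z' i := by
    intro w
    induction w with
    | nil =>
      intro j hj1 hP hP' i hi1 hi2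
      have h1 : j = n + 1 := hP
      omega
    | cons t w ih =>
      intro j hj1 hP hP' i hi1 hi2
      obtain ⟨hjn, a2, a3, a4, a5, a6⟩ := hP
      obtain ⟨-, b2, b3, b4, b5, b6⟩ := hP'
      have hz := (h32_small ht).2 j hj1 hjn
      have hz' := (h32_small ht').2 j hj1 hjn
      have hj : 0 < z j * z' j := by
        rcases hb : t.2 with _ | _
        · exact mul_pos_of_neg_of_neg (lt_of_le_of_ne (a3 hb) hz) (lt_of_le_of_ne (b3 hb) hz')
        · exact mul_pos (lt_of_le_of_ne (a2 hb) hz.symm) (lt_of_le_of_ne (b2 hb) hz'.symm)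
      rcases Nat.eq_or_lt_of_le hi1 with rfl | hij
      · exact hj
      rcases hb : t.1 with _ | _
      · rw [hb] at a6 b6
        simp only [Bool.false_eq_true, if_false] at a6 b6
        exact ih (j + 1) (by omega) a6 b6 i (by omega) hi2
      · rw [hb] at a6 b6
        simp only [if_true] at a6 b6
        rcases Nat.lt_or_ge (j + n0) i with hi3 | hi3
        · exact ih (j + n0 + 1) (by omega) a6 b6 i (by omega) hi2
        · obtain ⟨m, rfl⟩ : ∃ m, i = j + m := ⟨i - j, by omega⟩
          obtain ⟨c1, -, c3, -⟩ := near ht (a4 hb)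
          obtain ⟨d1, -, d3, -⟩ := near ht' (b4 hb)
          rcases Nat.lt_or_ge m 2 with hm | hm
          · have hm1 : m = 1 := by omega
            subst hm1
            exact mul_pos c1 d1
          · exact mul_pos_of_neg_of_neg (c3 m hm (by omega)) (d3 m hm (by omega))
  exact fun j hj1 hj2 => key w 1 le_rfl h h' j hj1 hj2

end Pool.Agent.helper23.HV
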