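import Pool.Agent.helper23.HV.Grow
import Pool.Agent.helper23.HT.Basic

/-!
# Growth along a token list (module HV-ParseB)

`v j = sol b (2 z) 0 1 j`, `h j = √((2 + k/8)^2 - z j ^2)` (the weight `wt (√k)` of HT/Basic.lean).
Letter: `(9/5) |v j| h (j+1) ≤ |v (j+1)| h j`. Block: `9 |v j| h (j+n0+1) ≤ |v (j+n0+1)| h j`.
Induction on `w`: `(|v j| h (n+1)) ^ 2 ≤ (w.map uu).prod * (|v (n+1)| h j)^2`.
-/

namespace Pool.Agent.helper23.HV

open Pool.Agent.helper23.HS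

lemma h34_comb {X Y H W a b c P : ℝ} (hX : 0 ≤ X) (hb : 0 < b) (hc : 0 < c)
    (h1 : c * X * b ≤ Y * a) (h2 : (Y * H) ^ 2 ≤ P * (W * b) ^ 2) :
    (X * H) ^ 2 ≤ 1 / c ^ 2 * P * (W * a) ^ 2 := by
  have h0 : 0 ≤ c * X * b := by positivity
  have h3 : (c * X * b) ^ 2 ≤ (Y * a) ^ 2 := pow_le_pow_left₀ h0 h1 2
  have h4 : (c * X * b) ^ 2 * H ^ 2 ≤ (Y * a) ^ 2 * H ^ 2 :=
    mul_le_mul_of_nonneg_right h3 (sq_nonneg H)
  have h5 : (Y * H) ^ 2 * a ^ 2 ≤ P * (W * b) ^ 2 * a ^ 2 :=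
    mul_le_mul_of_nonneg_right h2 (sq_nonneg a)
  have h6 : (c ^ 2 * (X * H) ^ 2) * b ^ 2 ≤ (P * (W * a) ^ 2) * b ^ 2 := by
    calc (c ^ 2 * (X * H) ^ 2) * b ^ 2 = (c * X * b) ^ 2 * H ^ 2 := by ring
      _ ≤ (Y * a) ^ 2 * H ^ 2 := h4
      _ = (Y * H) ^ 2 * a ^ 2 := by ring
      _ ≤ P * (W * b) ^ 2 * a ^ 2 := h5
      _ = (P * (W * a) ^ 2) * b ^ 2 := by ring
  have h7 : c ^ 2 * (X * H) ^ 2 ≤ P * (W * a) ^ 2 :=
    le_of_mul_le_mul_right h6 (by positivity)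
  have hc2 : 0 < c ^ 2 := by positivity
  have h8 : (X * H) ^ 2 ≤ (P * (W * a) ^ 2) / c ^ 2 := by
    rw [le_div_iff₀ hc2]
    linarith
  refine h8.trans (le_of_eq ?_)
  field_simp

lemma h34_par {p l q k a b : ℝ} {n0 : ℕ} (h : Par p l q k n0 a b) :
    HT.Par a b (Real.sqrt k) := by
  have hk0 := h.num.k0
  have hk1 := h.num.k1
  have hs : Real.sqrt k ^ 2 = k := Real.sq_sqrt hk0.le
  refine ⟨Real.sqrt_pos.2 hk0, ?_, ?_, h.b0, ?_⟩
  · rw [Real.sqrt_le_iff]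
    refine ⟨by norm_num, hk1.trans (by norm_num)⟩
  · rw [hs]; exact h.ha
  · rw [hs]; exact h.b1

lemma h34_tau {p l q k : ℝ} {n0 : ℕ} (h : Num p l q k n0) :
    0 ≤ k ^ (1 - p) ∧ k ^ (1 - p) ≤ 1 / 400 := by
  obtain ⟨-, h2, -, h4, -, -, -, h8⟩ := small_k h
  have h5 := h.l2
  have h6 : k ^ ((1 - p) / 2) ≤ 1 / 20 := by linarith
  rw [h4]
  refine ⟨sq_nonneg _, ?_⟩
  nlinarith

/-- one step -/
lemma h34_step {p l q k a b : ℝ} {n0 n : ℕ} {z : ℕ → ℝ} (ht : Thin p l q k n0 a b n z)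
    (j : ℕ) (h1 : 1 ≤ j) (h2 : j ≤ n) :
    (2 - k ^ (1 - p) / 10) * |z j| * |sol b (fun i => 2 * z i) 0 1 j| ≤
      |sol b (fun i => 2 * z i) 0 1 (j + 1)| := by
  obtain ⟨i, rfl⟩ := Nat.exists_eq_add_of_le' h1
  have h3 := small_b ht i (by omega)
  have e : sol b (fun i => 2 * z i) 0 1 (i + 1 + 1) =
      -(2 * z (i + 1)) * sol b (fun i => 2 * z i) 0 1 (i + 1) +
        b * sol b (fun i => 2 * z i) 0 1 i := rfl
  rw [e]
  set X := sol b (fun i => 2 * z i) 0 1 (i + 1)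
  set Y := sol b (fun i => 2 * z i) 0 1 i
  have h4 : |-(2 * z (i + 1)) * X| - |b * Y| ≤ |-(2 * z (i + 1)) * X + b * Y| := by
    have := abs_sub_abs_le_abs_sub (-(2 * z (i + 1)) * X) (-(b * Y))
    rw [abs_neg] at this
    simpa [sub_neg_eq_add] using this
  have h5 : |-(2 * z (i + 1)) * X| = 2 * |z (i + 1)| * |X| := by
    rw [abs_mul, abs_neg, abs_mul, abs_of_pos (by norm_num : (0 : ℝ) < 2)]
  have h6 : |b * Y| = b * |Y| := by rw [abs_mul, abs_of_pos ht.par.b0]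
  rw [h5, h6] at h4
  refine le_trans ?_ h4
  nlinarith [h3]

/-- many steps -/
lemma h34_steps {p l q k a b : ℝ} {n0 n : ℕ} {z : ℕ → ℝ} (ht : Thin p l q k n0 a b n z)
    (j : ℕ) (h1 : 1 ≤ j) (m : ℕ) (h2 : j + m ≤ n) :
    (2 - k ^ (1 - p) / 10) ^ (m + 1) * (|z j| * ∏ i ∈ Finset.range m, |z (j + (i + 1))|) *
      |sol b (fun i => 2 * z i) 0 1 j| ≤ |sol b (fun i => 2 * z i) 0 1 (j + m + 1)| := by
  have hτ := h34_tau ht.par.num
  have hs0 : 0 ≤ 2 - k ^ (1 - p) / 10 := by linarith [hτ.2]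
  induction m with
  | zero =>
    have := h34_step ht j h1 (by omega)
    simpa using this
  | succ m ih =>
    have h3 := ih (by omega)
    have h4 := h34_step ht (j + m + 1) (by omega) (by omega)
    have h5 : (2 - k ^ (1 - p) / 10) * |z (j + m + 1)| *
        ((2 - k ^ (1 - p) / 10) ^ (m + 1) * (|z j| * ∏ i ∈ Finset.range m, |z (j + (i + 1))|) *
        |sol b (fun i => 2 * z i) 0 1 j|) ≤
        (2 - k ^ (1 - p) / 10) * |z (j + m + 1)| *
          |sol b (fun i => 2 * z i) 0 1 (j + m + 1)| :=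
      mul_le_mul_of_nonneg_left h3 (mul_nonneg hs0 (abs_nonneg _))
    refine le_trans (le_of_eq ?_) (h5.trans h4)
    rw [Finset.prod_range_succ]
    have e : j + (m + 1) = j + m + 1 := by omega
    rw [e]
    ring

lemma h34_len {k : ℝ} {n0 n : ℕ} {z : ℕ → ℝ} {j : ℕ} {w : List (Bool × Bool)}
    (h : Parse k n0 n z j w) : j ≤ n + 1 := by
  cases w with
  | nil => exact le_of_eq h
  | cons t w => exact h.1.trans (Nat.le_succ n)

/-- letters -/
lemma h34_letter {p l q k a b : ℝ} {n0 n : ℕ} {z : ℕ → ℝ} (ht : Thin p l q k n0 a b n z)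
    (j : ℕ) (h1 : 1 ≤ j) (h2 : j ≤ n) (h3 : Real.sqrt k ≤ |z j|) :
    9 / 5 * |sol b (fun i => 2 * z i) 0 1 j| * HT.wt (Real.sqrt k) (z (j + 1)) ≤
      |sol b (fun i => 2 * z i) 0 1 (j + 1)| * HT.wt (Real.sqrt k) (z j) := by
  have hp := h34_par ht.par
  have hk0 := ht.par.num.k0
  have hs : Real.sqrt k ^ 2 = k := Real.sq_sqrt hk0.le
  have hb : ∀ i, |z i| ≤ 2 + Real.sqrt k ^ 2 / 1000 := by
    rw [hs]
    exact bound ht.par ht.orb
  have hτ := h34_tau ht.par.num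
  obtain ⟨i, rfl⟩ := Nat.exists_eq_add_of_le' h1
  have h4 := HT.wt_step hp (hb (i + 1)) (hb i) h3
  have e : a - z (i + 1) ^ 2 + b * z i = z (i + 1 + 1) := by
    have := ht.orb.eqn i
    have e2 : z (i + 1 + 1) = z (i + 2) := rfl
    rw [e2]
    linarith
  rw [e] at h4
  have h5 := h34_step ht (i + 1) h1 h2
  set X := |sol b (fun i => 2 * z i) 0 1 (i + 1)| with hX
  set Y := |sol b (fun i => 2 * z i) 0 1 (i + 1 + 1)| with hY
  have hX0 : 0 ≤ X := abs_nonneg _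
  have hw0 : 0 ≤ HT.wt (Real.sqrt k) (z (i + 1)) := Real.sqrt_nonneg _
  have hz0 : 0 ≤ |z (i + 1)| := abs_nonneg _
  calc 9 / 5 * X * HT.wt (Real.sqrt k) (z (i + 1 + 1))
      ≤ 9 / 5 * X * (107 / 100 * |z (i + 1)| * HT.wt (Real.sqrt k) (z (i + 1))) :=
        mul_le_mul_of_nonneg_left h4 (by positivity)
    _ = (963 / 500) * (|z (i + 1)| * X * HT.wt (Real.sqrt k) (z (i + 1))) := by ring
    _ ≤ (2 - k ^ (1 - p) / 10) * (|z (i + 1)| * X * HT.wt (Real.sqrt k) (z (i + 1))) :=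
        mul_le_mul_of_nonneg_right (by linarith [hτ.2]) (by positivity)
    _ = ((2 - k ^ (1 - p) / 10) * |z (i + 1)| * X) * HT.wt (Real.sqrt k) (z (i + 1)) := by ring
    _ ≤ Y * HT.wt (Real.sqrt k) (z (i + 1)) := mul_le_mul_of_nonneg_right h5 hw0

/-- near zero the weight is large -/
lemma h34_wt_low {p l q k a b : ℝ} {n0 : ℕ} (h : Par p l q k n0 a b) {x : ℝ}
    (hx : |x| ≤ Real.sqrt k) : 19 / 10 ≤ HT.wt (Real.sqrt k) x := by
  have hk0 := h.num.k0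
  have hk1 := h.num.k1
  have hs : Real.sqrt k ^ 2 = k := Real.sq_sqrt hk0.le
  have hx2 : x ^ 2 ≤ k := by
    rw [← sq_abs, ← hs]
    exact pow_le_pow_left₀ (abs_nonneg x) hx 2
  have hk2 : k ≤ 1 / 1000 := hk1.trans (by norm_num)
  unfold HT.wt
  apply Real.le_sqrt_of_sq_le
  rw [hs]
  nlinarith

/-- blocks -/
lemma h34_block {p l q k a b : ℝ} {n0 n : ℕ} {z : ℕ → ℝ} (ht : Thin p l q k n0 a b n z)
    (j : ℕ) (h1 : 1 ≤ j) (h2 : j + n0 ≤ n) (h3 : |z j| ≤ Real.sqrt k) :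
    9 * |sol b (fun i => 2 * z i) 0 1 j| * HT.wt (Real.sqrt k) (z (j + n0 + 1)) ≤
      |sol b (fun i => 2 * z i) 0 1 (j + n0 + 1)| * HT.wt (Real.sqrt k) (z j) := by
  have hp := h34_par ht.par
  have hτ := h34_tau ht.par.num
  have hsk := small_k ht.par.num
  have hkp : 0 < k ^ p := hsk.1
  have h4 := h34_steps ht j h1 n0 h2
  obtain ⟨-, -, -, h5⟩ := near ht h3
  have h6 : 2 * k ^ p ≤ |z j| := by
    have := ht.orb.out j h1 (by omega)
    rw [abs_mul, abs_of_pos (by norm_num : (0 : ℝ) < 2)] at this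
    linarith
  have h7 : k ^ p * 2 ^ n0 ≤ |z j| * ∏ i ∈ Finset.range n0, |z (j + (i + 1))| := by
    have h8 : 2 * k ^ p * (2 ^ n0 / 2) ≤ |z j| * ∏ i ∈ Finset.range n0, |z (j + (i + 1))| :=
      mul_le_mul h6 h5 (by positivity) (abs_nonneg _)
    refine le_trans (le_of_eq ?_) h8
    ring
  have hB : 19 / 10 * 2 ^ n0 ≤ (2 - k ^ (1 - p) / 10) ^ (n0 + 1) := by
    have hb1 := one_add_mul_le_pow (a := -(k ^ (1 - p) / 20)) (by linarith [hτ.2]) (n0 + 1)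
    have hb2 := ht.par.num.n4
    have hb3 : (19 : ℝ) / 20 ≤ (1 + -(k ^ (1 - p) / 20)) ^ (n0 + 1) := by
      refine le_trans ?_ hb1
      push_cast
      linarith
    have hb4 : (2 - k ^ (1 - p) / 10) ^ (n0 + 1) =
        2 ^ (n0 + 1) * (1 + -(k ^ (1 - p) / 20)) ^ (n0 + 1) := by
      rw [← mul_pow]
      congr 1
      ring
    rw [hb4]
    calc 19 / 10 * 2 ^ n0 = 2 ^ (n0 + 1) * (19 / 20 : ℝ) := by rw [pow_succ]; ring
      _ ≤ 2 ^ (n0 + 1) * (1 + -(k ^ (1 - p) / 20)) ^ (n0 + 1) :=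
          mul_le_mul_of_nonneg_left hb3 (by positivity)
  set X := |sol b (fun i => 2 * z i) 0 1 j| with hX
  set Y := |sol b (fun i => 2 * z i) 0 1 (j + n0 + 1)| with hY
  have hX0 : 0 ≤ X := abs_nonneg _
  have hY0 : 0 ≤ Y := abs_nonneg _
  have h9 : 19 ≤ (2 - k ^ (1 - p) / 10) ^ (n0 + 1) *
      (|z j| * ∏ i ∈ Finset.range n0, |z (j + (i + 1))|) := by
    have h10 : 19 / 10 * 2 ^ n0 * (k ^ p * 2 ^ n0) ≤ (2 - k ^ (1 - p) / 10) ^ (n0 + 1) *
        (|z j| * ∏ i ∈ Finset.range n0, |z (j + (i + 1))|) := by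
      refine mul_le_mul hB h7 (by positivity) ?_
      exact pow_nonneg (by linarith [hτ.2]) _
    have h11 := ht.par.num.n2
    have h12 : (19 : ℝ) / 10 * 2 ^ n0 * (k ^ p * 2 ^ n0) = 19 / 10 * (4 ^ n0 * k ^ p) := by
      have : (4 : ℝ) ^ n0 = 2 ^ n0 * 2 ^ n0 := by rw [← mul_pow]; norm_num
      rw [this]
      ring
    rw [h12] at h10
    linarith
  have h13 : 19 * X ≤ Y := (mul_le_mul_of_nonneg_right h9 hX0).trans h4
  have h14 := HT.wt_le hp (z (j + n0 + 1))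
  have h15 := h34_wt_low ht.par h3
  calc 9 * X * HT.wt (Real.sqrt k) (z (j + n0 + 1)) ≤ 9 * X * (201 / 100) :=
        mul_le_mul_of_nonneg_left h14 (by positivity)
    _ ≤ (19 * X) * (19 / 10) := by linarith
    _ ≤ Y * (19 / 10) := mul_le_mul_of_nonneg_right h13 (by norm_num)
    _ ≤ Y * HT.wt (Real.sqrt k) (z j) := mul_le_mul_of_nonneg_left h15 hY0

lemma h34_ind {p l q k a b : ℝ} {n0 n : ℕ} {z : ℕ → ℝ} (ht : Thin p l q k n0 a b n z)
    (w : List (Bool × Bool)) : ∀ j, 1 ≤ j → Parse k n0 n z j w →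
    (|sol b (fun i => 2 * z i) 0 1 j| * HT.wt (Real.sqrt k) (z (n + 1))) ^ 2 ≤
      (w.map uu).prod *
        (|sol b (fun i => 2 * z i) 0 1 (n + 1)| * HT.wt (Real.sqrt k) (z j)) ^ 2 := by
  have hp := h34_par ht.par
  have hk0 := ht.par.num.k0
  have hs : Real.sqrt k ^ 2 = k := Real.sq_sqrt hk0.le
  have hpos : ∀ i, 0 < HT.wt (Real.sqrt k) (z i) := by
    intro i
    have h1 : |z i| ≤ 2 + Real.sqrt k ^ 2 / 1000 := by
      rw [hs]
      exact bound ht.par ht.orb i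
    have h2 := HT.wt_ge hp h1
    have h3 := hp.r0
    linarith
  induction w with
  | nil =>
    intro j _ h
    have h' : j = n + 1 := h
    rw [h', List.map_nil, List.prod_nil, one_mul]
  | cons t w ih =>
    intro j hj h
    obtain ⟨h1, -, -, h4, h5, h6⟩ := h
    rw [List.map_cons, List.prod_cons]
    cases htt : t.1 with
    | true =>
      rw [htt] at h6
      rw [if_pos rfl] at h6
      have h7 := h34_len h6
      have h8 := ih (j + n0 + 1) (by omega) h6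
      have h9 := h34_block ht j hj (by omega) (h4 htt)
      have h10 := h34_comb (abs_nonneg _) (hpos (j + n0 + 1)) (by norm_num) h9 h8
      have e : uu t = 1 / 9 ^ 2 := by
        unfold uu
        rw [htt, if_pos rfl]
        norm_num
      rw [e]
      exact h10
    | false =>
      rw [htt] at h6
      rw [if_neg (by simp)] at h6
      have h8 := ih (j + 1) (by omega) h6
      have h9 := h34_letter ht j hj h1 (h5 htt)
      have h10 := h34_comb (abs_nonneg _) (hpos (j + 1)) (by norm_num) h9 h8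
      have e : uu t = 1 / (9 / 5) ^ 2 := by
        unfold uu
        rw [htt, if_neg (by simp)]
        norm_num
      rw [e]
      exact h10

theorem parse_grow {p l q k a b : ℝ} {n0 n : ℕ} {z : ℕ → ℝ} (ht : Thin p l q k n0 a b n z)
    {w : List (Bool × Bool)} (h : Parse k n0 n z 1 w) :
    1 ≤ 2 * (w.map uu).prod * sol b (fun i => 2 * z i) 0 1 (n + 1) ^ 2 := by
  have hp := h34_par ht.par
  have h1 := h34_ind ht w 1 le_rfl h
  have e1 : sol b (fun i => 2 * z i) 0 1 1 = 1 := rfl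
  rw [e1, abs_one, one_mul, mul_pow, sq_abs] at h1
  have hsk := small_k ht.par.num
  have h2 : |z (n + 1)| ≤ Real.sqrt k := by
    rw [ht.orb.per]
    have := ht.small
    have h100 := hsk.2.2.2.2.2.1
    have hkp := hsk.1
    linarith
  have h3 := h34_wt_low ht.par h2
  have h4 := HT.wt_le hp (z 1)
  have h4' : 0 ≤ HT.wt (Real.sqrt k) (z 1) := Real.sqrt_nonneg _
  have h5 : (19 / 10 : ℝ) ^ 2 ≤ HT.wt (Real.sqrt k) (z (n + 1)) ^ 2 :=
    pow_le_pow_left₀ (by norm_num) h3 2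
  have h6 : HT.wt (Real.sqrt k) (z 1) ^ 2 ≤ (201 / 100) ^ 2 := pow_le_pow_left₀ h4' h4 2
  have hP : 0 ≤ (w.map uu).prod := by
    apply List.prod_nonneg
    intro x hx
    obtain ⟨t, -, rfl⟩ := List.mem_map.1 hx
    unfold uu
    split_ifs <;> norm_num
  set S := sol b (fun i => 2 * z i) 0 1 (n + 1) ^ 2 with hS
  have hS0 : 0 ≤ S := sq_nonneg _
  have hPS : 0 ≤ (w.map uu).prod * S := mul_nonneg hP hS0
  have h7 : (w.map uu).prod * (S * HT.wt (Real.sqrt k) (z 1) ^ 2) ≤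
      (w.map uu).prod * S * (201 / 100) ^ 2 := by
    rw [← mul_assoc]
    exact mul_le_mul_of_nonneg_left h6 hPS
  have h8 : (19 / 10 : ℝ) ^ 2 ≤ (w.map uu).prod * S * (201 / 100) ^ 2 := h5.trans (h1.trans h7)
  have e2 : 2 * (w.map uu).prod * S = 2 * ((w.map uu).prod * S) := by ring
  rw [e2]
  norm_num at h8
  linarith

end Pool.Agent.helper23.HV
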