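import Mathlib

/-!
# The quadratic sum (module HV-QSum)

As HU/QSum.lean (proved there), with `1/l` in place of `71/100` and `9/10`.
`d^2 ≤ 2 (11/10 x P)^2 + 2 q^2`, `P^2 ≤ 11/10 (1/l)^(2 i) + 11 (1/10^4)^J`, `i = n - j`, `J = j + 1`, `i + J = n + 1`.
`(1/l)^J (1/l)^(2 i) = (1/l)^(n+1) (1/l)^i`, sum `≤ (1/l)^(n+1) / (l - 1) ≤ 1/1000`; `(1/50)^i` has sum `≤ 1/49`; the other
two sums are `≤ 10^(-4) * 11/10` each. So `sum |g| P^2 ≤ 5/2 (11/10 (1/1000 + 1/49) + 11 * 3/10^4) ≤ 7/100` and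
`2 (121/100) 7/100 ≤ 1/2`.
-/

namespace Pool.Agent.helper23.HV

open Finset

theorem h26q_geo (n : ℕ) {r : ℝ} (h0 : 0 ≤ r) (h1 : r < 1) :
    ∑ k ∈ range n, r ^ (k + 1) ≤ r / (1 - r) := by
  have hs : (∑ k ∈ range n, r ^ k) * (1 - r) = 1 - r ^ n := geom_sum_mul_neg r n
  have h2 : ∑ k ∈ range n, r ^ (k + 1) = r * ∑ k ∈ range n, r ^ k := by
    rw [mul_sum]; exact sum_congr rfl fun k _ => by ring
  rw [h2, le_div_iff₀ (by linarith), mul_assoc, hs]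
  have : 0 ≤ r ^ n := pow_nonneg h0 n
  nlinarith

theorem h26q_refl (n : ℕ) (r : ℝ) :
    ∑ k ∈ range n, r ^ (n - k) = ∑ k ∈ range n, r ^ (k + 1) := by
  rw [← sum_range_reflect]
  refine sum_congr rfl fun k hk => ?_
  have : k < n := mem_range.1 hk
  congr 1; omega

theorem h26q_T {n : ℕ} {l : ℝ} (hl : 1 < l) (hn : 1000 ≤ l ^ n * (l - 1)) :
    ∑ k ∈ range n, ((1 / l) ^ (k + 1) + (1 / 50) ^ (n - k)) *
      (11 / 10 * ((1 / l) ^ (n - k)) ^ 2 + 11 * (1 / 10 ^ 4) ^ (k + 1)) ≤ 1 / 20 := by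
  have hl0 : 0 < l := by linarith
  have hL0 : 0 ≤ 1 / l := by positivity
  have hL1 : 1 / l ≤ 1 := by rw [div_le_one hl0]; exact hl.le
  have hL1' : 1 / l < 1 := by rw [div_lt_one hl0]; exact hl
  have hterm : ∀ k ∈ range n, ((1 / l) ^ (k + 1) + (1 / 50) ^ (n - k)) *
      (11 / 10 * ((1 / l) ^ (n - k)) ^ 2 + 11 * (1 / 10 ^ 4) ^ (k + 1)) ≤
      11 / 10 * ((1 / l) ^ (n + 1) * (1 / l) ^ (n - k)) + 11 / 10 * (1 / 50) ^ (n - k) +
      11 * (1 / 10 ^ 4) ^ (k + 1) + 11 / 50 * (1 / 10 ^ 4) ^ (k + 1) := by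
    intro k hk
    have hkn : k < n := mem_range.1 hk
    have hA : (1 / l) ^ (k + 1) * ((1 / l) ^ (n - k)) ^ 2 =
        (1 / l) ^ (n + 1) * (1 / l) ^ (n - k) := by
      rw [← pow_mul, ← pow_add, ← pow_add]
      congr 1
      omega
    have hB : (1 / 50 : ℝ) ^ (n - k) * ((1 / l) ^ (n - k)) ^ 2 ≤ (1 / 50) ^ (n - k) := by
      refine mul_le_of_le_one_right (by positivity) ?_
      exact pow_le_one₀ (by positivity) (pow_le_one₀ hL0 hL1)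
    have hC : (1 / l) ^ (k + 1) * (1 / 10 ^ 4) ^ (k + 1) ≤ (1 / 10 ^ 4 : ℝ) ^ (k + 1) :=
      mul_le_of_le_one_left (by positivity) (pow_le_one₀ hL0 hL1)
    have hD : (1 / 50 : ℝ) ^ (n - k) ≤ 1 / 50 := by
      calc (1 / 50 : ℝ) ^ (n - k) ≤ (1 / 50) ^ 1 :=
            pow_le_pow_of_le_one (by norm_num) (by norm_num) (by omega)
        _ = 1 / 50 := by norm_num
    have hD' : (1 / 50 : ℝ) ^ (n - k) * (1 / 10 ^ 4) ^ (k + 1) ≤ 1 / 50 * (1 / 10 ^ 4) ^ (k + 1) :=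
      mul_le_mul_of_nonneg_right hD (by positivity)
    have e : ((1 / l) ^ (k + 1) + (1 / 50) ^ (n - k)) *
        (11 / 10 * ((1 / l) ^ (n - k)) ^ 2 + 11 * (1 / 10 ^ 4) ^ (k + 1)) =
        11 / 10 * ((1 / l) ^ (k + 1) * ((1 / l) ^ (n - k)) ^ 2) +
        11 / 10 * ((1 / 50) ^ (n - k) * ((1 / l) ^ (n - k)) ^ 2) +
        11 * ((1 / l) ^ (k + 1) * (1 / 10 ^ 4) ^ (k + 1)) +
        11 * ((1 / 50) ^ (n - k) * (1 / 10 ^ 4) ^ (k + 1)) := by ring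
    rw [e, hA]
    linarith
  refine (sum_le_sum hterm).trans ?_
  rw [sum_add_distrib, sum_add_distrib, sum_add_distrib, ← mul_sum, ← mul_sum, ← mul_sum,
    ← mul_sum, ← mul_sum, h26q_refl, h26q_refl]
  have g1 := h26q_geo n (r := 1 / l) hL0 hL1'
  have g2 := h26q_geo n (r := 1 / 50) (by norm_num) (by norm_num)
  have g4 := h26q_geo n (r := 1 / 10 ^ 4) (by norm_num) (by norm_num)
  have g1' : (1 / l) ^ (n + 1) * ∑ k ∈ range n, (1 / l) ^ (k + 1) ≤ 1 / 1000 := by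
    refine (mul_le_mul_of_nonneg_left g1 (by positivity)).trans ?_
    have hl1 : 0 < l - 1 := by linarith
    have hln : 0 < l ^ n := by positivity
    have e1 : (1 / l) / (1 - 1 / l) = 1 / (l - 1) := by
      field_simp
    have e2 : (1 / l) ^ (n + 1) * (1 / (l - 1)) = 1 / l * (1 / (l ^ n * (l - 1))) := by
      rw [pow_succ, one_div_pow]
      field_simp
    rw [e1, e2]
    have h3 : 1 / (l ^ n * (l - 1)) ≤ 1 / 1000 :=
      one_div_le_one_div_of_le (by norm_num) hn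
    calc 1 / l * (1 / (l ^ n * (l - 1))) ≤ 1 * (1 / (l ^ n * (l - 1))) :=
          mul_le_mul_of_nonneg_right hL1 (by positivity)
      _ ≤ 1 / 1000 := by linarith
  norm_num at g2 g4 ⊢
  norm_num at g1'
  linarith

theorem qsum {n : ℕ} {l : ℝ} (hl : 1 < l) (hn : 1000 ≤ l ^ n * (l - 1)) {g d : ℕ → ℝ} {x q : ℝ}
    (hx : 0 ≤ x) (hq : 0 ≤ q)
    (hg : ∀ j, j < n → |g (j + 1)| ≤ 5 / 2 * ((1 / l) ^ (j + 1) + (1 / 50) ^ (n - j)))
    (hG : ∑ j ∈ range n, |g (j + 1)| ≤ 1 / 2)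
    (hd : ∀ j, j < n → |d (j + 1)| ≤
      11 / 10 * x * ((1 / l) ^ (n - j) + (1 / 100) ^ (j + 1)) + q) :
    ∑ j ∈ range n, |g (j + 1)| * d (j + 1) ^ 2 ≤ x ^ 2 / 2 + q ^ 2 := by
  have hl0 : 0 < l := by linarith
  have hT := h26q_T hl hn
  set T : ℕ → ℝ := fun k => ((1 / l) ^ (k + 1) + (1 / 50) ^ (n - k)) *
      (11 / 10 * ((1 / l) ^ (n - k)) ^ 2 + 11 * (1 / 10 ^ 4) ^ (k + 1)) with hTdef
  have hterm : ∀ k ∈ range n, |g (k + 1)| * d (k + 1) ^ 2 ≤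
      (121 / 50 * x ^ 2) * (5 / 2) * T k + 2 * q ^ 2 * |g (k + 1)| := by
    intro k hk
    have hkn : k < n := mem_range.1 hk
    have h1 := hg k hkn
    have h2 := hd k hkn
    set p : ℝ := (1 / l) ^ (n - k) + (1 / 100) ^ (k + 1) with hp
    have hp0 : 0 ≤ p := by positivity
    have hdd : d (k + 1) ^ 2 ≤ 121 / 50 * x ^ 2 * p ^ 2 + 2 * q ^ 2 := by
      have h3 : d (k + 1) ^ 2 = |d (k + 1)| ^ 2 := (sq_abs _).symm
      have h4 : |d (k + 1)| ^ 2 ≤ (11 / 10 * x * p + q) ^ 2 :=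
        pow_le_pow_left₀ (abs_nonneg _) h2 2
      rw [h3]
      refine h4.trans ?_
      nlinarith [sq_nonneg (11 / 10 * x * p - q)]
    have hpp : p ^ 2 ≤ 11 / 10 * ((1 / l) ^ (n - k)) ^ 2 + 11 * (1 / 10 ^ 4) ^ (k + 1) := by
      have e2 : (1 / 10 ^ 4 : ℝ) ^ (k + 1) = ((1 / 100) ^ (k + 1)) ^ 2 := by
        rw [← pow_mul, mul_comm, pow_mul]; norm_num
      rw [e2, hp]
      nlinarith [sq_nonneg ((1 / l : ℝ) ^ (n - k) - 10 * (1 / 100) ^ (k + 1))]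
    have hgn : 0 ≤ |g (k + 1)| := abs_nonneg _
    calc |g (k + 1)| * d (k + 1) ^ 2 ≤ |g (k + 1)| * (121 / 50 * x ^ 2 * p ^ 2 + 2 * q ^ 2) :=
          mul_le_mul_of_nonneg_left hdd hgn
      _ = (121 / 50 * x ^ 2) * (|g (k + 1)| * p ^ 2) + 2 * q ^ 2 * |g (k + 1)| := by ring
      _ ≤ (121 / 50 * x ^ 2) * (5 / 2 * T k) + 2 * q ^ 2 * |g (k + 1)| := by
          have h5 : |g (k + 1)| * p ^ 2 ≤ 5 / 2 * T k := by
            have h6 : |g (k + 1)| * p ^ 2 ≤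
                (5 / 2 * ((1 / l) ^ (k + 1) + (1 / 50) ^ (n - k))) *
                (11 / 10 * ((1 / l) ^ (n - k)) ^ 2 + 11 * (1 / 10 ^ 4) ^ (k + 1)) :=
              mul_le_mul h1 hpp (by positivity) (by positivity)
            refine h6.trans (le_of_eq ?_)
            simp only [hTdef]
            ring
          have h7 : 0 ≤ 121 / 50 * x ^ 2 := by positivity
          have := mul_le_mul_of_nonneg_left h5 h7
          linarith
      _ = (121 / 50 * x ^ 2) * (5 / 2) * T k + 2 * q ^ 2 * |g (k + 1)| := by ring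
  refine (sum_le_sum hterm).trans ?_
  rw [sum_add_distrib, ← mul_sum, ← mul_sum]
  have h8 : (121 / 50 * x ^ 2) * (5 / 2) * ∑ k ∈ range n, T k ≤
      (121 / 50 * x ^ 2) * (5 / 2) * (1 / 20) :=
    mul_le_mul_of_nonneg_left hT (by positivity)
  have h9 : 2 * q ^ 2 * ∑ k ∈ range n, |g (k + 1)| ≤ 2 * q ^ 2 * (1 / 2) :=
    mul_le_mul_of_nonneg_left hG (by positivity)
  nlinarith [sq_nonneg x]

end Pool.Agent.helper23.HV
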