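import Pool.Agent.helper23.HV.Grow
import Pool.Agent.helper23.HT.AdjE
import Pool.Agent.helper23.HV.AdjBound
import Pool.Agent.helper23.HV.AdjSum
import Pool.Agent.helper23.HV.Pair
import Pool.Agent.helper23.HV.QSum
import Pool.Agent.helper23.HV.ParseA
import Pool.Agent.helper23.HV.ParseB
import Pool.Agent.helper23.HS.Diff

/-!
# The window estimate for the almost linear strips (helper23)
-/

namespace Pool.Agent.helper23.HV

open Pool.Agent.helper23.HS Finset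

theorem adj {p l q k a b : ℝ} {n0 n : ℕ} {z : ℕ → ℝ} (ht : Thin p l q k n0 a b n z) :
    ∃ g : ℕ → ℝ, g 0 = 1 ∧ g (n + 1) = 1 ∧
      (∀ j, j < n → g j + 2 * z (j + 1) * g (j + 1) - b * g (j + 2) = 0) ∧
      (∀ j, j < n → |g (j + 1)| ≤ 5 / 2 * ((1 / l) ^ (j + 1) + (1 / 50) ^ (n - j))) ∧
      ∑ j ∈ range n, |g (j + 1)| ≤ 1 / 2 ∧
      (g n + 2 * z 0 - b * g 1) * sol b (fun j => 2 * z j) 0 1 (n + 1)
        = chi b (fun j => 2 * z j) n := by
  have hv : sol b (fun j => 2 * z j) 0 1 (n + 1) ≠ 0 := by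
    have h1 := grow_one ht
    intro h0
    rw [h0, abs_zero] at h1
    linarith
  obtain ⟨g, g0, g1, hg, hφ⟩ := Pool.Agent.helper23.HT.adjoint_exists hv
  have hb := adj_bound ht g0 g1 hg
  refine ⟨g, g0, g1, hg, ?_, adj_sum ht g0 g1 hg hb, hφ⟩
  intro j hj
  have h := hb (j + 1) (by omega)
  rwa [show n + 1 - (j + 1) = n - j by omega] at h

theorem phi_le {p l q k a b : ℝ} {n0 n : ℕ} {z : ℕ → ℝ} {φ : ℝ}
    (ht : Thin p l q k n0 a b n z) {w : List (Bool × Bool)} (hw : Parse k n0 n z 1 w)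
    (h : |chi b (fun j => 2 * z j) n| ≤ 4)
    (hφ : φ * sol b (fun j => 2 * z j) 0 1 (n + 1) = chi b (fun j => 2 * z j) n) :
    |φ| ^ 2 ≤ 32 * (w.map uu).prod := by
  have h1 := parse_grow ht hw
  set v := sol b (fun j => 2 * z j) 0 1 (n + 1) with hv
  have h2 : |φ| * |v| ≤ 4 := by rw [← abs_mul, hφ]; exact h
  have h3 : (|φ| * |v|) ^ 2 ≤ 16 := by
    have := mul_nonneg (abs_nonneg φ) (abs_nonneg v)
    nlinarith
  rw [mul_pow, sq_abs v] at h3
  have h4 : 0 ≤ |φ| ^ 2 := by positivity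
  have h6 : 0 ≤ (w.map uu).prod := by
    by_contra hneg
    push Not at hneg
    have : 2 * (w.map uu).prod * v ^ 2 ≤ 0 := by
      have := sq_nonneg v
      nlinarith
    linarith
  calc |φ| ^ 2 = |φ| ^ 2 * 1 := by ring
    _ ≤ |φ| ^ 2 * (2 * (w.map uu).prod * v ^ 2) := mul_le_mul_of_nonneg_left h1 h4
    _ = 2 * (w.map uu).prod * (|φ| ^ 2 * v ^ 2) := by ring
    _ ≤ 2 * (w.map uu).prod * 16 := mul_le_mul_of_nonneg_left h3 (by positivity)
    _ = 32 * (w.map uu).prod := by ring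

theorem quad {p l q k a a' b : ℝ} {n0 n : ℕ} {z z' g : ℕ → ℝ} (ht : Thin p l q k n0 a b n z)
    (ht' : Thin p l q k n0 a' b n z') (hs : ∀ j, 1 ≤ j → j ≤ n → 0 < z j * z' j)
    (hg : ∀ j, j < n → |g (j + 1)| ≤ 5 / 2 * ((1 / l) ^ (j + 1) + (1 / 50) ^ (n - j)))
    (hG : ∑ j ∈ range n, |g (j + 1)| ≤ 1 / 2) :
    |∑ j ∈ range n, g (j + 1) * (z' (j + 1) - z (j + 1)) ^ 2|
      ≤ |z' 0 - z 0| ^ 2 / 2 + (11 / (l - 1) * |a' - a| / k ^ p) ^ 2 := by
  have hr : 0 < k ^ p := (small_k ht.par.num).1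
  have hl := ht.par.num.l0
  have hl1 : 0 < l - 1 := by linarith
  have hn : 1000 ≤ l ^ n * (l - 1) := by
    have h1 := ht.par.num.n3
    have h2 : l ^ n0 ≤ l ^ n := pow_le_pow_right₀ hl.le (n_large ht)
    nlinarith
  have hq := qsum (d := fun j => z' j - z j) hl hn (abs_nonneg (z' 0 - z 0))
    (by positivity : 0 ≤ 11 / (l - 1) * |a' - a| / k ^ p) hg hG
    (fun j hj => pair ht ht' hs j hj)
  refine le_trans (Finset.abs_sum_le_sum_abs _ _) (le_trans (le_of_eq ?_) hq)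
  apply Finset.sum_congr rfl
  intro j _
  rw [abs_mul, abs_pow, sq_abs]

theorem one_side {p l q k a a' b : ℝ} {n0 n : ℕ} {z z' : ℕ → ℝ}
    (ht : Thin p l q k n0 a b n z) (ht' : Thin p l q k n0 a' b n z')
    (hs : ∀ j, 1 ≤ j → j ≤ n → 0 < z j * z' j) {w : List (Bool × Bool)}
    (hw' : Parse k n0 n z' 1 w)
    (h' : |chi b (fun j => 2 * z' j) n| ≤ 4) (hle : a ≤ a')
    (he1 : a' - a ≤ ((l - 1) * k ^ p) ^ 2 / 500) :
    a' - a ≤ 64 * (w.map uu).prod := by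
  have hr : 0 < k ^ p := (small_k ht.par.num).1
  have hl := ht.par.num.l0
  have hl1 : 0 < l - 1 := by linarith
  obtain ⟨g, g0, g1, hg, hgb, hG, hφ⟩ := adj ht'
  have hφ' := phi_le ht' hw' h' hφ
  have hid := ident ht'.orb ht.orb g0 g1 hg
  have hsum := quad ht' ht (fun j h1 h2 => by rw [mul_comm]; exact hs j h1 h2) hgb hG
  set e := a' - a with he
  have he0 : 0 ≤ e := by rw [he]; linarith
  set x := |z 0 - z' 0| with hx
  have hx0 : 0 ≤ x := abs_nonneg _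
  set Q := ∑ j ∈ range n, g (j + 1) * (z (j + 1) - z' (j + 1)) ^ 2 with hQ
  have hea : |a - a'| = e := by rw [abs_sub_comm]; exact abs_of_nonneg he0
  rw [hea] at hsum
  have hS : 1 / 2 ≤ 1 + ∑ j ∈ range n, g (j + 1) := by
    have h1 : |∑ j ∈ range n, g (j + 1)| ≤ 1 / 2 := (Finset.abs_sum_le_sum_abs _ _).trans hG
    have := (abs_le.1 h1).1
    linarith
  set S := 1 + ∑ j ∈ range n, g (j + 1) with hSd
  set φ := g n + 2 * z' 0 - b * g 1 with hφd
  have hid' : φ * (z 0 - z' 0) + (z 0 - z' 0) ^ 2 + Q = (a - a') * S := hid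
  have hxsq : (z 0 - z' 0) ^ 2 = x ^ 2 := by rw [hx, sq_abs]
  have h5 : -(φ * (z 0 - z' 0)) ≤ |φ| * x := by
    calc -(φ * (z 0 - z' 0)) ≤ |φ * (z 0 - z' 0)| := neg_le_abs _
      _ = |φ| * x := by rw [abs_mul]
  have h6 := (abs_le.1 hsum).1
  have h7 : e / 2 ≤ e * S := by nlinarith
  have h8 : e * S = -(φ * (z 0 - z' 0)) - x ^ 2 - Q := by
    rw [← hxsq]
    have : e * S = -((a - a') * S) := by rw [he]; ring
    rw [this, ← hid']
    ring
  have h9 : (11 / (l - 1) * e / k ^ p) ^ 2 ≤ e / 4 := by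
    have h1 : 11 / (l - 1) * e / k ^ p = 11 * e / ((l - 1) * k ^ p) := by
      field_simp
    rw [h1, div_pow, div_le_iff₀ (by positivity)]
    have : e * e ≤ e * (((l - 1) * k ^ p) ^ 2 / 500) := mul_le_mul_of_nonneg_left he1 he0
    nlinarith
  have h10 : e / 4 ≤ |φ| * x - 1 / 2 * x ^ 2 := by linarith
  have h11 : |φ| * x - 1 / 2 * x ^ 2 ≤ |φ| ^ 2 / 2 := by nlinarith [sq_nonneg (x - |φ|)]
  linarith

theorem window {p l q k a a' b : ℝ} {n0 n : ℕ} {z z' : ℕ → ℝ}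
    (ht : Thin p l q k n0 a b n z) (ht' : Thin p l q k n0 a' b n z')
    {w : List (Bool × Bool)} (hw : Parse k n0 n z 1 w) (hw' : Parse k n0 n z' 1 w)
    (h : |chi b (fun j => 2 * z j) n| ≤ 4) (h' : |chi b (fun j => 2 * z' j) n| ≤ 4)
    (hd : |a' - a| ≤ ((l - 1) * k ^ p) ^ 2 / 500) :
    |a' - a| ≤ 64 * (w.map uu).prod := by
  have hs := parse_signs ht ht' hw hw'
  rcases le_total a a' with hle | hle
  · rw [abs_of_nonneg (by linarith)] at hd ⊢
    exact one_side ht ht' hs hw' h' hle hd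
  · rw [abs_sub_comm, abs_of_nonneg (by linarith)] at hd ⊢
    exact one_side ht' ht (fun j h1 h2 => by rw [mul_comm]; exact hs j h1 h2) hw h hle hd

theorem unique {p l q k a b : ℝ} {n0 n : ℕ} {z z' : ℕ → ℝ} (ht : Thin p l q k n0 a b n z)
    (ht' : Thin p l q k n0 a b n z') (hs : ∀ j, 1 ≤ j → j ≤ n → 0 < z j * z' j)
    (h : 0 < chi b (fun j => 2 * z j) n) (h' : 0 < chi b (fun j => 2 * z' j) n) :
    ∀ j, j ≤ n → z j = z' j := by
  have hs' : ∀ j, 1 ≤ j → j ≤ n → 0 < z' j * z j :=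
    fun j h1 h2 => by rw [mul_comm]; exact hs j h1 h2
  obtain ⟨g, g0, g1, hg, hgb, hG, hφ⟩ := adj ht
  obtain ⟨g', g0', g1', hg', hgb', hG', hφ'⟩ := adj ht'
  have hid := ident ht.orb ht'.orb g0 g1 hg
  have hid' := ident ht'.orb ht.orb g0' g1' hg'
  have hv := signs ht ht' hs
  have hsum := (abs_le.1 (quad ht ht' hs hgb hG)).1
  have hsum' := (abs_le.1 (quad ht' ht hs' hgb' hG')).1
  have hp := pair ht ht' hs
  rw [abs_sub_comm (z 0) (z' 0)] at hsum'
  simp only [sub_self, abs_zero, mul_zero, zero_div, ne_eq, OfNat.ofNat_ne_zero,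
    not_false_eq_true, zero_pow, add_zero, sq_abs] at hsum hsum' hp
  set x := z' 0 - z 0 with hx
  set φ := g n + 2 * z 0 - b * g 1 with hφd
  set φ' := g' n + 2 * z' 0 - b * g' 1 with hφd'
  set Q := ∑ j ∈ range n, g (j + 1) * (z' (j + 1) - z (j + 1)) ^ 2 with hQ
  set Q' := ∑ j ∈ range n, g' (j + 1) * (z (j + 1) - z' (j + 1)) ^ 2 with hQ'
  have e1 : φ * x + x ^ 2 + Q = 0 := by
    have : φ * x + x ^ 2 + Q = (a - a) * (1 + ∑ j ∈ range n, g (j + 1)) := hid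
    rw [this]; ring
  have e2 : φ' * (-x) + x ^ 2 + Q' = 0 := by
    have h1 : φ' * (z 0 - z' 0) + (z 0 - z' 0) ^ 2 + Q'
      = (a - a) * (1 + ∑ j ∈ range n, g' (j + 1)) := hid'
    have h2 : z 0 - z' 0 = -x := by rw [hx]; ring
    rw [h2] at h1
    nlinarith
  have f1 : φ * x ≤ -(1 / 2) * x ^ 2 := by linarith
  have f2 : 1 / 2 * x ^ 2 ≤ φ' * x := by linarith
  have hpp : 0 < φ * φ' := by
    set v := sol b (fun j => 2 * z j) 0 1 (n + 1)
    set v' := sol b (fun j => 2 * z' j) 0 1 (n + 1)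
    have h1 : 0 < (φ * v) * (φ' * v') := by rw [hφ, hφ']; exact mul_pos h h'
    have h2 : (φ * v) * (φ' * v') = (φ * φ') * (v * v') := by ring
    rw [h2] at h1
    exact (mul_pos_iff_of_pos_right hv).1 h1
  have hx0 : x = 0 := by
    by_contra hne
    have hx2 : 0 < x ^ 2 := by positivity
    have h3 : (φ * x) * (φ' * x) < 0 := by
      apply mul_neg_of_neg_of_pos <;> nlinarith
    have h4 : (φ * x) * (φ' * x) = (φ * φ') * x ^ 2 := by ring
    rw [h4] at h3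
    exact absurd (mul_pos hpp hx2) (not_lt.2 h3.le)
  intro j hj
  rcases Nat.eq_zero_or_pos j with rfl | hj0
  · linarith
  · obtain ⟨i, rfl⟩ : ∃ i, j = i + 1 := ⟨j - 1, by omega⟩
    have := hp i (by omega)
    rw [hx0, abs_zero, mul_zero, zero_mul] at this
    have h5 := abs_eq_zero.1 (le_antisymm this (abs_nonneg _))
    linarith

end Pool.Agent.helper23.HV
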