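import Pool.Agent.helper23.HS.Defs

/-!
# Almost linear strips near the parameter (2, 0): definitions

The strip is `|z| ≤ 2 k^p`, `5/8 ≤ p < 1`, where `|a - 2|`, `b ≤ k/1000`. Every visit to `|z| ≤ √k` is followed
by `n0` steps near `2, -2, -2, ...`.
-/

namespace Pool.Agent.helper23.HV

open Pool.Agent.helper23.HS

/-- The numerical conditions. -/
structure Num (p l q k : ℝ) (n0 : ℕ) : Prop where
  p0 : 5 / 8 ≤ p
  p1 : p < 1
  l0 : 1 < l
  l1 : l * (1 + k ^ ((1 - p) / 2)) ≤ (2 : ℝ) ^ (1 - p)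
  l2 : k ^ ((1 - p) / 2) ≤ (l - 1) / 10
  q0 : 4 < q
  q1 : q ≤ 41 / 10
  k0 : 0 < k
  k1 : k ≤ 1 / 10 ^ 24
  n1 : 2 * q ^ n0 * k ≤ (q - 4) ^ 2
  n2 : 10 ≤ 4 ^ n0 * k ^ p
  n3 : 1000 ≤ l ^ n0 * (l - 1)
  n4 : (n0 + 1) * k ^ (1 - p) ≤ 1

/-- The parameters. -/
structure Par (p l q k : ℝ) (n0 : ℕ) (a b : ℝ) : Prop where
  num : Num p l q k n0
  ha : |a - 2| ≤ k / 1000
  b0 : 0 < b
  b1 : b ≤ k / 1000

/-- `z` is the scaled orbit of a point of period `n + 1` with one visit to the strip, at time `0`. -/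
structure Thin (p l q k : ℝ) (n0 : ℕ) (a b : ℝ) (n : ℕ) (z : ℕ → ℝ) : Prop where
  par : Par p l q k n0 a b
  orb : Orb a b (4 * k ^ p) n z
  small : |z 0| ≤ 2 * k ^ p

/-- The weight. -/
noncomputable def wt (p k x : ℝ) : ℝ := ((2 + k / 8) ^ 2 - x ^ 2) ^ p

/-- The token list `w` describes the orbit from time `j` on: a token `(false, s)` is one point outside
`|z| < √k` with sign `s`; a token `(true, s)` is a point of `|z| ≤ √k` with sign `s` together with the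
following `n0` points. -/
def Parse (k : ℝ) (n0 n : ℕ) (z : ℕ → ℝ) : ℕ → List (Bool × Bool) → Prop
  | j, [] => j = n + 1
  | j, t :: w => j ≤ n ∧ (t.2 = true → 0 ≤ z j) ∧ (t.2 = false → z j ≤ 0) ∧
      (t.1 = true → |z j| ≤ Real.sqrt k) ∧ (t.1 = false → Real.sqrt k ≤ |z j|) ∧
      Parse k n0 n z (if t.1 then j + n0 + 1 else j + 1) w

/-- The number of points described. -/
def len (n0 : ℕ) : List (Bool × Bool) → ℕ
  | [] => 0
  | t :: w => (if t.1 then n0 + 1 else 1) + len n0 w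

/-- The weight of a token. -/
noncomputable def uu (t : Bool × Bool) : ℝ := if t.1 then 1 / 81 else 25 / 81

/-- The windows. -/
def TT (p l q k : ℝ) (n0 : ℕ) (b : ℝ) (w : List (Bool × Bool)) : Set ℝ :=
  {a | ∃ z : ℕ → ℝ, Thin p l q k n0 a b (len n0 w) z ∧ Parse k n0 (len n0 w) z 1 w ∧
    |chi b (fun j => 2 * z j) (len n0 w)| ≤ 4}

end Pool.Agent.helper23.HV
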