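import Pool.Agent.helper23.HV.Defs
import Pool.Agent.helper23.HS.Dim

/-!
# Sets covered infinitely often by small windows, token version (module HV-Dim)

Same proof as HS/Dim.lean (words over the four letters `Bool × Bool`, the window of `w` has local diameter
at most `C (w.map uu).prod`): for `s ≥ 3/4` the sum over words of length `n` of `((w.map uu).prod)^s` is
`(2 (25/81)^s + 2 (1/81)^s)^n` and `2 (25/81)^(3/4) + 2 (1/81)^(3/4) < 1`
(`(1/81)^(3/4) = 1/27`, `(25/81)^(3/4) = 25^(3/4)/27`, `25^3 = 15625 < 11.2^4`, `2 (11.2 + 1)/27 < 1`).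
-/

namespace Pool.Agent.helper23.HV

open MeasureTheory Set Filter Topology
open scoped ENNReal NNReal

lemma h33_uu_nonneg (t : Bool × Bool) : 0 ≤ uu t := by
  unfold uu
  split_ifs <;> norm_num

lemma h33_uu_le (t : Bool × Bool) : uu t ≤ 25 / 81 := by
  unfold uu
  split_ifs <;> norm_num

/-- the windows: words of length `N + k`, cut with `J` -/
def h33_win (T : List (Bool × Bool) → Set ℝ) (J : Set ℝ) (N : ℕ)
    (i : Σ k : ℕ, (Fin (N + k) → Bool × Bool)) : Set ℝ :=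
  T (List.ofFn i.2) ∩ J

lemma h33_win_cover (T : List (Bool × Bool) → Set ℝ) (J : Set ℝ) (N : ℕ) :
    {a | {w | a ∈ T w}.Infinite} ∩ J ⊆ ⋃ i, h33_win T J N i := by
  rintro a ⟨ha, haJ⟩
  replace ha : {w | a ∈ T w}.Infinite := ha
  have h1 : ∃ w, a ∈ T w ∧ N ≤ w.length := by
    by_contra hcon
    push Not at hcon
    apply ha
    apply (List.finite_length_lt (Bool × Bool) N).subset
    intro w hw
    exact hcon w hw
  obtain ⟨w, hw, hN⟩ := h1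
  obtain ⟨k, hk⟩ := Nat.exists_eq_add_of_le hN
  have h2 : ∃ g : Fin w.length → Bool × Bool, List.ofFn g = w := ⟨w.get, List.ofFn_get w⟩
  rw [hk] at h2
  obtain ⟨g, hg⟩ := h2
  rw [mem_iUnion]
  refine ⟨⟨k, g⟩, ?_, haJ⟩
  show a ∈ T (List.ofFn g)
  rw [hg]; exact hw

lemma h33_win_diam {T : List (Bool × Bool) → Set ℝ} {C δ : ℝ} {J : Set ℝ}
    (hT : ∀ w, ∀ x ∈ T w, ∀ y ∈ T w, |x - y| ≤ δ → |x - y| ≤ C * (w.map uu).prod)
    (hJ : ∀ x ∈ J, ∀ y ∈ J, |x - y| ≤ δ) (N : ℕ) (i : Σ k : ℕ, (Fin (N + k) → Bool × Bool)) :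
    Metric.ediam (h33_win T J N i) ≤ ENNReal.ofReal C * ∏ j, ENNReal.ofReal (uu (i.2 j)) := by
  apply Metric.ediam_le
  rintro x ⟨hx, hxJ⟩ y ⟨hy, hyJ⟩
  have h1 := hT _ x hx y hy (hJ x hxJ y hyJ)
  rw [List.map_ofFn, List.prod_ofFn] at h1
  have h2 : 0 ≤ ∏ j, uu (i.2 j) := Finset.prod_nonneg fun j _ => h33_uu_nonneg _
  rw [edist_dist, Real.dist_eq, ← ENNReal.ofReal_prod_of_nonneg (fun j _ => h33_uu_nonneg _),
    ← ENNReal.ofReal_mul' h2]
  exact ENNReal.ofReal_le_ofReal h1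

lemma h33_prod_le (N : ℕ) (i : Σ k : ℕ, (Fin (N + k) → Bool × Bool)) :
    ∏ j, ENNReal.ofReal (uu (i.2 j)) ≤ ENNReal.ofReal (25 / 81) ^ N := by
  have h1 : ∏ j, ENNReal.ofReal (uu (i.2 j)) ≤ ∏ _j : Fin (N + i.1), ENNReal.ofReal (25 / 81) :=
    Finset.prod_le_prod' fun j _ => ENNReal.ofReal_le_ofReal (h33_uu_le _)
  rw [Finset.prod_const, Finset.card_univ, Fintype.card_fin] at h1
  refine h1.trans (pow_le_pow_right_of_le_one' ?_ (Nat.le_add_right N i.1))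
  rw [show (1 : ℝ≥0∞) = ENNReal.ofReal 1 by simp]
  exact ENNReal.ofReal_le_ofReal (by norm_num)

/-- the sum over the letters -/
noncomputable def h33_q (s : ℝ) : ℝ≥0∞ := ∑ t : Bool × Bool, ENNReal.ofReal (uu t) ^ s

lemma h33_tsum_le (A : ℝ≥0∞) (s : ℝ) (hs : 0 ≤ s) (N : ℕ) :
    ∑' i : (Σ k : ℕ, (Fin (N + k) → Bool × Bool)), (A * ∏ j, ENNReal.ofReal (uu (i.2 j))) ^ s =
      A ^ s * (h33_q s ^ N * ∑' k : ℕ, h33_q s ^ k) := by
  rw [ENNReal.tsum_sigma', ← ENNReal.tsum_mul_left, ← ENNReal.tsum_mul_left]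
  apply tsum_congr
  intro k
  show ∑' g : (Fin (N + k) → Bool × Bool), (A * ∏ j, ENNReal.ofReal (uu (g j))) ^ s = _
  rw [tsum_fintype]
  have h1 : ∀ g : (Fin (N + k) → Bool × Bool), (A * ∏ j, ENNReal.ofReal (uu (g j))) ^ s =
      A ^ s * ∏ j, ENNReal.ofReal (uu (g j)) ^ s := by
    intro g
    rw [ENNReal.mul_rpow_of_nonneg _ _ hs, ENNReal.prod_rpow_of_nonneg hs]
  simp_rw [h1]
  rw [← Finset.mul_sum, ← Fintype.sum_pow (fun t : Bool × Bool => ENNReal.ofReal (uu t) ^ s),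
    ← pow_add]
  rfl

lemma h33_real : 2 * (1 / 81 : ℝ) ^ (3 / 4 : ℝ) + 2 * (25 / 81 : ℝ) ^ (3 / 4 : ℝ) < 1 := by
  have h1 : (1 / 81 : ℝ) ^ (3 / 4 : ℝ) = 1 / 27 := by
    rw [show (1 / 81 : ℝ) = (1 / 3) ^ (4 : ℝ) by norm_num, ← Real.rpow_mul (by norm_num),
      show (4 : ℝ) * (3 / 4) = ((3 : ℕ) : ℝ) by norm_num, Real.rpow_natCast]
    norm_num
  have h2 : (25 / 81 : ℝ) ^ (3 / 4 : ℝ) ≤ 56 / 135 := by
    have h3 : (25 / 81 : ℝ) ^ (3 / 4 : ℝ) = ((25 / 81 : ℝ) ^ 3) ^ (1 / 4 : ℝ) := by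
      rw [← Real.rpow_natCast, ← Real.rpow_mul (by norm_num)]
      norm_num
    have h4 : (56 / 135 : ℝ) = ((56 / 135 : ℝ) ^ 4) ^ (1 / 4 : ℝ) := by
      rw [← Real.rpow_natCast, ← Real.rpow_mul (by norm_num)]
      norm_num
    rw [h3, h4]
    apply Real.rpow_le_rpow (by positivity) _ (by norm_num)
    norm_num
  rw [h1]
  linarith

lemma h33_q_lt : h33_q (3 / 4) < 1 := by
  have h0 : h33_q (3 / 4) = ENNReal.ofReal
      (2 * (1 / 81 : ℝ) ^ (3 / 4 : ℝ) + 2 * (25 / 81 : ℝ) ^ (3 / 4 : ℝ)) := by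
    have h1 : ∀ t : Bool × Bool, ENNReal.ofReal (uu t) ^ (3 / 4 : ℝ) =
        ENNReal.ofReal (uu t ^ (3 / 4 : ℝ)) := fun t =>
      ENNReal.ofReal_rpow_of_nonneg (h33_uu_nonneg t) (by norm_num)
    unfold h33_q
    simp_rw [h1]
    rw [← ENNReal.ofReal_sum_of_nonneg fun t _ => Real.rpow_nonneg (h33_uu_nonneg t) _]
    congr 1
    rw [Fintype.sum_prod_type]
    simp only [Fintype.sum_bool, uu]
    norm_num
    ring
  rw [h0, show (1 : ℝ≥0∞) = ENNReal.ofReal 1 by simp]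
  exact (ENNReal.ofReal_lt_ofReal_iff (by norm_num)).mpr h33_real

lemma h33_measure_zero {T : List (Bool × Bool) → Set ℝ} {C δ : ℝ} {J : Set ℝ}
    (hT : ∀ w, ∀ x ∈ T w, ∀ y ∈ T w, |x - y| ≤ δ → |x - y| ≤ C * (w.map uu).prod)
    (hJ : ∀ x ∈ J, ∀ y ∈ J, |x - y| ≤ δ) :
    μH[(3 / 4 : ℝ)] ({a | {w | a ∈ T w}.Infinite} ∩ J) = 0 := by
  have hs0 : (0 : ℝ) ≤ 3 / 4 := by norm_num
  set R : ℝ≥0∞ := ENNReal.ofReal (25 / 81) with hR
  set q : ℝ≥0∞ := h33_q (3 / 4) with hq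
  have hq1 : q < 1 := h33_q_lt
  set A : ℝ≥0∞ := ENNReal.ofReal C with hA
  have hA1 : A ≠ ∞ := ENNReal.ofReal_ne_top
  set r : ℕ → ℝ≥0∞ := fun N => A * R ^ N with hr
  have h4 : R < 1 := by
    rw [hR, show (1 : ℝ≥0∞) = ENNReal.ofReal 1 by simp]
    exact (ENNReal.ofReal_lt_ofReal_iff (by norm_num)).mpr (by norm_num)
  have hr0 : Tendsto r atTop (𝓝 0) := by
    have h := ENNReal.Tendsto.const_mul (ENNReal.tendsto_pow_atTop_nhds_zero_of_lt_one h4)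
      (Or.inr hA1) (a := A)
    rw [mul_zero] at h
    exact h
  have h5 := Measure.hausdorffMeasure_le_liminf_tsum
    (ι := fun N => Σ k : ℕ, (Fin (N + k) → Bool × Bool))
    (3 / 4) ({a | {w | a ∈ T w}.Infinite} ∩ J) (l := atTop) r hr0 (fun N i => h33_win T J N i)
    (Eventually.of_forall (fun N i => by
      refine (h33_win_diam hT hJ N i).trans ?_
      rw [hr]
      show A * _ ≤ A * _
      exact mul_le_mul_right (h33_prod_le N i) A))
    (Eventually.of_forall (fun N => h33_win_cover T J N))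
  have h6 : Tendsto (fun N : ℕ => A ^ (3 / 4 : ℝ) * (q ^ N * ∑' k : ℕ, q ^ k)) atTop (𝓝 0) := by
    have h7 : ∑' k : ℕ, q ^ k ≠ ∞ := by
      rw [ENNReal.tsum_geometric]
      rw [ENNReal.inv_ne_top]
      exact (tsub_pos_of_lt hq1).ne'
    have h8 := ENNReal.Tendsto.mul_const (ENNReal.tendsto_pow_atTop_nhds_zero_of_lt_one hq1)
      (Or.inr h7) (b := ∑' k : ℕ, q ^ k)
    rw [zero_mul] at h8
    have h9 := ENNReal.Tendsto.const_mul h8 (Or.inr (ENNReal.rpow_ne_top_of_nonneg hs0 hA1))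
      (a := A ^ (3 / 4 : ℝ))
    rw [mul_zero] at h9
    exact h9
  have h7 : Tendsto (fun N => ∑' i, Metric.ediam (h33_win T J N i) ^ (3 / 4 : ℝ)) atTop (𝓝 0) := by
    refine tendsto_of_tendsto_of_tendsto_of_le_of_le tendsto_const_nhds h6 (fun _ => bot_le) ?_
    intro N
    show _ ≤ A ^ (3 / 4 : ℝ) * (q ^ N * ∑' k : ℕ, q ^ k)
    rw [← h33_tsum_le A (3 / 4) hs0 N]
    apply ENNReal.tsum_le_tsum
    intro i
    exact ENNReal.rpow_le_rpow (h33_win_diam hT hJ N i) hs0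
  rw [h7.liminf_eq] at h5
  exact le_antisymm h5 bot_le

theorem dimH_io {T : List (Bool × Bool) → Set ℝ} {C δ : ℝ} (hδ : 0 < δ)
    (hT : ∀ w, ∀ x ∈ T w, ∀ y ∈ T w, |x - y| ≤ δ → |x - y| ≤ C * (w.map uu).prod) :
    dimH {a | {w | a ∈ T w}.Infinite} ≤ 3 / 4 := by
  set E : Set ℝ := {a | {w | a ∈ T w}.Infinite} with hE
  set J : ℤ → Set ℝ := fun j => Icc (j * δ) ((j + 1) * δ) with hJ
  have hcov : E = ⋃ j, E ∩ J j := by
    rw [← inter_iUnion]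
    have : (⋃ j, J j) = univ := by
      rw [eq_univ_iff_forall]
      intro x
      rw [mem_iUnion]
      refine ⟨⌊x / δ⌋, ?_, ?_⟩
      · have := Int.floor_le (x / δ)
        rwa [le_div_iff₀ hδ] at this
      · have := Int.lt_floor_add_one (x / δ)
        rw [div_lt_iff₀ hδ] at this
        exact this.le
    rw [this, inter_univ]
  have hJd : ∀ j, ∀ x ∈ J j, ∀ y ∈ J j, |x - y| ≤ δ := by
    intro j x hx y hy
    rw [abs_le]
    have h1 := hx.1; have h2 := hx.2; have h3 := hy.1; have h4 := hy.2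
    constructor <;> nlinarith
  rw [hcov, dimH_iUnion]
  apply iSup_le
  intro j
  have e : ((3 / 4 : ℝ≥0) : ℝ≥0∞) = 3 / 4 := by
    rw [ENNReal.coe_div (by norm_num)]
    norm_num
  rw [← e]
  apply dimH_le_of_hausdorffMeasure_ne_top
  have e2 : ((3 / 4 : ℝ≥0) : ℝ) = 3 / 4 := by norm_num
  rw [e2, h33_measure_zero hT (hJd j)]
  exact ENNReal.zero_ne_top

theorem volume_zero {S : Set ℝ} (h : dimH S ≤ 3 / 4) : volume S = 0 := by
  have h1 : dimH S < ((1 : ℝ≥0) : ℝ≥0∞) := by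
    rw [ENNReal.coe_one]
    refine lt_of_le_of_lt h ?_
    rw [ENNReal.div_lt_iff (Or.inl (by norm_num)) (Or.inl (by norm_num)), one_mul]
    norm_num
  have h2 := hausdorffMeasure_of_dimH_lt h1
  rw [NNReal.coe_one, hausdorffMeasure_real] at h2
  exact h2

end Pool.Agent.helper23.HV
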