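import Pool.Agent.helper23.HV.Defs

/-!
# The numerical conditions can be satisfied (module HV-Exist)

`l = (1 + 2^(1-p))/2`, `c = (1-p)/2`, `t = (1+p)/2 = p + c`, `4 < q ≤ 41/10` with `q^t ≤ 4`. All conditions
follow from `k^c ≤ D` and `k ≤ E` for suitable positive `D`, `E`.
-/

namespace Pool.Agent.helper23.HV

theorem exists_num {p : ℝ} (hp0 : 5 / 8 ≤ p) (hp1 : p < 1) :
    ∃ l q k0 : ℝ, 1 < l ∧ 0 < k0 ∧ ∀ k : ℝ, 0 < k → k ≤ k0 → ∃ n0 : ℕ, Num p l q k n0 := by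
  obtain ⟨c, hc⟩ : ∃ c : ℝ, c = (1 - p) / 2 := ⟨_, rfl⟩
  have hc0 : 0 < c := by linarith
  obtain ⟨L, hL⟩ : ∃ L : ℝ, L = (2 : ℝ) ^ (1 - p) := ⟨_, rfl⟩
  have hL1 : 1 < L := by
    rw [hL]
    exact Real.one_lt_rpow (by norm_num) (by linarith)
  obtain ⟨l, hl⟩ : ∃ l : ℝ, l = (1 + L) / 2 := ⟨_, rfl⟩
  have hl1 : 1 < l := by linarith
  have hlL : l < L := by linarith
  obtain ⟨t, ht⟩ : ∃ t : ℝ, t = p + c := ⟨_, rfl⟩
  have ht0 : 0 < t := by linarith
  have ht1 : t < 1 := by linarith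
  have hq1 : (4 : ℝ) < (4 : ℝ) ^ (1 / t) := by
    calc (4 : ℝ) = (4 : ℝ) ^ (1 : ℝ) := (Real.rpow_one _).symm
      _ < (4 : ℝ) ^ (1 / t) := by
          apply Real.rpow_lt_rpow_of_exponent_lt (by norm_num)
          rw [lt_div_iff₀ ht0]
          linarith
  have hq1t : ((4 : ℝ) ^ (1 / t)) ^ t = 4 := by
    rw [← Real.rpow_mul (by norm_num), one_div_mul_cancel ht0.ne', Real.rpow_one]
  obtain ⟨q, hq⟩ : ∃ q : ℝ, q = min ((4 : ℝ) ^ (1 / t)) (41 / 10) := ⟨_, rfl⟩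
  have hq4 : 4 < q := by
    rw [hq]
    exact lt_min hq1 (by norm_num)
  have hq41 : q ≤ 41 / 10 := by
    rw [hq]
    exact min_le_right _ _
  have hq0 : 0 < q := by linarith
  have hqt : q ^ t ≤ 4 := by
    calc q ^ t ≤ ((4 : ℝ) ^ (1 / t)) ^ t := by
          apply Real.rpow_le_rpow hq0.le _ ht0.le
          rw [hq]
          exact min_le_left _ _
      _ = 4 := hq1t
  obtain ⟨N, hN⟩ := pow_unbounded_of_one_lt (1000 / (l - 1)) hl1
  have hqc : 1 < q ^ c := Real.one_lt_rpow (by linarith) hc0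
  obtain ⟨h, hh⟩ : ∃ h : ℝ, h = min 1 (q ^ c - 1) := ⟨_, rfl⟩
  have hh0 : 0 < h := by
    rw [hh]
    exact lt_min one_pos (by linarith)
  have hh1 : h ≤ 1 := by
    rw [hh]
    exact min_le_left _ _
  have hh2 : 1 + h ≤ q ^ c := by
    have : h ≤ q ^ c - 1 := by
      rw [hh]
      exact min_le_right _ _
    linarith
  have hq44 : 0 < (q - 4) ^ 2 := by
    have : 0 < q - 4 := by linarith
    positivity
  obtain ⟨C, hC⟩ : ∃ C : ℝ, C = ((q - 4) ^ 2 / (2 * q)) ^ t := ⟨_, rfl⟩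
  have hC0 : 0 < C := by
    rw [hC]
    apply Real.rpow_pos_of_pos
    positivity
  obtain ⟨D, hD⟩ : ∃ D : ℝ, D = min (min ((L - l) / l) ((l - 1) / 10)) (min h (C / 10)) :=
    ⟨_, rfl⟩
  have hD0 : 0 < D := by
    rw [hD]
    refine lt_min (lt_min ?_ ?_) (lt_min hh0 (by positivity))
    · apply div_pos <;> linarith
    · linarith
  have hD1 : D ≤ (L - l) / l := by
    rw [hD]
    exact (min_le_left _ _).trans (min_le_left _ _)
  have hD2 : D ≤ (l - 1) / 10 := by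
    rw [hD]
    exact (min_le_left _ _).trans (min_le_right _ _)
  have hD3 : D ≤ h := by
    rw [hD]
    exact (min_le_right _ _).trans (min_le_left _ _)
  have hD4 : D ≤ C / 10 := by
    rw [hD]
    exact (min_le_right _ _).trans (min_le_right _ _)
  obtain ⟨E, hE⟩ : ∃ E : ℝ, E = min (1 / 10 ^ 24) ((q - 4) ^ 2 / (2 * q ^ (N + 1))) := ⟨_, rfl⟩
  have hE0 : 0 < E := by
    rw [hE]
    exact lt_min (by norm_num) (by positivity)
  have hE1 : E ≤ 1 / 10 ^ 24 := by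
    rw [hE]
    exact min_le_left _ _
  have hE2 : E ≤ (q - 4) ^ 2 / (2 * q ^ (N + 1)) := by
    rw [hE]
    exact min_le_right _ _
  refine ⟨l, q, min E (D ^ (1 / c)), hl1, lt_min hE0 (Real.rpow_pos_of_pos hD0 _), ?_⟩
  intro k hk hkk
  have hkE : k ≤ E := hkk.trans (min_le_left _ _)
  have hkc0 : 0 < k ^ c := Real.rpow_pos_of_pos hk _
  have hkD : k ^ c ≤ D := by
    calc k ^ c ≤ (D ^ (1 / c)) ^ c :=
          Real.rpow_le_rpow hk.le (hkk.trans (min_le_right _ _)) hc0.le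
      _ = D := by
          rw [← Real.rpow_mul hD0.le, one_div_mul_cancel hc0.ne', Real.rpow_one]
  obtain ⟨x, hx⟩ : ∃ x : ℝ, x = (q - 4) ^ 2 / (2 * k) := ⟨_, rfl⟩
  have hxN : q ^ (N + 1) ≤ x := by
    have h1 : k ≤ (q - 4) ^ 2 / (2 * q ^ (N + 1)) := hkE.trans hE2
    rw [le_div_iff₀ (by positivity)] at h1
    rw [hx, le_div_iff₀ (by positivity)]
    linarith
  have hx1 : 1 ≤ x := (one_le_pow₀ (by linarith)).trans hxN
  obtain ⟨n0, h1, h2⟩ := exists_nat_pow_near hx1 (show (1 : ℝ) < q by linarith)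
  have hNn : N ≤ n0 := by
    by_contra hcon
    rw [not_le] at hcon
    have h3 : q ^ (n0 + 1) ≤ q ^ (N + 1) := pow_le_pow_right₀ (by linarith) (by omega)
    linarith
  have hexp : (1 - p) / 2 = c := hc.symm
  refine ⟨n0, ?_⟩
  refine
    { p0 := hp0
      p1 := hp1
      l0 := hl1
      l1 := ?_
      l2 := ?_
      q0 := hq4
      q1 := hq41
      k0 := hk
      k1 := hkE.trans hE1
      n1 := ?_
      n2 := ?_
      n3 := ?_
      n4 := ?_ }
  · rw [hexp, ← hL]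
    have h3 : k ^ c ≤ (L - l) / l := hkD.trans hD1
    rw [le_div_iff₀ (by linarith)] at h3
    linarith
  · rw [hexp]
    exact hkD.trans hD2
  · rw [hx, le_div_iff₀ (by positivity)] at h1
    linarith
  · have h3 : x / q ≤ q ^ n0 := by
      rw [div_le_iff₀ hq0, ← pow_succ]
      exact h2.le
    have h4 : (x / q) ^ t ≤ (4 : ℝ) ^ n0 := by
      calc (x / q) ^ t ≤ (q ^ n0) ^ t := Real.rpow_le_rpow (by positivity) h3 ht0.le
        _ = (q ^ t) ^ n0 := (Real.rpow_pow_comm hq0.le t n0).symm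
        _ ≤ 4 ^ n0 := pow_le_pow_left₀ (Real.rpow_nonneg hq0.le _) hqt n0
    have h5 : (x / q) ^ t = C * (k ^ t)⁻¹ := by
      have h6 : x / q = (q - 4) ^ 2 / (2 * q) * k⁻¹ := by
        rw [hx]
        field_simp
      rw [h6, Real.mul_rpow (by positivity) (by positivity), Real.inv_rpow hk.le, hC]
    have h7 : k ^ t = k ^ p * k ^ c := by
      rw [ht, Real.rpow_add hk]
    have hkp0 : 0 < k ^ p := Real.rpow_pos_of_pos hk _
    have h8 : C * (k ^ t)⁻¹ * k ^ p = C / k ^ c := by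
      rw [h7]
      field_simp
    calc (10 : ℝ) ≤ C / k ^ c := by
          rw [le_div_iff₀ hkc0]
          have := hkD.trans hD4
          linarith
      _ = C * (k ^ t)⁻¹ * k ^ p := h8.symm
      _ = (x / q) ^ t * k ^ p := by rw [h5]
      _ ≤ 4 ^ n0 * k ^ p := mul_le_mul_of_nonneg_right h4 hkp0.le
  · have h3 : l ^ N ≤ l ^ n0 := pow_le_pow_right₀ hl1.le hNn
    have h4 : 0 < l - 1 := by linarith
    rw [div_lt_iff₀ h4] at hN
    have h5 := mul_le_mul_of_nonneg_right h3 h4.le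
    linarith
  · have h3 : k ^ (1 - p) = k ^ c * k ^ c := by
      rw [← Real.rpow_add hk, hc]
      congr 1
      ring
    have h4 : q ^ n0 ≤ k⁻¹ := by
      refine h1.trans ?_
      rw [hx, div_le_iff₀ (by positivity), inv_mul_eq_div, le_div_iff₀ hk]
      have : (q - 4) ^ 2 ≤ 2 := by nlinarith
      nlinarith
    have h5 : ((n0 : ℝ) + 1) * h ≤ (k ^ c)⁻¹ := by
      calc ((n0 : ℝ) + 1) * h ≤ 1 + n0 * h := by linarith
        _ ≤ (1 + h) ^ n0 := one_add_mul_le_pow (by linarith) n0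
        _ ≤ (q ^ c) ^ n0 := pow_le_pow_left₀ (by linarith) hh2 n0
        _ = (q ^ n0) ^ c := Real.rpow_pow_comm hq0.le c n0
        _ ≤ (k⁻¹) ^ c := Real.rpow_le_rpow (by positivity) h4 hc0.le
        _ = (k ^ c)⁻¹ := Real.inv_rpow hk.le c
    have h6 : k ^ c ≤ h := hkD.trans hD3
    have hn0 : (0 : ℝ) ≤ (n0 : ℝ) + 1 := by positivity
    calc ((n0 : ℝ) + 1) * k ^ (1 - p) = ((n0 : ℝ) + 1) * k ^ c * k ^ c := by
          rw [h3]
          ring
      _ ≤ ((n0 : ℝ) + 1) * h * k ^ c := by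
          apply mul_le_mul_of_nonneg_right _ hkc0.le
          exact mul_le_mul_of_nonneg_left h6 hn0
      _ ≤ (k ^ c)⁻¹ * k ^ c := mul_le_mul_of_nonneg_right h5 hkc0.le
      _ = 1 := inv_mul_cancel₀ hkc0.ne'

end Pool.Agent.helper23.HV
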