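import Pool.Agent.helper23.HV.Defs
import Pool.Agent.helper23.HS.Meas

/-!
# Measurability in the plane (module HV-Meas)

As HU/Meas.lean (proved there): the conditions on `(a, b, z)` in `Thin` and `Parse` are closed (`Parse` by induction
on `w`) except `0 < b`.
-/

namespace Pool.Agent.helper23.HV

open Pool.Agent.helper23.HS MeasureTheory

theorem h73_parse_closed {X : Type*} [TopologicalSpace X] {z : X → ℕ → ℝ}
    (hz : ∀ j, Continuous (fun x => z x j)) (k : ℝ) (n0 n : ℕ) (w : List (Bool × Bool)) :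
    ∀ j : ℕ, IsClosed {x : X | Parse k n0 n (z x) j w} := by
  induction w with
  | nil =>
    intro j
    have h : {x : X | Parse k n0 n (z x) j []} = {_x : X | j = n + 1} := rfl
    rw [h]
    exact isClosed_const
  | cons t w ih =>
    intro j
    have h : {x : X | Parse k n0 n (z x) j (t :: w)} =
        ({_x : X | j ≤ n} ∩ ({x | t.2 = true → 0 ≤ z x j} ∩ {x | t.2 = false → z x j ≤ 0})) ∩
        (({x | t.1 = true → |z x j| ≤ Real.sqrt k} ∩ {x | t.1 = false → Real.sqrt k ≤ |z x j|}) ∩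
        {x | Parse k n0 n (z x) (if t.1 then j + n0 + 1 else j + 1) w}) := by
      ext x
      constructor
      · rintro ⟨h1, h2, h3, h4, h5, h6⟩
        exact ⟨⟨h1, h2, h3⟩, ⟨h4, h5⟩, h6⟩
      · rintro ⟨⟨h1, h2, h3⟩, ⟨h4, h5⟩, h6⟩
        exact ⟨h1, h2, h3, h4, h5, h6⟩
    have himp : ∀ (c d : Bool) (S : X → Prop), IsClosed {x | S x} →
        IsClosed {x | c = d → S x} := by
      intro c d S hS
      by_cases hcd : c = d
      · have : {x | c = d → S x} = {x | S x} := by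
          ext x
          simp [hcd]
        rw [this]
        exact hS
      · have : {x | c = d → S x} = Set.univ := by
          ext x
          simp [hcd]
        rw [this]
        exact isClosed_univ
    rw [h]
    refine IsClosed.inter (IsClosed.inter isClosed_const (IsClosed.inter ?_ ?_))
      (IsClosed.inter (IsClosed.inter ?_ ?_) (ih _))
    · exact himp _ _ _ (isClosed_le continuous_const (hz j))
    · exact himp _ _ _ (isClosed_le (hz j) continuous_const)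
    · exact himp _ _ _ (isClosed_le (hz j).abs continuous_const)
    · exact himp _ _ _ (isClosed_le continuous_const (hz j).abs)

/-- The pairs (parameter, orbit) satisfying all closed conditions. -/
def h73SR (r e k : ℝ) (n0 : ℕ) (w : List (Bool × Bool)) : Set ((ℝ × ℝ) × (ℕ → ℝ)) :=
  {u | (|u.1.1 - 2| ≤ e ∧ u.1.2 ≤ e) ∧
    (Orb u.1.1 u.1.2 (4 * r) (len n0 w) u.2 ∧ |u.2 0| ≤ 2 * r) ∧
    Parse k n0 (len n0 w) u.2 1 w ∧
    |chi u.1.2 (fun j => 2 * u.2 j) (len n0 w)| ≤ 4}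

theorem h73SR_closed (r e k : ℝ) (n0 : ℕ) (w : List (Bool × Bool)) :
    IsClosed (h73SR r e k n0 w) := by
  have hz : ∀ j : ℕ, Continuous (fun u : (ℝ × ℝ) × (ℕ → ℝ) => u.2 j) := fun j =>
    (continuous_apply j).comp continuous_snd
  have ha : Continuous (fun u : (ℝ × ℝ) × (ℕ → ℝ) => u.1.1) :=
    continuous_fst.comp continuous_fst
  have hb : Continuous (fun u : (ℝ × ℝ) × (ℕ → ℝ) => u.1.2) :=
    continuous_snd.comp continuous_fst
  have heq : h73SR r e k n0 w = (({u | |u.1.1 - 2| ≤ e} ∩ {u | u.1.2 ≤ e}) ∩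
      {u | |u.2 0| ≤ 2 * r}) ∩
      (({u | u.2 (len n0 w + 1) = u.2 0} ∩ {u | u.2 (len n0 w + 2) = u.2 1}) ∩
      ((⋂ j : ℕ, {u | u.2 (j + 2) + u.2 (j + 1) ^ 2 - u.1.2 * u.2 j = u.1.1}) ∩
        (⋂ j : ℕ, {u | 1 ≤ j → j ≤ len n0 w → 4 * r ≤ |2 * u.2 j|}))) ∩
      ({u | Parse k n0 (len n0 w) u.2 1 w} ∩
        {u | |chi u.1.2 (fun j => 2 * u.2 j) (len n0 w)| ≤ 4}) := by
    ext u
    simp only [h73SR, Set.mem_ofPred_eq, Set.mem_inter_iff, Set.mem_iInter]
    constructor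
    · rintro ⟨⟨h1, h2⟩, ⟨ho, h3⟩, hs, hc⟩
      exact ⟨⟨⟨⟨h1, h2⟩, h3⟩, ⟨ho.per, ho.per1⟩, ho.eqn, ho.out⟩, hs, hc⟩
    · rintro ⟨⟨⟨⟨g1, g2⟩, g3⟩, ⟨h1, h2⟩, h3, h4⟩, h5, h6⟩
      exact ⟨⟨g1, g2⟩, ⟨⟨h1, h2, h3, h4⟩, g3⟩, h5, h6⟩
  rw [heq]
  refine IsClosed.inter (IsClosed.inter (IsClosed.inter (IsClosed.inter ?_ ?_) ?_)
    (IsClosed.inter (IsClosed.inter ?_ ?_) (IsClosed.inter ?_ ?_))) (IsClosed.inter ?_ ?_)
  · exact isClosed_le (ha.sub continuous_const).abs continuous_const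
  · exact isClosed_le hb continuous_const
  · exact isClosed_le (hz 0).abs continuous_const
  · exact isClosed_eq (hz _) (hz _)
  · exact isClosed_eq (hz _) (hz _)
  · exact isClosed_iInter fun j =>
      isClosed_eq (((hz _).add ((hz _).pow 2)).sub (hb.mul (hz _))) ha
  · refine isClosed_iInter fun j => ?_
    by_cases h1 : 1 ≤ j
    · by_cases h2 : j ≤ len n0 w
      · have : {u : (ℝ × ℝ) × (ℕ → ℝ) | 1 ≤ j → j ≤ len n0 w →
            4 * r ≤ |2 * u.2 j|} = {u | 4 * r ≤ |2 * u.2 j|} := by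
          ext u
          simp [h1, h2]
        rw [this]
        exact isClosed_le continuous_const (continuous_const.mul (hz j)).abs
      · have : {u : (ℝ × ℝ) × (ℕ → ℝ) | 1 ≤ j → j ≤ len n0 w →
            4 * r ≤ |2 * u.2 j|} = Set.univ := by
          ext u
          simp [h2]
        rw [this]
        exact isClosed_univ
    · have : {u : (ℝ × ℝ) × (ℕ → ℝ) | 1 ≤ j → j ≤ len n0 w →
          4 * r ≤ |2 * u.2 j|} = Set.univ := by
        ext u
        simp [h1]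
      rw [this]
      exact isClosed_univ
  · exact h73_parse_closed (z := fun u : (ℝ × ℝ) × (ℕ → ℝ) => u.2) hz k n0 (len n0 w) w 1
  · have hc := chi_cont (X := (ℝ × ℝ) × (ℕ → ℝ)) (b := fun u => u.1.2)
      (c := fun u j => 2 * u.2 j) hb (fun j => continuous_const.mul (hz j)) (len n0 w)
    exact isClosed_le hc.abs continuous_const

theorem meas_TT (p l q k : ℝ) (n0 : ℕ) (w : List (Bool × Bool)) :
    MeasurableSet {u : ℝ × ℝ | u.1 ∈ TT p l q k n0 u.2 w} := by
  by_cases hr : Num p l q k n0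
  swap
  · have key : {u : ℝ × ℝ | u.1 ∈ TT p l q k n0 u.2 w} = ∅ := by
      ext u
      simp only [Set.mem_ofPred_eq, Set.mem_empty_iff_false, iff_false]
      rintro ⟨z, ht, -⟩
      exact hr ht.par.num
    rw [key]
    exact MeasurableSet.empty
  have key : {u : ℝ × ℝ | u.1 ∈ TT p l q k n0 u.2 w} =
      ⋃ m : ℕ, ((Prod.fst '' (h73SR (k ^ p) (k / 1000) k n0 w ∩
      ((Set.Icc (-(m : ℝ)) m ×ˢ Set.Icc (0 : ℝ) m) ×ˢ
        Set.univ.pi (fun _ : ℕ => Set.Icc (-((m : ℝ) + 2)) ((m : ℝ) + 2))))) ∩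
        {u : ℝ × ℝ | 0 < u.2}) := by
    ext u
    simp only [Set.mem_iUnion, Set.mem_inter_iff, Set.mem_image, Set.mem_ofPred_eq]
    constructor
    · rintro ⟨z, ht, hs, hc⟩
      obtain ⟨m, hm⟩ := exists_nat_ge (max |u.1| u.2)
      have hm1 : |u.1| ≤ m := le_trans (le_max_left _ _) hm
      have hm2 : u.2 ≤ m := le_trans (le_max_right _ _) hm
      have hq := ht.par.b0
      refine ⟨m, ⟨(u, z), ⟨⟨⟨ht.par.ha, ht.par.b1⟩, ⟨ht.orb, ht.small⟩, hs, hc⟩, ?_⟩, rfl⟩, hq⟩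
      refine ⟨⟨abs_le.mp hm1, ⟨hq.le, hm2⟩⟩, ?_⟩
      intro j _
      exact abs_le.mp (orb_bound ht.orb hm1 hq.le hm2 j)
    · rintro ⟨m, ⟨⟨u', z⟩, ⟨⟨⟨h1, h2⟩, ⟨ho, h3⟩, hs, hc⟩, _⟩, rfl⟩, hq⟩
      exact ⟨z, ⟨⟨hr, h1, hq, h2⟩, ho, h3⟩, hs, hc⟩
  rw [key]
  refine MeasurableSet.iUnion fun m => MeasurableSet.inter ?_ ?_
  · apply IsClosed.measurableSet
    apply IsCompact.isClosed
    apply IsCompact.image _ continuous_fst
    apply IsCompact.inter_left _ (h73SR_closed (k ^ p) (k / 1000) k n0 w)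
    exact (isCompact_Icc.prod isCompact_Icc).prod (isCompact_univ_pi fun _ => isCompact_Icc)
  · exact (isOpen_lt continuous_const continuous_snd).measurableSet

theorem meas_TT_inf (p l q k : ℝ) (n0 : ℕ) :
    MeasurableSet {u : ℝ × ℝ | {w | u.1 ∈ TT p l q k n0 u.2 w}.Infinite} := by
  have key : {u : ℝ × ℝ | {w | u.1 ∈ TT p l q k n0 u.2 w}.Infinite} =
      ⋂ n : ℕ, ⋃ w : List (Bool × Bool), ⋃ _ : n ≤ w.length,
        {u : ℝ × ℝ | u.1 ∈ TT p l q k n0 u.2 w} := by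
    ext u
    simp only [Set.mem_ofPred_eq, Set.mem_iInter, Set.mem_iUnion]
    constructor
    · intro hinf n
      by_contra hcon
      apply hinf
      apply (List.finite_length_lt (Bool × Bool) n).subset
      intro w hw
      by_contra hlen
      exact hcon ⟨w, not_lt.mp hlen, hw⟩
    · intro h hfin
      obtain ⟨N, hN⟩ := (hfin.image List.length).bddAbove
      obtain ⟨w, hw, hq⟩ := h (N + 1)
      have := hN ⟨w, hq, rfl⟩
      omega
  rw [key]
  exact MeasurableSet.iInter fun n => MeasurableSet.iUnion fun w =>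
    MeasurableSet.iUnion fun _ => meas_TT p l q k n0 w

end Pool.Agent.helper23.HV
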