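import Pool.Agent.helper23.HV.Main
import Pool.Agent.helper23.HV.Meas
import Pool.Agent.helper23.HV.Exist

/-!
# Sinks with one visit to the strip `|x| < (|a - 2| + b)^p`, `p < 1` (helper23)
-/

namespace Pool.Agent.helper23.HV

open Pool.Agent.H48.HN Pool.Agent.helper23.HS MeasureTheory Set

/-- The exceptional parameters. -/
def Bad (p l q k : ℝ) (n0 : ℕ) : Set (ℝ × ℝ) :=
  {u : ℝ × ℝ | {w | u.1 ∈ TT p l q k n0 u.2 w}.Infinite}

theorem exists_m {p p' : ℝ} (hp : p < p') :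
    ∃ m0 : ℝ, 0 < m0 ∧ ∀ m k : ℝ, 0 < m → m ≤ m0 → 0 < k → k ≤ 4000 * m → 0 ≤ p' → p' ≤ 1 →
      2 * k ^ p' ≤ m ^ p := by
  refine ⟨((8000 : ℝ)⁻¹) ^ (1 / (p' - p)), by positivity,
    fun m k hm hm0 hk hkm hp0 hp1 => ?_⟩
  have h1 : k ^ p' ≤ (4000 * m) ^ p' := Real.rpow_le_rpow hk.le hkm hp0
  have h2 : (4000 * m) ^ p' = (4000 : ℝ) ^ p' * m ^ p' := Real.mul_rpow (by norm_num) hm.le
  have h2' : (4000 : ℝ) ^ p' ≤ 4000 := by
    calc (4000 : ℝ) ^ p' ≤ (4000 : ℝ) ^ (1 : ℝ) :=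
          Real.rpow_le_rpow_of_exponent_le (by norm_num) hp1
      _ = 4000 := Real.rpow_one _
  have h3 : m ^ p' = m ^ (p' - p) * m ^ p := by
    rw [← Real.rpow_add hm]; ring_nf
  have h4 : m ^ (p' - p) ≤ (8000 : ℝ)⁻¹ := by
    have h5 : m ^ (p' - p) ≤ (((8000 : ℝ)⁻¹) ^ (1 / (p' - p))) ^ (p' - p) :=
      Real.rpow_le_rpow hm.le hm0 (by linarith)
    rwa [← Real.rpow_mul (by positivity), one_div, inv_mul_cancel₀ (by linarith), Real.rpow_one]
      at h5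
  have hmp : 0 ≤ m ^ p := by positivity
  calc 2 * k ^ p' ≤ 2 * ((4000 : ℝ) ^ p' * (m ^ (p' - p) * m ^ p)) := by
        rw [← h3, ← h2]; linarith
    _ ≤ 2 * (4000 * ((8000 : ℝ)⁻¹ * m ^ p)) := by gcongr
    _ = m ^ p := by ring

theorem bad_of_infinite {p p' l q k a b : ℝ} {n0 : ℕ}
    (hδ : 2 * k ^ p' ≤ (|a - 2| + b) ^ p) (h : Par p' l q k n0 a b)
    (hi : {O | IsSink a b O ∧
      {u : ℝ × ℝ | u ∈ O ∧ |u.1| < (|a - 2| + b) ^ p}.Subsingleton}.Infinite) :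
    (a, b) ∈ Bad p' l q k n0 := by
  refine infinite_words h (hi.mono ?_)
  rintro O ⟨hO, hs⟩
  obtain ⟨u, hu, hu2⟩ := visits h hO
  have hk := h.num.k1
  have hk' : k / 1000 ≤ 1 / 10 := by
    have : (1 : ℝ) / 10 ^ 24 ≤ 1 := by norm_num
    linarith
  have ha : 1 < a := by have := (abs_le.1 h.ha).1; linarith
  have key : ∀ v : ℝ × ℝ, |2 * a * v.1| < 4 * k ^ p' → |v.1| < (|a - 2| + b) ^ p := by
    intro v hv
    rw [abs_mul, abs_of_pos (by linarith : 0 < 2 * a)] at hv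
    have h0 := abs_nonneg v.1
    nlinarith
  exact ⟨hO, u, ⟨hu, hu2⟩, fun v hv => hs ⟨hv.1, key v hv.2⟩ ⟨hu, key u hu2⟩⟩

theorem final (p : ℝ) (hp : p < 1) :
    ∃ ε > 0, ∃ N : Set (ℝ × ℝ), MeasurableSet N ∧ volume N = 0 ∧
      (∀ b : ℝ, dimH {a : ℝ | (a, b) ∈ N} ≤ 3 / 4) ∧
      ∀ a b : ℝ, |a - 2| < ε → 0 < b → b < ε → (a, b) ∉ N →
        {O | IsSink a b O ∧
          {u : ℝ × ℝ | u ∈ O ∧ |u.1| < (|a - 2| + b) ^ p}.Subsingleton}.Finite := by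
  obtain ⟨p', hp1, hp2, hp3⟩ : ∃ p' : ℝ, p < p' ∧ 5 / 8 ≤ p' ∧ p' < 1 := by
    refine ⟨(max p (5 / 8) + 1) / 2, ?_, ?_, ?_⟩
    · have := le_max_left p (5 / 8)
      have : max p (5 / 8 : ℝ) < 1 := max_lt hp (by norm_num)
      linarith
    · have := le_max_right p (5 / 8 : ℝ); linarith
    · have : max p (5 / 8 : ℝ) < 1 := max_lt hp (by norm_num)
      linarith
  obtain ⟨l, q, k0, hl, hk0, hk⟩ := exists_num hp2 hp3
  obtain ⟨m0, hm0, hm⟩ := exists_m hp1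
  have hslice : ∀ (k : ℝ) (n0 : ℕ) (b : ℝ), 0 < k →
      dimH {a : ℝ | {w | a ∈ TT p' l q k n0 b w}.Infinite} ≤ 3 / 4 := by
    intro k n0 b hk
    have hl1 : 0 < l - 1 := by linarith
    exact dimH_io (C := 64) (δ := ((l - 1) * k ^ p') ^ 2 / 500) (by positivity) TT_window
  refine ⟨min (k0 / 8000) (min (m0 / 2) (1 / 8000)),
    lt_min (by positivity) (lt_min (by positivity) (by norm_num)),
    ⋃ n : ℕ, ⋃ n0 : ℕ, Bad p' l q ((1 / 4) ^ n) n0,
    MeasurableSet.iUnion fun n => MeasurableSet.iUnion fun n0 => meas_TT_inf _ _ _ _ _,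
    measure_iUnion_null fun n => measure_iUnion_null fun n0 => ?_, fun b => ?_, ?_⟩
  · unfold Bad
    rw [Measure.volume_eq_prod, Measure.prod_apply_symm (meas_TT_inf _ _ _ _ _)]
    have : ∀ b : ℝ, volume ((fun a : ℝ => (a, b)) ⁻¹'
        {u : ℝ × ℝ | {w | u.1 ∈ TT p' l q ((1 / 4) ^ n) n0 u.2 w}.Infinite}) = 0 := fun b =>
      volume_zero (hslice _ _ b (by positivity))
    simp only [this, lintegral_zero]
  · have : {a : ℝ | (a, b) ∈ ⋃ n : ℕ, ⋃ n0 : ℕ, Bad p' l q ((1 / 4) ^ n) n0}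
        = ⋃ n : ℕ, ⋃ n0 : ℕ, {a : ℝ | {w | a ∈ TT p' l q ((1 / 4) ^ n) n0 b w}.Infinite} := by
      ext a
      simp only [mem_iUnion, Bad]
      rfl
    rw [this, dimH_iUnion]
    refine iSup_le fun n => ?_
    rw [dimH_iUnion]
    exact iSup_le fun n0 => hslice _ _ b (by positivity)
  · intro a b h1 h2 h3 hN
    by_contra hf
    have e1 := h1.trans_le (min_le_left _ _)
    have e2 := h3.trans_le (min_le_left _ _)
    have e3 := h1.trans_le ((min_le_right _ _).trans (min_le_left _ _))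
    have e4 := h3.trans_le ((min_le_right _ _).trans (min_le_left _ _))
    have e5 := h1.trans_le ((min_le_right _ _).trans (min_le_right _ _))
    have e6 := h3.trans_le ((min_le_right _ _).trans (min_le_right _ _))
    have h0 := abs_nonneg (a - 2)
    obtain ⟨n, hn1, hn2⟩ := exists_nat_pow_near_of_lt_one (x := 1000 * (|a - 2| + b))
      (y := (1 / 4 : ℝ)) (by positivity) (by linarith) (by norm_num) (by norm_num)
    rw [pow_succ] at hn1
    have hpos : (0 : ℝ) < (1 / 4) ^ n := by positivity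
    obtain ⟨n0, hn0⟩ := hk ((1 / 4) ^ n) hpos (by linarith)
    refine hN (mem_iUnion.2 ⟨n, mem_iUnion.2 ⟨n0, bad_of_infinite
      (hm _ _ (by positivity) (by linarith) hpos (by linarith) (by linarith) hp3.le)
      ⟨hn0, by linarith, h2, by linarith⟩ hf⟩⟩)

end Pool.Agent.helper23.HV
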