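import Pool.Agent.helper23.HV.BasicB
import Pool.Agent.helper23.HV.Near
import Pool.Agent.helper23.HS.Adj

/-!
# Growth in the weight (module HV-Grow)

As HU/Grow.lean (proved there). `w j = wt p k (z j)`, `2/5 k^p ≤ w j ≤ 401/100`, `t = k^((1-p)/2)`. grow_gen step: the
first term is `≥ l (1 + t/2) w (j+2) |x (j+1)|`, the second
`b |x j| w (j+1) ≤ b |x (j+1)| w j / l ≤ (k/1000)(401/100) |x (j+1)| ≤ (11/1000) t^2 w (j+2) |x (j+1)|` (`k = k^p t^2`).
small_b, for a solution `x` with `l |x j| w (j+1) ≤ |x (j+1)| w j`: `b |x j| ≤ b |x (j+1)| w j / w (j+1)`. If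
`|z (j+1)| > 19/10`: `≤ (k/1000)(401/100)(5/2)/k^p |x (j+1)| ≤ (11/1000) k^(1-p) |x (j+1)|`; otherwise `w (j+1) ≥ 39/100`
and `b |x j| ≤ (11/1000) k |x (j+1)| ≤ k^(1-p)/10 * 2 k^p |x (j+1)|`.
grow_one: `l^n w (n+1) ≤ |v (n+1)| w 1`, `w (n+1) ≥ 2`, `w 1 ≤ k^p ≤ 1`.
signs: from small_b, `k^(1-p)/10 < 2`.
-/

namespace Pool.Agent.helper23.HV

open Pool.Agent.helper23.HS

private theorem helper49_wt_pos {p l q k a b x : ℝ} {n0 : ℕ} (h : Par p l q k n0 a b)
    (hx : |x| ≤ 2 + k / 1000) : 0 < wt p k x := by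
  have h1 := wt_ge h.num hx
  have h2 := (small_k h.num).1
  linarith

theorem grow_gen {p l q k a b : ℝ} {n0 : ℕ} (h : Par p l q k n0 a b) {z x : ℕ → ℝ} {n : ℕ}
    (hz : ∀ j, |z j| ≤ 2 + k / 1000)
    (he : ∀ j, z (j + 2) = a - z (j + 1) ^ 2 + b * z j)
    (ho : ∀ j, 1 ≤ j → j ≤ n → 2 * k ^ p ≤ |z j|)
    (hx : ∀ j, x (j + 2) = -(2 * z (j + 1)) * x (j + 1) + b * x j)
    (h0 : l * |x 0| * wt p k (z 1) ≤ |x 1| * wt p k (z 0)) :
    ∀ j, j ≤ n → l * |x j| * wt p k (z (j + 1)) ≤ |x (j + 1)| * wt p k (z j) := by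
  obtain ⟨hkp, hT0, hT1, -, hkk, -, -, -⟩ := small_k h.num
  have hl := h.num.l0
  have hk0 := h.num.k0
  intro j
  induction j with
  | zero => intro _; exact h0
  | succ j ih =>
    intro hj
    have ih' := ih (by omega)
    have hr := ho (j + 1) (by omega) hj
    have hstep := wt_step h (hz (j + 1)) (hz j) hr
    rw [← he j] at hstep
    have hw2 := wt_ge h.num (hz (j + 2))
    have hwj := wt_le h.num (hz j)
    have hb0 := h.b0
    have hb1 := h.b1
    have w1 := (helper49_wt_pos h (hz (j + 1))).le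
    have w2 := (helper49_wt_pos h (hz (j + 2))).le
    have x1 := abs_nonneg (x (j + 1))
    have x0 := abs_nonneg (x j)
    set T : ℝ := k ^ ((1 - p) / 2) with hT
    have h3 : 2 * |z (j + 1)| * |x (j + 1)| - b * |x j| ≤ |x (j + 2)| := by
      rw [hx j]
      have h := abs_sub_abs_le_abs_sub (-(2 * z (j + 1)) * x (j + 1)) (-(b * x j))
      rw [abs_neg, abs_mul, abs_neg, abs_mul, abs_mul, abs_of_pos hb0, sub_neg_eq_add,
        abs_of_pos (by norm_num : (0 : ℝ) < 2)] at h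
      exact h
    have h4 : (2 * |z (j + 1)| * |x (j + 1)| - b * |x j|) * wt p k (z (j + 1))
        ≤ |x (j + 2)| * wt p k (z (j + 1)) := mul_le_mul_of_nonneg_right h3 w1
    have h5 : l * (1 + T / 2) * wt p k (z (j + 2)) * |x (j + 1)|
        ≤ 2 * |z (j + 1)| * wt p k (z (j + 1)) * |x (j + 1)| :=
      mul_le_mul_of_nonneg_right hstep x1
    have h6 : |x (j + 1)| * wt p k (z j) ≤ |x (j + 1)| * (401 / 100) :=
      mul_le_mul_of_nonneg_left hwj x1
    have h7 : |x j| * wt p k (z (j + 1)) ≤ 401 / 100 * |x (j + 1)| := by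
      have h70 : 0 ≤ |x j| * wt p k (z (j + 1)) := mul_nonneg x0 w1
      have h71 : 1 * (|x j| * wt p k (z (j + 1))) ≤ l * (|x j| * wt p k (z (j + 1))) :=
        mul_le_mul_of_nonneg_right hl.le h70
      linarith
    have h8 : b * (|x j| * wt p k (z (j + 1))) ≤ b * (401 / 100 * |x (j + 1)|) :=
      mul_le_mul_of_nonneg_left h7 hb0.le
    have h9 : b * (401 / 100 * |x (j + 1)|) ≤ k / 1000 * (401 / 100 * |x (j + 1)|) :=
      mul_le_mul_of_nonneg_right hb1 (by linarith)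
    have h10 : k ≤ 3 / 4 * wt p k (z (j + 2)) * T := by
      have h101 : k ^ p * T ^ 2 ≤ 5 / 2 * wt p k (z (j + 2)) * T ^ 2 :=
        mul_le_mul_of_nonneg_right (by linarith) (sq_nonneg T)
      have h102 : T ^ 2 ≤ 3 / 10 * T := by
        rw [sq]
        exact mul_le_mul_of_nonneg_right hT1.le hT0.le
      have h103 : 5 / 2 * wt p k (z (j + 2)) * T ^ 2
          ≤ 5 / 2 * wt p k (z (j + 2)) * (3 / 10 * T) :=
        mul_le_mul_of_nonneg_left h102 (by linarith)
      linarith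
    have h11 : k * |x (j + 1)| ≤ 3 / 4 * wt p k (z (j + 2)) * T * |x (j + 1)| :=
      mul_le_mul_of_nonneg_right h10 x1
    have h12 : 0 ≤ wt p k (z (j + 2)) * T * |x (j + 1)| := by positivity
    have h13 : 1 * (wt p k (z (j + 2)) * T * |x (j + 1)|)
        ≤ l * (wt p k (z (j + 2)) * T * |x (j + 1)|) :=
      mul_le_mul_of_nonneg_right hl.le h12
    have e1 : j + 1 + 1 = j + 2 := rfl
    rw [e1]
    linarith

private theorem helper49_out {p l q k a b : ℝ} {n0 n : ℕ} {z : ℕ → ℝ}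
    (ht : Thin p l q k n0 a b n z) (j : ℕ) (h1 : 1 ≤ j) (h2 : j ≤ n) : 2 * k ^ p ≤ |z j| := by
  have := ht.orb.out j h1 h2
  rw [abs_mul, abs_of_pos (by norm_num : (0 : ℝ) < 2)] at this
  linarith

private theorem helper49_sol_gen {p l q k a b : ℝ} {n0 n : ℕ} {z : ℕ → ℝ}
    (ht : Thin p l q k n0 a b n z) :
    ∀ j, j ≤ n → l * |sol b (fun j => 2 * z j) 0 1 j| * wt p k (z (j + 1))
      ≤ |sol b (fun j => 2 * z j) 0 1 (j + 1)| * wt p k (z j) := by
  have hz := bound ht.par ht.orb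
  refine grow_gen ht.par hz ?_ ?_ ?_ ?_
  · intro j
    have := ht.orb.eqn j
    linarith
  · exact helper49_out ht
  · intro j
    rfl
  · have e : sol b (fun j => 2 * z j) 0 1 0 = 0 := rfl
    rw [e, abs_zero, mul_zero, zero_mul]
    exact mul_nonneg (abs_nonneg _) (helper49_wt_pos ht.par (hz 0)).le

private theorem helper49_pos {p l q k a b : ℝ} {n0 n : ℕ} {z : ℕ → ℝ}
    (ht : Thin p l q k n0 a b n z) (j : ℕ) :
    0 < wt p k (z j) := helper49_wt_pos ht.par (bound ht.par ht.orb j)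

private theorem helper49_grow_all {p l q k a b : ℝ} {n0 n : ℕ} {z : ℕ → ℝ}
    (ht : Thin p l q k n0 a b n z) :
    ∀ j, j ≤ n → l ^ j * wt p k (z (j + 1))
      ≤ |sol b (fun j => 2 * z j) 0 1 (j + 1)| * wt p k (z 1) := by
  have hl : 0 < l := lt_trans one_pos ht.par.num.l0
  intro j
  induction j with
  | zero =>
    intro _
    simp [sol]
  | succ j ih =>
    intro hj
    have h1 := ih (by omega)
    have h2 := helper49_sol_gen ht (j + 1) hj
    have w1 := helper49_pos ht (j + 1)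
    have w2 := helper49_pos ht (j + 1 + 1)
    have w0 := helper49_pos ht 1
    have h3 : l ^ j * wt p k (z (j + 1)) * (l * wt p k (z (j + 1 + 1)))
        ≤ |sol b (fun j => 2 * z j) 0 1 (j + 1)| * wt p k (z 1) * (l * wt p k (z (j + 1 + 1))) :=
      mul_le_mul_of_nonneg_right h1 (by positivity)
    have h4 : l * |sol b (fun j => 2 * z j) 0 1 (j + 1)| * wt p k (z (j + 1 + 1)) * wt p k (z 1)
        ≤ |sol b (fun j => 2 * z j) 0 1 (j + 1 + 1)| * wt p k (z (j + 1)) * wt p k (z 1) :=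
      mul_le_mul_of_nonneg_right h2 w0.le
    have h5 : l ^ (j + 1) * wt p k (z (j + 1 + 1)) * wt p k (z (j + 1))
        ≤ |sol b (fun j => 2 * z j) 0 1 (j + 1 + 1)| * wt p k (z 1) * wt p k (z (j + 1)) := by
      rw [pow_succ]
      linarith
    exact le_of_mul_le_mul_right h5 w1

theorem small_b {p l q k a b : ℝ} {n0 n : ℕ} {z : ℕ → ℝ} (ht : Thin p l q k n0 a b n z) :
    ∀ j, j < n → b * |sol b (fun i => 2 * z i) 0 1 j|
      ≤ k ^ (1 - p) / 10 * |z (j + 1)| * |sol b (fun i => 2 * z i) 0 1 (j + 1)| := by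
  obtain ⟨hkp, hT0, hT1, hk2, hkk, -, -, -⟩ := small_k ht.par.num
  have hl := ht.par.num.l0
  have hk0 := ht.par.num.k0
  have hb0 := ht.par.b0
  have hb1 := ht.par.b1
  have hz := bound ht.par ht.orb
  intro j hj
  have g1 := helper49_sol_gen ht j hj.le
  have w1 := helper49_pos ht (j + 1)
  have wj := wt_le ht.par.num (hz j)
  rw [hk2]
  set T : ℝ := k ^ ((1 - p) / 2) with hT
  set X : ℝ := |sol b (fun j => 2 * z j) 0 1 (j + 1)| with hX
  set Y : ℝ := |sol b (fun j => 2 * z j) 0 1 j| with hY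
  have hX0 : 0 ≤ X := abs_nonneg _
  have hY0 : 0 ≤ Y := abs_nonneg _
  have hT2 : 0 ≤ T ^ 2 := sq_nonneg T
  have h6 : X * wt p k (z j) ≤ X * (401 / 100) := mul_le_mul_of_nonneg_left wj hX0
  have h7 : Y * wt p k (z (j + 1)) ≤ 401 / 100 * X := by
    have h70 : 0 ≤ Y * wt p k (z (j + 1)) := mul_nonneg hY0 w1.le
    have h71 : 1 * (Y * wt p k (z (j + 1))) ≤ l * (Y * wt p k (z (j + 1))) :=
      mul_le_mul_of_nonneg_right hl.le h70
    linarith
  have h8 : b * (Y * wt p k (z (j + 1))) ≤ b * (401 / 100 * X) :=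
    mul_le_mul_of_nonneg_left h7 hb0.le
  have h9 : b * (401 / 100 * X) ≤ k / 1000 * (401 / 100 * X) :=
    mul_le_mul_of_nonneg_right hb1 (by linarith)
  have h10 : b * Y * wt p k (z (j + 1)) ≤ 401 / 100000 * (k * X) := by linarith
  have hbY : 0 ≤ b * Y := mul_nonneg hb0.le hY0
  rcases le_or_gt (|z (j + 1)|) (19 / 10) with hc | hc
  · have hm := wt_mid ht.par.num hc
    have h11 : b * Y * (39 / 100) ≤ b * Y * wt p k (z (j + 1)) :=
      mul_le_mul_of_nonneg_left hm hbY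
    have ho := helper49_out ht (j + 1) (by omega) (by omega)
    have h12 : 2 * k ^ p * (T ^ 2 * X) ≤ |z (j + 1)| * (T ^ 2 * X) :=
      mul_le_mul_of_nonneg_right ho (mul_nonneg hT2 hX0)
    have h13 : k * X = k ^ p * (T ^ 2 * X) := by
      calc k * X = (k ^ p * T ^ 2) * X := by rw [← hkk]
        _ = _ := by ring
    have h14 : 0 ≤ k ^ p * (T ^ 2 * X) := mul_nonneg hkp.le (mul_nonneg hT2 hX0)
    have h15 : T ^ 2 / 10 * |z (j + 1)| * X = (|z (j + 1)| * (T ^ 2 * X)) / 10 := by ring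
    rw [h15]
    linarith
  · have hm := wt_ge ht.par.num (hz (j + 1))
    have h11 : b * Y * (2 / 5 * k ^ p) ≤ b * Y * wt p k (z (j + 1)) :=
      mul_le_mul_of_nonneg_left hm hbY
    have h13 : k * X = T ^ 2 * X * k ^ p := by
      calc k * X = (k ^ p * T ^ 2) * X := by rw [← hkk]
        _ = _ := by ring
    have h14 : (b * Y) * k ^ p ≤ (401 / 40000 * (T ^ 2 * X)) * k ^ p := by
      rw [h13] at h10
      linarith
    have h15 : b * Y ≤ 401 / 40000 * (T ^ 2 * X) := le_of_mul_le_mul_right h14 hkp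
    have h16 : 19 / 10 * (T ^ 2 * X) ≤ |z (j + 1)| * (T ^ 2 * X) :=
      mul_le_mul_of_nonneg_right hc.le (mul_nonneg hT2 hX0)
    have h17 : T ^ 2 / 10 * |z (j + 1)| * X = (|z (j + 1)| * (T ^ 2 * X)) / 10 := by ring
    have h18 : 0 ≤ T ^ 2 * X := mul_nonneg hT2 hX0
    rw [h17]
    linarith

theorem grow_one {p l q k a b : ℝ} {n0 n : ℕ} {z : ℕ → ℝ} (ht : Thin p l q k n0 a b n z) :
    1 ≤ |sol b (fun i => 2 * z i) 0 1 (n + 1)| := by
  have h1 := helper49_grow_all ht n le_rfl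
  rw [ht.orb.per] at h1
  have h2 := wt_zero ht.par.num ht.small
  have h3 := wt_one ht
  obtain ⟨hkp, hT0, hT1, hk2, hkk, hs, -, -⟩ := small_k ht.par.num
  have hk1 : k ≤ 1 := ht.par.num.k1.trans (by norm_num)
  have hs1 : Real.sqrt k ≤ 1 := by
    have h := Real.sqrt_le_sqrt hk1
    rwa [Real.sqrt_one] at h
  have h4 : wt p k (z 1) ≤ 1 := by linarith
  have hl := ht.par.num.l0
  have hln : 1 ≤ l ^ n := one_le_pow₀ hl.le
  have h5 : 1 * wt p k (z 0) ≤ l ^ n * wt p k (z 0) :=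
    mul_le_mul_of_nonneg_right hln (by linarith)
  have h6 : |sol b (fun j => 2 * z j) 0 1 (n + 1)| * wt p k (z 1)
      ≤ |sol b (fun j => 2 * z j) 0 1 (n + 1)| * 1 :=
    mul_le_mul_of_nonneg_left h4 (abs_nonneg _)
  linarith

/-- the sign of the next term is the sign of the dominating term -/
private theorem helper49_step_sign {p l q k a b : ℝ} {n0 n : ℕ} {z : ℕ → ℝ}
    (ht : Thin p l q k n0 a b n z) (j : ℕ) (hj : j + 1 ≤ n) :
    0 < sol b (fun j => 2 * z j) 0 1 (j + 1 + 1)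
      * (-(2 * z (j + 1)) * sol b (fun j => 2 * z j) 0 1 (j + 1)) := by
  obtain ⟨hkp, hT0, hT1, hk2, hkk, -, -, -⟩ := small_k ht.par.num
  have g2 := helper49_grow_all ht j (by omega)
  have w0 := helper49_pos ht 1
  have w1 := helper49_pos ht (j + 1)
  have hb0 := ht.par.b0
  have hsb := small_b ht j (by omega)
  have hout := helper49_out ht (j + 1) (by omega) hj
  rw [hk2] at hsb
  have e : sol b (fun j => 2 * z j) 0 1 (j + 1 + 1)
      = -(2 * z (j + 1)) * sol b (fun j => 2 * z j) 0 1 (j + 1)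
        + b * sol b (fun j => 2 * z j) 0 1 j := rfl
  rw [e]
  set T : ℝ := k ^ ((1 - p) / 2) with hT
  set X : ℝ := sol b (fun j => 2 * z j) 0 1 (j + 1) with hX
  set Y : ℝ := sol b (fun j => 2 * z j) 0 1 j with hY
  have hXpos : 0 < |X| := by
    have h1 : 0 < l ^ j * wt p k (z (j + 1)) := by
      have : 0 < l := lt_trans one_pos ht.par.num.l0
      positivity
    have h2 : 0 < |X| * wt p k (z 1) := lt_of_lt_of_le h1 g2
    exact pos_of_mul_pos_left h2 w0.le
  have hzpos : 0 < |z (j + 1)| := by linarith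
  have hZX : 0 < |z (j + 1)| * |X| := mul_pos hzpos hXpos
  have hT2 : T ^ 2 ≤ 1 := by
    rw [sq]
    nlinarith
  have h15 : T ^ 2 * (|z (j + 1)| * |X|) ≤ 1 * (|z (j + 1)| * |X|) :=
    mul_le_mul_of_nonneg_right hT2 hZX.le
  have h16 : b * |Y| < 2 * (|z (j + 1)| * |X|) := by
    have h17 : T ^ 2 / 10 * |z (j + 1)| * |X| = (T ^ 2 * (|z (j + 1)| * |X|)) / 10 := by ring
    rw [h17] at hsb
    linarith
  set A : ℝ := -(2 * z (j + 1)) * X with hA
  set B : ℝ := b * Y with hB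
  have hAabs : |A| = 2 * (|z (j + 1)| * |X|) := by
    rw [hA, abs_mul, abs_neg, abs_mul, abs_of_pos (by norm_num : (0 : ℝ) < 2)]
    ring
  have hBabs : |B| = b * |Y| := by
    rw [hB, abs_mul, abs_of_pos hb0]
  have hlt : |B| < |A| := by
    rw [hAabs, hBabs]
    exact h16
  have hApos : 0 < |A| := lt_of_le_of_lt (abs_nonneg B) hlt
  have h17 : -(|B| * |A|) ≤ B * A := by
    rw [← abs_mul]
    exact neg_abs_le (B * A)
  have h18 : |B| * |A| < |A| * |A| := mul_lt_mul_of_pos_right hlt hApos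
  have h19 : |A| * |A| = A * A := abs_mul_abs_self A
  have h20 : (A + B) * A = A * A + B * A := by ring
  rw [h20]
  linarith

theorem signs {p l q k a a' b : ℝ} {n0 n : ℕ} {z z' : ℕ → ℝ} (ht : Thin p l q k n0 a b n z)
    (ht' : Thin p l q k n0 a' b n z') (hs : ∀ j, 1 ≤ j → j ≤ n → 0 < z j * z' j) :
    0 < sol b (fun j => 2 * z j) 0 1 (n + 1) * sol b (fun j => 2 * z' j) 0 1 (n + 1) := by
  have key : ∀ j, j ≤ n → 0 < sol b (fun j => 2 * z j) 0 1 (j + 1)
      * sol b (fun j => 2 * z' j) 0 1 (j + 1) := by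
    intro j
    induction j with
    | zero =>
      intro _
      simp [sol]
    | succ j ih =>
      intro hj
      have h0 := ih (by omega)
      have s1 := helper49_step_sign ht j hj
      have s2 := helper49_step_sign ht' j hj
      have s3 := hs (j + 1) (by omega) hj
      have s4 := mul_pos s1 s2
      have s5 : sol b (fun j => 2 * z j) 0 1 (j + 1 + 1)
            * (-(2 * z (j + 1)) * sol b (fun j => 2 * z j) 0 1 (j + 1)) *
          (sol b (fun j => 2 * z' j) 0 1 (j + 1 + 1)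
            * (-(2 * z' (j + 1)) * sol b (fun j => 2 * z' j) 0 1 (j + 1)))
          = (sol b (fun j => 2 * z j) 0 1 (j + 1 + 1) * sol b (fun j => 2 * z' j) 0 1 (j + 1 + 1))
            * ((4 * (z (j + 1) * z' (j + 1))) * (sol b (fun j => 2 * z j) 0 1 (j + 1)
              * sol b (fun j => 2 * z' j) 0 1 (j + 1))) := by
        ring
      rw [s5] at s4
      exact pos_of_mul_pos_left s4 (mul_pos (by linarith) h0).le
  exact key n le_rfl

end Pool.Agent.helper23.HV
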