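import Pool.Agent.helper23.HV.Grow
import Pool.Agent.helper23.HS.Link

/-!
# Every sink visits the strip (module HV-Zero)

As HU/Zero.lean (proved there), with `2 k^p` in place of `k^p` and `l > 1` only. `|s j| w 0 ≥ l^j w j`,
`|s (n+1)| ≥ l^(n+1)`, `|s 0| = 1`, `|s 1| = 2 |z 0| ≥ 4 k^p`, `|s j| ≥ k^p / 11`. With the Wronskian, by
induction, `|v j| ≤ (1/(2 k^p)) (1 - 2^(-j)) |s j|`, so `b |v n| ≤ (t^2/2000) |s n|` with `t = k^((1-p)/2)`
(`k = k^p t^2`), and `|trace| ≥ l (1 - t^2/2000) ≥ 1 + 9 t` (`l ≥ 1 + 10 t`), but `|trace| < 1 + b`.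
-/

namespace Pool.Agent.helper23.HV

open Pool.Agent.helper23.HS Pool.Agent.H48.HN

/-- The Wronskian of two solutions. -/
theorem h66_wron (b : ℝ) (c : ℕ → ℝ) (k : ℕ) :
    sol b c 0 1 (k + 1) * sol b c 1 (-c 0) k - sol b c 0 1 k * sol b c 1 (-c 0) (k + 1)
      = (-b) ^ k := by
  induction k with
  | zero => simp [sol]
  | succ k ih =>
    have e1 : sol b c 0 1 (k + 1 + 1) = - c (k + 1) * sol b c 0 1 (k + 1) + b * sol b c 0 1 k := rfl
    have e2 : sol b c 1 (-c 0) (k + 1 + 1)
        = - c (k + 1) * sol b c 1 (-c 0) (k + 1) + b * sol b c 1 (-c 0) k := rfl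
    rw [e1, e2, pow_succ, ← ih]
    ring

/-- The estimate of the trace along an orbit which stays outside the strip. -/
theorem h66_trace {p l q k a b : ℝ} {n0 : ℕ} (h : Par p l q k n0 a b) {n : ℕ} {z : ℕ → ℝ}
    (ho : Orb a b (4 * k ^ p) n z) (h0 : 2 * k ^ p ≤ |z 0|) (hmin : |z 0| ≤ |z n|) :
    1 + 9 * k ^ ((1 - p) / 2) ≤ |sol b (fun j => 2 * z j) 1 (-(2 * z 0)) (n + 1)
      + b * sol b (fun j => 2 * z j) 0 1 n| := by
  obtain ⟨ht0, hu0, hu1, -, hkt, -, -, -⟩ := small_k h.num
  have hb := h.b0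
  have hb1 := h.b1
  have hk := h.num.k0
  have hl1 := h.num.l0
  have hl : 0 < l := by linarith
  have hlu := h.num.l2
  have hbd := bound h ho
  set t : ℝ := k ^ p with htdef
  set u : ℝ := k ^ ((1 - p) / 2) with hudef
  have hw : ∀ j, 0 < wt p k (z j) := fun j => by
    have := wt_ge h.num (hbd j)
    linarith
  have hw0 := hw 0
  have hbt : b ≤ t * u ^ 2 / 1000 := by linarith
  have hu2 : u ^ 2 ≤ 9 / 100 := by nlinarith
  have hbt2 : b ≤ t * (9 / 100) / 1000 := by
    have := mul_le_mul_of_nonneg_left hu2 ht0.le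
    linarith
  have hz1 : z 1 = a - z 0 ^ 2 + b * z n := by
    have e := ho.eqn n
    rw [ho.per, ho.per1] at e
    linarith
  set s : ℕ → ℝ := sol b (fun j => 2 * z j) 1 (-(2 * z 0)) with hs
  set v : ℕ → ℝ := sol b (fun j => 2 * z j) 0 1 with hv
  have hs0 : s 0 = 1 := rfl
  have hs1 : s 1 = -(2 * z 0) := rfl
  have hv0 : v 0 = 0 := rfl
  have hv1 : v 1 = 1 := rfl
  have hs1a : |s 1| = 2 * |z 0| := by
    rw [hs1, abs_neg, abs_mul, abs_of_pos (by norm_num : (0 : ℝ) < 2)]
  -- growth
  have hG : ∀ j, j ≤ n → l * |s j| * wt p k (z (j + 1)) ≤ |s (j + 1)| * wt p k (z j) := by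
    refine grow_gen h (z := z) (x := s) (n := n) hbd (fun j => ?_) (fun j hj1 hj => ?_)
      (fun j => rfl) ?_
    · have := ho.eqn j
      linarith
    · have := ho.out j hj1 hj
      rw [abs_mul, abs_of_pos (by norm_num : (0 : ℝ) < 2)] at this
      linarith
    · have h1 := wt_step h (hbd 0) (hbd n) h0
      rw [← hz1] at h1
      rw [hs0, hs1a, abs_one, mul_one]
      have h2 : l * wt p k (z 1) ≤ l * (1 + u / 2) * wt p k (z 1) := by
        have h3 : 0 ≤ l * wt p k (z 1) := (mul_pos hl (hw 1)).le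
        nlinarith
      exact h2.trans h1
  -- first consequence
  have hS : ∀ j, j ≤ n + 1 → l ^ j * wt p k (z j) ≤ |s j| * wt p k (z 0) := by
    intro j
    induction j with
    | zero =>
      intro _
      rw [hs0, abs_one, pow_zero]
    | succ j ih =>
      intro hj
      have h1 := ih (by omega)
      have h2 := hG j (by omega)
      have h3 : wt p k (z j) * (l ^ (j + 1) * wt p k (z (j + 1)))
          ≤ wt p k (z j) * (|s (j + 1)| * wt p k (z 0)) := by
        calc wt p k (z j) * (l ^ (j + 1) * wt p k (z (j + 1)))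
            = (l ^ j * wt p k (z j)) * (l * wt p k (z (j + 1))) := by ring
          _ ≤ (|s j| * wt p k (z 0)) * (l * wt p k (z (j + 1))) :=
              mul_le_mul_of_nonneg_right h1 (mul_pos hl (hw (j + 1))).le
          _ = (l * |s j| * wt p k (z (j + 1))) * wt p k (z 0) := by ring
          _ ≤ (|s (j + 1)| * wt p k (z j)) * wt p k (z 0) :=
              mul_le_mul_of_nonneg_right h2 hw0.le
          _ = wt p k (z j) * (|s (j + 1)| * wt p k (z 0)) := by ring
      exact le_of_mul_le_mul_left h3 (hw j)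
  have hsn1 : l ^ (n + 1) ≤ |s (n + 1)| := by
    have h1 := hS (n + 1) le_rfl
    rw [ho.per] at h1
    exact le_of_mul_le_mul_right h1 hw0
  have hslow : ∀ j, j ≤ n + 1 → t / 11 ≤ |s j| := by
    intro j hj
    have h1 := hS j hj
    have h2 := wt_ge h.num (hbd j)
    have h3 := wt_le h.num (hbd 0)
    have h4 : (1 : ℝ) ≤ l ^ j := one_le_pow₀ hl1.le
    have h5 : 1 * (2 / 5 * t) ≤ |s j| * (401 / 100) :=
      (mul_le_mul h4 h2 (by positivity) (by linarith)).trans
        (h1.trans (mul_le_mul_of_nonneg_left h3 (abs_nonneg _)))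
    linarith
  -- the second solution
  have hV : ∀ j, j ≤ n + 1 → |v j| ≤ (1 / (2 * t)) * (1 - (1 / 2 : ℝ) ^ j) * |s j| := by
    intro j
    induction j with
    | zero =>
      intro _
      rw [hv0, abs_zero, pow_zero]
      simp
    | succ j ih =>
      intro hj
      rcases Nat.eq_zero_or_pos j with rfl | hjpos
      · rw [zero_add, hv1, hs1a, abs_one, pow_one]
        have h1 : 1 / (2 * t) * (1 - 1 / 2) * (2 * |z 0|) = |z 0| / (2 * t) := by ring
        rw [h1, one_le_div (by positivity)]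
        exact h0
      · have h1 := ih (by omega)
        have hsj := hslow j (by omega)
        have hsj1 := hslow (j + 1) hj
        have hsjpos : 0 < |s j| := lt_of_lt_of_le (by positivity) hsj
        have hW := h66_wron b (fun j => 2 * z j) j
        have hW' : v (j + 1) * s j = v j * s (j + 1) + (-b) ^ j := by
          change v (j + 1) * s j - v j * s (j + 1) = (-b) ^ j at hW
          linarith
        have hWa : |v (j + 1)| * |s j| ≤ |v j| * |s (j + 1)| + b ^ j := by
          rw [← abs_mul, hW']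
          refine (abs_add_le _ _).trans ?_
          rw [abs_mul, abs_pow, abs_neg, abs_of_pos hb]
        have hprod : t ^ 2 / 121 ≤ |s j| * |s (j + 1)| := by
          calc t ^ 2 / 121 = (t / 11) * (t / 11) := by ring
            _ ≤ |s j| * |s (j + 1)| :=
                mul_le_mul hsj hsj1 (by positivity) (abs_nonneg _)
        have ht1 : t * (9 / 100) ≤ 1000 := by
          have h9 : Real.sqrt k ≤ 1 := Real.sqrt_le_one.2 (by
            have := h.num.k1
            have h10 : (1 : ℝ) / 10 ^ 24 ≤ 1 := by norm_num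
            linarith)
          have h8 := (small_k h.num).2.2.2.2.2.1
          rw [← htdef] at h8
          linarith
        have hbj : b ^ j ≤ (1 / (2 * t)) * ((1 / 2 : ℝ) ^ (j + 1)) * (|s j| * |s (j + 1)|) := by
          have hb2 : 2 * b ≤ 1 := by
            have h9 := h.num.k1
            have h10 : (1 : ℝ) / 10 ^ 24 ≤ 1 := by norm_num
            linarith
          have h2 : (2 * b) ^ j ≤ 2 * b := by
            calc (2 * b) ^ j ≤ (2 * b) ^ 1 := pow_le_pow_of_le_one (by linarith) hb2 hjpos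
              _ = 2 * b := pow_one _
          have h3 : b ^ j = (2 * b) ^ j * (1 / 2 : ℝ) ^ j := by
            rw [← mul_pow]
            congr 1
            ring
          have h4 : (0 : ℝ) ≤ (1 / 2 : ℝ) ^ j := by positivity
          have h5 : 2 * b ≤ t / 484 := by linarith
          calc b ^ j = (2 * b) ^ j * (1 / 2 : ℝ) ^ j := h3
            _ ≤ (t / 484) * (1 / 2 : ℝ) ^ j := mul_le_mul_of_nonneg_right (h2.trans h5) h4
            _ = (1 / (2 * t)) * ((1 / 2 : ℝ) ^ (j + 1)) * (t ^ 2 / 121) := by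
                rw [pow_succ]
                field_simp
                ring
            _ ≤ _ := mul_le_mul_of_nonneg_left hprod (by positivity)
        have h5 : |v j| * |s (j + 1)| ≤ (1 / (2 * t)) * (1 - (1 / 2 : ℝ) ^ j) * |s j| * |s (j + 1)| :=
          mul_le_mul_of_nonneg_right h1 (abs_nonneg _)
        have h6 : |s j| * |v (j + 1)| ≤
            |s j| * ((1 / (2 * t)) * (1 - (1 / 2 : ℝ) ^ (j + 1)) * |s (j + 1)|) := by
          calc |s j| * |v (j + 1)| = |v (j + 1)| * |s j| := by ring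
            _ ≤ |v j| * |s (j + 1)| + b ^ j := hWa
            _ ≤ (1 / (2 * t)) * (1 - (1 / 2 : ℝ) ^ j) * |s j| * |s (j + 1)|
                + (1 / (2 * t)) * ((1 / 2 : ℝ) ^ (j + 1)) * (|s j| * |s (j + 1)|) :=
                add_le_add h5 hbj
            _ = |s j| * ((1 / (2 * t)) * (1 - (1 / 2 : ℝ) ^ (j + 1)) * |s (j + 1)|) := by
                rw [pow_succ]
                ring
        exact le_of_mul_le_mul_left h6 hsjpos
  have hvn : b * |v n| ≤ u ^ 2 / 2000 * |s n| := by
    have h1 := hV n (by omega)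
    have h2 : (0 : ℝ) ≤ (1 / 2 : ℝ) ^ n := by positivity
    have h3 : |v n| ≤ (1 / (2 * t)) * |s n| := by
      refine h1.trans ?_
      refine mul_le_mul_of_nonneg_right ?_ (abs_nonneg _)
      have : (0 : ℝ) ≤ 1 / (2 * t) := by positivity
      nlinarith
    calc b * |v n| ≤ b * ((1 / (2 * t)) * |s n|) := mul_le_mul_of_nonneg_left h3 hb.le
      _ ≤ (t * u ^ 2 / 1000) * ((1 / (2 * t)) * |s n|) :=
          mul_le_mul_of_nonneg_right hbt (by positivity)
      _ = u ^ 2 / 2000 * |s n| := by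
          field_simp
          ring
  have hwn : wt p k (z n) ≤ wt p k (z 0) := by
    unfold wt
    have h1 : z 0 ^ 2 ≤ z n ^ 2 := sq_le_sq.2 hmin
    have h2 : z n ^ 2 ≤ (2 + k / 1000) ^ 2 := by
      rw [← sq_abs (z n)]
      exact pow_le_pow_left₀ (abs_nonneg _) (hbd n) 2
    have h3 : (2 + k / 1000) ^ 2 ≤ (2 + k / 8) ^ 2 :=
      pow_le_pow_left₀ (by positivity) (by linarith) 2
    exact Real.rpow_le_rpow (by linarith) (by linarith) (by linarith [h.num.p0])
  have hsn : l * |s n| ≤ |s (n + 1)| := by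
    have h1 := hG n le_rfl
    rw [ho.per] at h1
    have h2 : |s (n + 1)| * wt p k (z n) ≤ |s (n + 1)| * wt p k (z 0) :=
      mul_le_mul_of_nonneg_left hwn (abs_nonneg _)
    exact le_of_mul_le_mul_right (h1.trans h2) hw0
  have hln : l ≤ l ^ (n + 1) := by
    calc l = l ^ 1 := (pow_one _).symm
      _ ≤ l ^ (n + 1) := pow_le_pow_right₀ (by linarith) (by omega)
  have htri : |s (n + 1)| - |b * v n| ≤ |s (n + 1) + b * v n| := by
    have := abs_add_le (s (n + 1) + b * v n) (-(b * v n))
    rw [abs_neg, add_neg_cancel_right] at this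
    linarith
  rw [abs_mul, abs_of_pos hb] at htri
  have hsn' : |s n| ≤ |s (n + 1)| := by
    have := abs_nonneg (s n)
    nlinarith
  have hL : 1 + 10 * u ≤ |s (n + 1)| := by linarith
  have h7 : u ^ 2 / 2000 * |s n| ≤ u ^ 2 / 2000 * |s (n + 1)| :=
    mul_le_mul_of_nonneg_left hsn' (by positivity)
  have h8 : u ^ 2 / 2000 ≤ u / 2000 := by nlinarith
  have h9 : (1 + 10 * u) * (1 - u ^ 2 / 2000) ≤ |s (n + 1)| * (1 - u ^ 2 / 2000) :=
    mul_le_mul_of_nonneg_right hL (by linarith)
  have h10 : 1 + 9 * u ≤ (1 + 10 * u) * (1 - u ^ 2 / 2000) := by nlinarith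
  linarith

theorem visits {p l q k a b : ℝ} {n0 : ℕ} (h : Par p l q k n0 a b) {O : Set (ℝ × ℝ)}
    (hO : IsSink a b O) : ∃ u ∈ O, |2 * a * u.1| < 4 * k ^ p := by
  by_contra hcon
  push Not at hcon
  have hk := h.num.k0
  have hk1 := h.num.k1
  have hb := h.b0
  have hbr := h.b1
  have hk2 : k ≤ 1 / 10 := by
    refine hk1.trans ?_
    norm_num
  have hb1 : b < 1 / 10 := by linarith
  have ha : 0 < a := by
    have := (abs_le.1 h.ha).1
    linarith
  have hbu : b ≤ k ^ ((1 - p) / 2) := by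
    obtain ⟨ht0, hu0, hu1, -, hkt, hks, -, -⟩ := small_k h.num
    have h9 : Real.sqrt k ≤ 1 := Real.sqrt_le_one.2 (by linarith)
    have h8 : k ^ p ≤ 1 := by linarith
    have h7 : k ^ p * (k ^ ((1 - p) / 2)) ^ 2 ≤ 1 * (k ^ ((1 - p) / 2)) ^ 2 :=
      mul_le_mul_of_nonneg_right h8 (by positivity)
    have h6 : (k ^ ((1 - p) / 2)) ^ 2 ≤ k ^ ((1 - p) / 2) := by nlinarith
    linarith
  obtain ⟨p₀, N, hN, hmin, hOeq, hmu⟩ := hO
  obtain ⟨n, rfl⟩ : ∃ n, N = n + 1 := ⟨N - 1, by omega⟩
  have hper : (henon a b)^[n + 1] p₀ = p₀ := by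
    have h := Function.iterate_minimalPeriod (f := henon a b) (x := p₀)
    rwa [hmin] at h
  have hperiodic : Function.IsPeriodicPt (henon a b) (n + 1) p₀ := hper
  -- the point with the smallest first coordinate
  obtain ⟨i, hi, himin⟩ := Finset.exists_min_image (Finset.range (n + 1))
    (fun j => |((henon a b)^[j] p₀).1|) ⟨0, by simp⟩
  rw [Finset.mem_range] at hi
  set y := (henon a b)^[i] p₀ with hq
  have hmemi : ∀ j : ℕ, (henon a b)^[j] y = (henon a b)^[(j + i) % (n + 1)] p₀ := by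
    intro j
    rw [hperiodic.iterate_mod_apply, Function.iterate_add_apply]
  have hmem : ∀ j : ℕ, (henon a b)^[j] y ∈ O := by
    intro j
    rw [hOeq]
    exact ⟨(j + i) % (n + 1), Nat.mod_lt _ (Nat.succ_pos n), hmemi j⟩
  have hqmin : ∀ j : ℕ, |y.1| ≤ |((henon a b)^[j] y).1| := by
    intro j
    rw [hmemi j]
    exact himin _ (Finset.mem_range.2 (Nat.mod_lt _ (Nat.succ_pos n)))
  have hperq : (henon a b)^[n + 1] y = y := by
    rw [hq, ← Function.iterate_add_apply, Nat.add_comm (n + 1) i, Function.iterate_add_apply, hper]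
  have hout : ∀ j : ℕ, 4 * k ^ p ≤ |2 * (a * ((henon a b)^[j] y).1)| := by
    intro j
    have h1 := hcon _ (hmem j)
    have e : 2 * (a * ((henon a b)^[j] y).1) = 2 * a * ((henon a b)^[j] y).1 := by ring
    rw [e]
    exact h1
  have horb : Orb a b (4 * k ^ p) n (fun j => a * ((henon a b)^[j] y).1) := by
    refine ⟨?_, ?_, ?_, ?_⟩
    · simp only [hperq, Function.iterate_zero, id]
    · have h1 : (henon a b)^[n + 2] y = (henon a b)^[1] y := by
        rw [show n + 2 = (n + 1) + 1 from rfl, Function.iterate_succ_apply', hperq]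
        rfl
      simp only [h1]
    · intro j
      have h1 := h28_fst_succ a b y (j + 1)
      have h2 := h28_snd_succ a b y j
      rw [show j + 2 = (j + 1) + 1 from rfl, h1, h2]
      ring
    · intro j _ _
      exact hout j
  have h0 : 2 * k ^ p ≤ |(fun j => a * ((henon a b)^[j] y).1) 0| := by
    have h1 := hout 0
    rw [abs_mul, abs_of_pos (by norm_num : (0 : ℝ) < 2)] at h1
    simp only
    linarith
  have hm : |(fun j => a * ((henon a b)^[j] y).1) 0| ≤ |(fun j => a * ((henon a b)^[j] y).1) n| := by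
    simp only [Function.iterate_zero, id]
    rw [abs_mul, abs_mul]
    exact mul_le_mul_of_nonneg_left (hqmin n) (abs_nonneg _)
  have hT := h66_trace h horb h0 hm
  -- the trace
  obtain ⟨-, -, h3, h4, h5, h6⟩ := Jac_entries a b y n
  have htr : (jacIter a b y (n + 1)).trace =
      sol b (fun k => 2 * (a * ((henon a b)^[k] y).1)) 1 (-(2 * (a * y.1))) (n + 1)
        + b * sol b (fun k => 2 * (a * ((henon a b)^[k] y).1)) 0 1 n := by
    rw [Matrix.trace_fin_two, h4, h5]
  simp only [Function.iterate_zero, id] at hT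
  rw [← htr] at hT
  have hbase := base hb.ne' hper i
  rw [← hq] at hbase
  rw [hbase] at hT
  have hroot : ∀ μ : ℂ, μ ^ 2 - ((jacIter a b p₀ (n + 1)).trace : ℂ) * μ
      + ((jacIter a b p₀ (n + 1)).det : ℂ) = 0 → ‖μ‖ < 1 := fun μ hμ => hmu μ (charpoly_root.2 hμ)
  have j1 := jury_one hroot
  have j2 := jury_neg hroot
  have hd : (jacIter a b p₀ (n + 1)).det ≤ b := by
    rw [det_iter]
    calc (-b) ^ (n + 1) ≤ |(-b) ^ (n + 1)| := le_abs_self _
      _ = b ^ (n + 1) := by rw [abs_pow, abs_neg, abs_of_pos hb]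
      _ ≤ b ^ 1 := pow_le_pow_of_le_one hb.le (by linarith) (by omega)
      _ = b := pow_one b
  have hu0 := (small_k h.num).2.1
  rcases le_abs'.1 hT with h1 | h1 <;> linarith

end Pool.Agent.helper23.HV
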