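import Pool.Agent.helper23.HV.Core
import Pool.Agent.helper23.HT.Link
import Pool.Agent.helper23.HV.Dim
import Pool.Agent.helper23.HV.Zero

/-!
# Few parameters with infinitely many sinks of one visit to the almost linear strips (helper23)
-/

namespace Pool.Agent.helper23.HV

open Pool.Agent.H48.HN Pool.Agent.helper23.HS MeasureTheory Set

theorem TT_window {p l q k b : ℝ} {n0 : ℕ} (w : List (Bool × Bool)) :
    ∀ x ∈ TT p l q k n0 b w, ∀ y ∈ TT p l q k n0 b w,
      |x - y| ≤ ((l - 1) * k ^ p) ^ 2 / 500 → |x - y| ≤ 64 * (w.map uu).prod := by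
  rintro x ⟨z, hz, hw, hc⟩ y ⟨z', hz', hw', hc'⟩ hd
  exact window hz' hz hw' hw hc' hc hd

theorem infinite_words {p l q k a b : ℝ} {n0 : ℕ} (h : Par p l q k n0 a b)
    (hO : {O | OneVisit a b (4 * k ^ p) O}.Infinite) : {w | a ∈ TT p l q k n0 b w}.Infinite := by
  have hb := h.b0
  have hk := h.num.k1
  have hk' : k / 1000 ≤ 1 / 10 := by
    have : (1 : ℝ) / 10 ^ 24 ≤ 1 := by norm_num
    linarith
  have hb1 : b < 1 := by have := h.b1; linarith
  have ha : 0 < a := by have := (abs_le.1 h.ha).1; linarith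
  by_contra hfin
  rw [Set.not_infinite] at hfin
  apply hO
  choose! n z hz hz0 hc hc4 hO using fun (O : Set (ℝ × ℝ)) (h : OneVisit a b (4 * k ^ p) O) =>
    Pool.Agent.helper23.HT.exists_orb' (R := 4 * k ^ p) ha hb hb1 h
  have hT : ∀ O, OneVisit a b (4 * k ^ p) O → Thin p l q k n0 a b (n O) (z O) := by
    intro O hOm
    refine ⟨h, hz O hOm, ?_⟩
    have h1 := hz0 O hOm
    rw [abs_mul, abs_of_pos (by norm_num : (0 : ℝ) < 2)] at h1
    linarith
  choose! w hw using fun (O : Set (ℝ × ℝ)) (h : OneVisit a b (4 * k ^ p) O) =>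
    parse_exists (hT O h)
  have hlen : ∀ O, OneVisit a b (4 * k ^ p) O → len n0 (w O) = n O := by
    intro O hOm
    have := parse_len (hw O hOm)
    omega
  refine Set.Finite.of_injOn (f := w) (fun O hOm => ?_) ?_ hfin
  · refine ⟨z O, ?_, ?_, ?_⟩
    · rw [hlen O hOm]; exact hT O hOm
    · rw [hlen O hOm]; exact hw O hOm
    · rw [hlen O hOm, abs_of_pos (hc O hOm)]
      exact hc4 O hOm
  · intro O hOm O' hOm' he
    have hn : n O = n O' := by rw [← hlen O hOm, ← hlen O' hOm', he]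
    have hz1 := hT O hOm
    have hz2 := hT O' hOm'
    have hw1 := hw O hOm
    have hw2 := hw O' hOm'
    rw [← hn] at hz2 hw2
    rw [← he] at hw2
    have hc2 := hc O' hOm'
    rw [← hn] at hc2
    have huni := unique hz1 hz2 (parse_signs hz1 hz2 hw1 hw2) (hc O hOm) hc2
    rw [hO O hOm, hO O' hOm', ← hn, huni 0 (Nat.zero_le _), huni (n O) le_rfl]

end Pool.Agent.helper23.HV
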